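import Pool.Agent.H660R4.Ode
set_option autoImplicit false
set_option linter.unusedSectionVars false
set_option linter.deprecated false
open Set Filter Topology Metric
open scoped ContDiff NNReal

namespace Pool.Agent.H660R4

section Pl
variable {X : Type*} [NormedAddCommGroup X] [NormedSpace ℝ X] [CompleteSpace X]

theorem hdw_fst {A B : Type*} [NormedAddCommGroup A] [NormedSpace ℝ A] [NormedAddCommGroup B]
    [NormedSpace ℝ B] {f : ℝ → A × B} {f' : A × B} {s : Set ℝ} {t : ℝ}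
    (h : HasDerivWithinAt f f' s t) : HasDerivWithinAt (fun s => (f s).1) f'.1 s t := h.fst

theorem hdw_snd {A B : Type*} [NormedAddCommGroup A] [NormedSpace ℝ A] [NormedAddCommGroup B]
    [NormedSpace ℝ B] {f : ℝ → A × B} {f' : A × B} {s : Set ℝ} {t : ℝ}
    (h : HasDerivWithinAt f f' s t) : HasDerivWithinAt (fun s => (f s).2) f'.2 s t := h.snd

theorem pl_lip {f : ℝ → X → X} {tmin tmax : ℝ} {t₀ : Icc tmin tmax} {x₀ : X} {a r L K : ℝ≥0}
    (hf : IsPicardLindelof f t₀ x₀ a r L K) :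
    ∃ α : X → ℝ → X, (∀ x ∈ closedBall x₀ r, α x t₀ = x ∧ (∀ t, α x t ∈ closedBall x₀ a) ∧
      ∀ t ∈ Icc tmin tmax, HasDerivWithinAt (α x) (f t (α x t)) (Icc tmin tmax) t) ∧
      ∃ L' : ℝ≥0, ∀ t ∈ Icc tmin tmax, ∀ x ∈ closedBall x₀ r, ∀ y ∈ closedBall x₀ r,
        ‖α x t - α y t‖ ≤ L' * ‖x - y‖ := by
  classical
  have (x) (hx : x ∈ closedBall x₀ r) := ODE.FunSpace.exists_isFixedPt_next hf hx
  choose α hα using this
  set α' := fun (x : X) ↦ if hx : x ∈ closedBall x₀ r then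
    α x hx |>.compProj else 0 with hα'
  refine ⟨α', fun x hx ↦ ⟨?_, fun t => ?_, fun t ht ↦ ?_⟩, ?_⟩
  · rw [hα']
    beta_reduce
    rw [dif_pos hx, ODE.FunSpace.compProj_val, ← hα, ODE.FunSpace.next_apply₀]
  · rw [hα']
    beta_reduce
    rw [dif_pos hx]
    exact (α x hx).compProj_mem_closedBall hf.mul_max_le
  · rw [hα']
    beta_reduce
    rw [dif_pos hx, ODE.FunSpace.compProj_apply]
    apply ODE.hasDerivWithinAt_picard_Icc t₀.2 hf.continuousOn_uncurry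
      (α x hx |>.continuous_compProj.continuousOn)
      (fun _ ht' ↦ α x hx |>.compProj_mem_closedBall hf.mul_max_le)
      x ht |>.congr_of_mem _ ht
    intro t' ht'
    nth_rw 1 [← hα]
    rw [ODE.FunSpace.compProj_of_mem ht', ODE.FunSpace.next_apply]
  · obtain ⟨L', h⟩ := ODE.FunSpace.exists_forall_closedBall_funSpace_dist_le_mul hf
    refine ⟨L', fun t ht x hx y hy ↦ ?_⟩
    rw [← dist_eq_norm, ← dist_eq_norm]
    simp_rw [hα']
    rw [dif_pos hx, dif_pos hy, ODE.FunSpace.compProj_apply, ODE.FunSpace.compProj_apply,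
      ← ODE.FunSpace.toContinuousMap_apply_eq_apply, ← ODE.FunSpace.toContinuousMap_apply_eq_apply]
    have : Nonempty (Icc tmin tmax) := ⟨t₀⟩
    apply ContinuousMap.dist_le_iff_of_nonempty.mp
    exact h x y hx hy (α x hx) (α y hy) (hα x hx) (hα y hy)

/-- local flow of a locally Lipschitz vector field -/
theorem lip_flow {f : X → X} {x₀ : X} {a : ℝ} {K : ℝ≥0} (ha : 0 < a)
    (hl0 : ∀ x ∈ closedBall x₀ a, ∀ y ∈ closedBall x₀ a, ‖f x - f y‖ ≤ K * ‖x - y‖) :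
    ∃ r : ℝ, 0 < r ∧ ∃ ε : ℝ, 0 < ε ∧ ∀ x ∈ closedBall x₀ r, ∃ z : ℝ → X, z 0 = x ∧
      ∀ t ∈ Ioo (-ε) ε, z t ∈ closedBall x₀ a ∧ HasDerivAt z (f (z t)) t := by
  have hl : LipschitzOnWith K f (closedBall x₀ a) :=
    LipschitzOnWith.of_dist_le_mul fun x hx y hy => by
      rw [dist_eq_norm, dist_eq_norm]; exact hl0 x hx y hy
  set Lb : ℝ≥0 := K * ⟨a, ha.le⟩ + ‖f x₀‖₊ + 1 with hLb
  have hLb0 : 0 < Lb := by positivity
  have hLbr : (Lb : ℝ) = K * a + ‖f x₀‖ + 1 := by rw [hLb]; push_cast; rfl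
  have hb : ∀ x ∈ closedBall x₀ a, ‖f x‖ ≤ Lb := by
    intro x hx
    have h1 := hl.norm_sub_le hx (mem_closedBall_self ha.le)
    have h2 : ‖x - x₀‖ ≤ a := by simpa [dist_eq_norm] using hx
    have h3 : ‖f x‖ ≤ ‖f x - f x₀‖ + ‖f x₀‖ := norm_le_norm_sub_add _ _
    have h4 : (K : ℝ) * ‖x - x₀‖ ≤ K * a := by gcongr
    rw [hLbr]; linarith
  set ε : ℝ := a / 2 / Lb with hε
  have hε0 : 0 < ε := by positivity
  refine ⟨a / 2, by positivity, ε, hε0, fun x hx => ?_⟩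
  have hpl : IsPicardLindelof (fun _ => f) (tmin := -ε) (tmax := ε)
      ⟨0, by simp [hε0.le]⟩ x₀ ⟨a, ha.le⟩ ⟨a / 2, by positivity⟩ Lb K := by
    apply IsPicardLindelof.of_time_independent hb hl
    simp only [sub_zero, sub_neg_eq_add, zero_add, max_self]
    rw [hε]
    have : (Lb : ℝ) * (a / 2 / Lb) = a / 2 := by field_simp
    rw [this]
    show a / 2 ≤ a - a / 2
    linarith
  obtain ⟨z, hz0, hz1, hz2⟩ := pl_mem hpl hx
  exact ⟨z, hz0, fun t ht => ⟨hz1 t, (hz2 t (Ioo_subset_Icc_self ht)).hasDerivAt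
    (Icc_mem_nhds ht.1 ht.2)⟩⟩

/-- a locally Lipschitz function near a point, from `C¹`. -/
theorem c1_ball {Y : Type*} [NormedAddCommGroup Y] [NormedSpace ℝ Y] {f : X → Y} {x₀ : X}
    (hf : ContDiffAt ℝ 1 f x₀) : ∃ a0 : ℝ, 0 < a0 ∧ ∃ K : ℝ≥0, ∃ G : ℝ, 0 ≤ G ∧
      (∀ x ∈ closedBall x₀ a0, ∀ y ∈ closedBall x₀ a0, ‖f x - f y‖ ≤ K * ‖x - y‖) ∧
      ∀ x ∈ closedBall x₀ a0, ‖f x‖ ≤ G := by
  obtain ⟨K, s, hs, hl⟩ := hf.exists_lipschitzOnWith
  obtain ⟨a, ha, has⟩ := Metric.nhds_basis_closedBall.mem_iff.1 hs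
  refine ⟨a, ha, K, K * a + ‖f x₀‖, by positivity,
    fun x hx y hy => (hl.mono has).norm_sub_le hx hy, fun x hx => ?_⟩
  have h1 := (hl.mono has).norm_sub_le hx (mem_closedBall_self ha.le)
  have h2 : ‖x - x₀‖ ≤ a := by simpa [dist_eq_norm] using hx
  have h3 : ‖f x‖ ≤ ‖f x - f x₀‖ + ‖f x₀‖ := norm_le_norm_sub_add _ _
  have h4 : (K : ℝ) * ‖x - x₀‖ ≤ K * a := by gcongr
  linarith

/-- flow on `[0,1]` of `τ • (g0 + t • g1)` for small `τ` -/
theorem jac_flow {g0 g1 : X → X} {zs : X} {a : ℝ} {K0 K1 : ℝ≥0} {G0 G1 : ℝ} (ha : 0 < a)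
    (hG0 : 0 ≤ G0) (hG1 : 0 ≤ G1)
    (hl0 : ∀ x ∈ closedBall zs a, ∀ y ∈ closedBall zs a, ‖g0 x - g0 y‖ ≤ K0 * ‖x - y‖)
    (hb0 : ∀ x ∈ closedBall zs a, ‖g0 x‖ ≤ G0)
    (hl1 : ∀ x ∈ closedBall zs a, ∀ y ∈ closedBall zs a, ‖g1 x - g1 y‖ ≤ K1 * ‖x - y‖)
    (hb1 : ∀ x ∈ closedBall zs a, ‖g1 x‖ ≤ G1) {τ : ℝ} (hτ : 0 < τ) (hτ1 : τ * (G0 + G1) ≤ a / 2) :
    ∃ α : X → ℝ → X, (∀ x ∈ closedBall zs (a / 2), α x 0 = x ∧ (∀ t, ‖α x t - zs‖ ≤ a) ∧
      ∀ t ∈ Icc (0:ℝ) 1, HasDerivWithinAt (α x) (τ • (g0 (α x t) + t • g1 (α x t)))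
        (Icc (0:ℝ) 1) t) ∧
      ∃ L' : ℝ≥0, ∀ x ∈ closedBall zs (a / 2), ∀ y ∈ closedBall zs (a / 2),
        ‖α x 1 - α y 1‖ ≤ L' * ‖x - y‖ := by
  set f : ℝ → X → X := fun t z => τ • (g0 z + t • g1 z) with hf
  set ann : ℝ≥0 := ⟨a, ha.le⟩ with hann
  set rnn : ℝ≥0 := ⟨a / 2, by positivity⟩ with hrnn
  set Lnn : ℝ≥0 := ⟨τ * (G0 + G1), by positivity⟩ with hLnn
  set τnn : ℝ≥0 := ⟨τ, hτ.le⟩ with hτnn
  have hpl : IsPicardLindelof f (tmin := 0) (tmax := 1) ⟨0, by simp⟩ zs ann rnn Lnn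
      (τnn * (K0 + K1)) := by
    refine ⟨?_, ?_, ?_, ?_⟩
    · intro t ht
      refine LipschitzOnWith.of_dist_le_mul fun x hx y hy => ?_
      have e0 := hl0 x hx y hy
      have e1 := hl1 x hx y hy
      rw [dist_eq_norm, dist_eq_norm]
      have e : f t x - f t y = τ • ((g0 x - g0 y) + t • (g1 x - g1 y)) := by
        simp only [hf, smul_add, smul_sub]; abel
      rw [e, norm_smul, Real.norm_of_nonneg hτ.le]
      have h1 : ‖(g0 x - g0 y) + t • (g1 x - g1 y)‖ ≤ K0 * ‖x - y‖ + K1 * ‖x - y‖ := by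
        refine (norm_add_le _ _).trans (add_le_add e0 ?_)
        rw [norm_smul, Real.norm_of_nonneg ht.1]
        calc t * ‖g1 x - g1 y‖ ≤ 1 * ‖g1 x - g1 y‖ := by
              gcongr; exact ht.2
          _ ≤ K1 * ‖x - y‖ := by rw [one_mul]; exact e1
      have h2 : ((τnn * (K0 + K1) : ℝ≥0) : ℝ) = τ * (K0 + K1) := by push_cast; rfl
      rw [h2]
      calc τ * ‖(g0 x - g0 y) + t • (g1 x - g1 y)‖
          ≤ τ * (K0 * ‖x - y‖ + K1 * ‖x - y‖) := by gcongr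
        _ = τ * (K0 + K1) * ‖x - y‖ := by ring
    · intro x hx
      apply Continuous.continuousOn
      exact (continuous_const.add (continuous_id.smul continuous_const)).const_smul τ
    · intro t ht x hx
      have e0 := hb0 x hx
      have e1 := hb1 x hx
      show ‖f t x‖ ≤ τ * (G0 + G1)
      simp only [hf]
      rw [norm_smul, Real.norm_of_nonneg hτ.le]
      gcongr
      refine (norm_add_le _ _).trans (add_le_add e0 ?_)
      rw [norm_smul, Real.norm_of_nonneg ht.1]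
      calc t * ‖g1 x‖ ≤ 1 * ‖g1 x‖ := by gcongr; exact ht.2
        _ ≤ G1 := by rw [one_mul]; exact e1
    · show τ * (G0 + G1) * max (1 - 0) (0 - 0) ≤ a - a / 2
      simp only [sub_zero, sub_self, max_eq_left zero_le_one, mul_one]
      linarith
  obtain ⟨α, hα, L, hL⟩ := pl_lip hpl
  refine ⟨α, fun x hx => ⟨(hα x hx).1, fun t => ?_, (hα x hx).2.2⟩, L, hL 1 (by simp)⟩
  have := (hα x hx).2.1 t
  rw [mem_closedBall, dist_eq_norm] at this
  exact this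

end Pl

section Exp
variable {D : Type*} [NormedAddCommGroup D] [NormedSpace ℝ D] [CompleteSpace D]

/-- the flow of a linear vector field -/
noncomputable def ex (B : D →L[ℝ] D) : D →L[ℝ] D := NormedSpace.exp B

theorem ex_neg (B : D →L[ℝ] D) (x : D) : ex (-B) (ex B x) = x := by
  have h : (ex (-B) * ex B : D →L[ℝ] D) = 1 := by
    simp only [ex]
    let _ : NormedAlgebra ℚ (D →L[ℝ] D) := NormedAlgebra.restrictScalars ℚ ℝ _
    rw [← NormedSpace.exp_add_of_commute (Commute.neg_left (Commute.refl B))]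
    simp
  have := congrArg (fun T : D →L[ℝ] D => T x) h
  simpa using this

theorem ex_neg' (B : D →L[ℝ] D) (x : D) : ex B (ex (-B) x) = x := by
  simpa using ex_neg (-B) x

theorem ex_continuous (B : D →L[ℝ] D) : Continuous fun t : ℝ => ex (t • B) := by
  rw [continuous_iff_continuousAt]
  intro t
  exact (hasDerivAt_exp_smul_const B t).continuousAt

theorem ex_sol {B : D →L[ℝ] D} {κ : ℝ → D} {μ μ' : ℝ → ℝ} {I : Set ℝ} (hI : Convex ℝ I)
    (hμ : ∀ t ∈ I, HasDerivWithinAt μ (μ' t) I t)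
    (hκ : ∀ t ∈ I, HasDerivWithinAt κ (μ' t • B (κ t)) I t) {t₀ t : ℝ} (h0 : t₀ ∈ I) (ht : t ∈ I)
    (hm : μ t₀ = 0) : κ t = ex (μ t • B) (κ t₀) := by
  have hd : ∀ t ∈ I, HasDerivWithinAt (fun t => ex (-(μ t • B)) (κ t)) 0 I t := by
    intro t ht
    have h1 : HasDerivWithinAt (fun t => ex ((-μ t) • B)) (-μ' t • (ex ((-μ t) • B) * B)) I t := by
      have := (hasDerivAt_exp_smul_const B (-μ t)).scomp_hasDerivWithinAt t (hμ t ht).neg
      exact this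
    have h2 := h1.clm_apply (hκ t ht)
    simp only [neg_smul] at h2
    refine h2.congr_deriv ?_
    simp
  have := hI.norm_image_sub_le_of_norm_hasDerivWithin_le hd (C := 0) (fun x _ => by simp) h0 ht
  rw [zero_mul] at this
  have h3 := sub_eq_zero.1 (norm_le_zero_iff.1 this)
  simp only [hm, zero_smul, neg_zero] at h3
  have h4 : ex (0 : D →L[ℝ] D) (κ t₀) = κ t₀ := by simp [ex, NormedSpace.exp_zero]
  rw [h4] at h3
  rw [← h3, ex_neg']

end Exp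

end Pool.Agent.H660R4
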