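import Pool.Agent.H660R3.LorDefs
set_option autoImplicit false
open Set Filter Topology
open scoped ContDiff Manifold

/-!
# Pseudo-Riemannian manifolds, covariant derivatives of the curvature tensor, completeness

`M` is a manifold modelled on `ℝⁿ = EuclideanSpace ℝ (Fin n)`. As in Mathlib, where
`TangentSpace (𝓡 n) p` is by definition `EuclideanSpace ℝ (Fin n)`, a tangent vector at `p` is given by its
components in the preferred chart `chartAt _ p` at `p`. The definitions `dirD` (directional derivative),
`tanChange` (change of coordinates of tangent vectors), `coordForm` (components of a bilinear form in a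
chart), `IsSymBil` (symmetric bilinear form) and `inChart` (a curve in the chart at `γ t`) are those of
`Pool.Agent.H660R3.LorDefs`.
-/
namespace Pool.Agent.H660R4

open Pool.Agent.H660R3

variable {n : ℕ} {M : Type*} [TopologicalSpace M] [ChartedSpace (EuclideanSpace ℝ (Fin n)) M]

variable (n M) in
/-- A smooth pseudo-Riemannian metric on `M`. -/
structure PseudoMetric where
  /-- the bilinear form on the tangent space at `p` -/
  val : M → EuclideanSpace ℝ (Fin n) → EuclideanSpace ℝ (Fin n) → ℝ
  symBil : ∀ p, IsSymBil (val p)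
  /-- it is nondegenerate -/
  nondeg : ∀ p v, (∀ w, val p v w = 0) → v = 0
  /-- it is smooth: its components in the charts are `C^∞` -/
  smooth : ∀ (x₀ : M) (u v : EuclideanSpace ℝ (Fin n)),
    ContDiffOn ℝ ∞ (fun y => coordForm val x₀ y u v) (chartAt (EuclideanSpace ℝ (Fin n)) x₀).target

/-- The metric is indefinite: at every point it takes negative and positive values. -/
def PseudoMetric.Indefinite (g : PseudoMetric n M) : Prop :=
  ∀ p, (∃ v, g.val p v v < 0) ∧ ∃ v, 0 < g.val p v v

/-- The Christoffel symbols of the metric with components `G` on an open set of `ℝⁿ`, as a vector valued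
bilinear form: `chr G y u v = Γ(u, v)` is the vector with
`G(Γ(u, v), w) = (1/2) (D_u G(v, w) + D_v G(u, w) - D_w G(u, v))` for all `w`. -/
noncomputable def chr
    (G : EuclideanSpace ℝ (Fin n) → EuclideanSpace ℝ (Fin n) → EuclideanSpace ℝ (Fin n) → ℝ)
    (y u v : EuclideanSpace ℝ (Fin n)) : EuclideanSpace ℝ (Fin n) :=
  Classical.epsilon fun a => ∀ w, G y a w = (1 / 2) * (dirD (fun z => G z v w) y u +
    dirD (fun z => G z u w) y v - dirD (fun z => G z u v) y w)

/-- The Riemann curvature `R(u, v) w` of the metric with components `G`: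
`D_u Γ(v, w) - D_v Γ(u, w) + Γ(u, Γ(v, w)) - Γ(v, Γ(u, w))`. -/
noncomputable def riem
    (G : EuclideanSpace ℝ (Fin n) → EuclideanSpace ℝ (Fin n) → EuclideanSpace ℝ (Fin n) → ℝ)
    (y u v w : EuclideanSpace ℝ (Fin n)) : EuclideanSpace ℝ (Fin n) :=
  fderiv ℝ (fun z => chr G z v w) y u - fderiv ℝ (fun z => chr G z u w) y v +
    chr G y u (chr G y v w) - chr G y v (chr G y u w)

/-- Coordinate expression in the chart at `x₀` of a covariant tensor field of order `m`: its value on
tangent vectors given by their components in the chart at `x₀`. -/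
noncomputable def coordTensor {m : ℕ}
    (T : M → MultilinearMap ℝ (fun _ : Fin m => EuclideanSpace ℝ (Fin n)) ℝ) (x₀ : M)
    (y : EuclideanSpace ℝ (Fin n)) (v : Fin m → EuclideanSpace ℝ (Fin n)) : ℝ :=
  let p := (chartAt (EuclideanSpace ℝ (Fin n)) x₀).symm y
  T p fun i => tanChange x₀ p y (v i)

variable (n M) in
/-- A smooth covariant tensor field of order `m` on `M`. -/
structure TensorField (m : ℕ) where
  /-- the multilinear form on the tangent space at `p` -/
  val : M → MultilinearMap ℝ (fun _ : Fin m => EuclideanSpace ℝ (Fin n)) ℝ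
  smooth : ∀ (x₀ : M) (v : Fin m → EuclideanSpace ℝ (Fin n)),
    ContDiffOn ℝ ∞ (fun y => coordTensor val x₀ y v) (chartAt (EuclideanSpace ℝ (Fin n)) x₀).target

/-- `T` is the (covariant) curvature tensor of `g`: in every chart, `T(u, v, w, z) = g(R(u, v) w, z)`. -/
def IsCurvature (g : PseudoMetric n M) (T : TensorField n M 4) : Prop :=
  ∀ x₀ : M, ∀ y ∈ (chartAt (EuclideanSpace ℝ (Fin n)) x₀).target,
    ∀ u v w z : EuclideanSpace ℝ (Fin n), coordTensor T.val x₀ y ![u, v, w, z] =
      coordForm g.val x₀ y (riem (coordForm g.val x₀) y u v w) z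

/-- `T'` is the covariant derivative of `T`: in every chart,
`T'(u, v₁, …, v_m) = (D_u T)(v₁, …, v_m) - ∑ᵢ T(v₁, …, Γ(u, vᵢ), …, v_m)`. -/
def IsCovDeriv (g : PseudoMetric n M) {m : ℕ} (T : TensorField n M m) (T' : TensorField n M (m + 1)) :
    Prop :=
  ∀ x₀ : M, ∀ y ∈ (chartAt (EuclideanSpace ℝ (Fin n)) x₀).target,
    ∀ (u : EuclideanSpace ℝ (Fin n)) (v : Fin m → EuclideanSpace ℝ (Fin n)),
      coordTensor T'.val x₀ y (Fin.cons u v) = dirD (fun z => coordTensor T.val x₀ z v) y u -
        ∑ i, coordTensor T.val x₀ y (Function.update v i (chr (coordForm g.val x₀) y u (v i)))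

/-- `(M, g)` is `r`-th symmetric: the `r`-th covariant derivative of the curvature tensor vanishes. -/
def IsSymmetricOrder (g : PseudoMetric n M) (r : ℕ) : Prop :=
  ∃ T : (k : ℕ) → TensorField n M (4 + k), IsCurvature g (T 0) ∧
    (∀ k, IsCovDeriv g (T k) (T (k + 1))) ∧ ∀ p, (T r).val p = 0

/-- `γ : ℝ → M` is a geodesic of `g`, defined on all of `ℝ`: it is smooth and satisfies
`∇_{γ'} γ' = 0`, that is, with `c` the curve `γ` in the chart at `γ t`, `c'' + Γ(c', c') = 0` at `t`. -/
def IsGeodesic (g : PseudoMetric n M) (γ : ℝ → M) : Prop :=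
  ContMDiff 𝓘(ℝ, ℝ) (𝓡 n) ∞ γ ∧ ∀ t : ℝ, deriv (deriv (inChart (n := n) γ t)) t +
    chr (coordForm g.val (γ t)) (inChart γ t t) (deriv (inChart γ t) t)
      (deriv (inChart γ t) t) = 0

/-- Completeness of the geodesics whose initial velocity `v ≠ 0` satisfies `P (g(v, v))`: for every such
initial velocity there is a geodesic with that initial velocity that is defined on all of `ℝ`.
By the uniqueness of the geodesic with a given initial velocity this says that the inextendible geodesics
of this type are defined on all of `ℝ`. -/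
def CompleteFor (g : PseudoMetric n M) (P : ℝ → Prop) : Prop :=
  ∀ (p : M) (v : EuclideanSpace ℝ (Fin n)), v ≠ 0 → P (g.val p v v) →
    ∃ γ : ℝ → M, IsGeodesic g γ ∧ γ 0 = p ∧ deriv (inChart γ 0) 0 = v

/-- timelike completeness -/
def TimelikeComplete (g : PseudoMetric n M) : Prop := CompleteFor g fun q => q < 0
/-- lightlike completeness -/
def LightlikeComplete (g : PseudoMetric n M) : Prop := CompleteFor g fun q => q = 0
/-- spacelike completeness -/
def SpacelikeComplete (g : PseudoMetric n M) : Prop := CompleteFor g fun q => 0 < q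
/-- geodesic completeness -/
def GeodesicallyComplete (g : PseudoMetric n M) : Prop := CompleteFor g fun _ => True

end Pool.Agent.H660R4
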