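import Pool.Agent.H660R4.Types
import Pool.Agent.H660R4.Defs
set_option autoImplicit false
set_option linter.unusedSectionVars false
set_option linter.deprecated false
set_option synthInstance.maxHeartbeats 400000
set_option maxHeartbeats 4000000
open Set Filter Topology Metric
open scoped ContDiff NNReal Manifold

namespace Pool.Agent.H660R4

open Pool.Agent.H660R3

variable {n : ℕ} {M : Type*} [TopologicalSpace M] [ChartedSpace (EuclideanSpace ℝ (Fin n)) M]
  [IsManifold 𝓘(ℝ, EuclideanSpace ℝ (Fin n)) ∞ M]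

/-- bundling of bilinear maps -/
noncomputable def clm2 {F : Type*} [NormedAddCommGroup F] [NormedSpace ℝ F]
    (B : (EuclideanSpace ℝ (Fin n)) →ₗ[ℝ] (EuclideanSpace ℝ (Fin n)) →ₗ[ℝ] F) : (EuclideanSpace ℝ (Fin n)) →L[ℝ] (EuclideanSpace ℝ (Fin n)) →L[ℝ] F :=
  LinearMap.toContinuousLinearMap
    ((LinearMap.toContinuousLinearMap : ((EuclideanSpace ℝ (Fin n)) →ₗ[ℝ] F) ≃ₗ[ℝ] ((EuclideanSpace ℝ (Fin n)) →L[ℝ] F)).toLinearMap ∘ₗ B)

theorem clm2_apply {F : Type*} [NormedAddCommGroup F] [NormedSpace ℝ F]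
    (B : (EuclideanSpace ℝ (Fin n)) →ₗ[ℝ] (EuclideanSpace ℝ (Fin n)) →ₗ[ℝ] F) (u v : (EuclideanSpace ℝ (Fin n))) : clm2 B u v = B u v := rfl

variable (g : PseudoMetric n M)

theorem coordForm_eq (a : M) (y u v : (EuclideanSpace ℝ (Fin n))) : coordForm g.val a y u v =
    g.val ((chartAt (EuclideanSpace ℝ (Fin n)) a).symm y) (Jc a ((chartAt (EuclideanSpace ℝ (Fin n)) a).symm y) y u)
      (Jc a ((chartAt (EuclideanSpace ℝ (Fin n)) a).symm y) y v) := rfl

theorem coordForm_symm (a : M) (y u v : (EuclideanSpace ℝ (Fin n))) :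
    coordForm g.val a y u v = coordForm g.val a y v u := (g.symBil _).2 _ _

theorem coordForm_lin (a : M) (y v : (EuclideanSpace ℝ (Fin n))) : IsLinearMap ℝ fun u => coordForm g.val a y u v := by
  constructor
  · intro u u'
    simp only [coordForm_eq, map_add]
    exact ((g.symBil _).1 _).map_add _ _
  · intro k u
    simp only [coordForm_eq, map_smul]
    exact ((g.symBil _).1 _).map_smul _ _

noncomputable def PG (a : M) (y : (EuclideanSpace ℝ (Fin n))) : (EuclideanSpace ℝ (Fin n)) →L[ℝ] (EuclideanSpace ℝ (Fin n)) →L[ℝ] ℝ :=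
  clm2 (LinearMap.mk₂ ℝ (coordForm g.val a y) (fun u u' v => (coordForm_lin g a y v).map_add u u')
    (fun k u v => (coordForm_lin g a y v).map_smul k u)
    (fun u v v' => by
      rw [coordForm_symm, (coordForm_lin g a y u).map_add, coordForm_symm g a y v,
        coordForm_symm g a y v'])
    (fun k u v => by rw [coordForm_symm, (coordForm_lin g a y u).map_smul, coordForm_symm g a y v]))

theorem PG_apply (a : M) (y u v : (EuclideanSpace ℝ (Fin n))) : PG g a y u v = coordForm g.val a y u v := rfl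

theorem PG_symm (a : M) (y u v : (EuclideanSpace ℝ (Fin n))) : PG g a y u v = PG g a y v u := coordForm_symm g a y u v

theorem PG_smooth (a : M) : ContDiffOn ℝ ∞ (PG g a) (chartAt (EuclideanSpace ℝ (Fin n)) a).target :=
  contDiffOn_clm_apply.2 fun u => contDiffOn_clm_apply.2 fun v => g.smooth a u v

theorem J_props {a : M} {y : (EuclideanSpace ℝ (Fin n))} (hy : y ∈ (chartAt (EuclideanSpace ℝ (Fin n)) a).target) :
    (∀ v, Jc ((chartAt (EuclideanSpace ℝ (Fin n)) a).symm y) a (chartAt (EuclideanSpace ℝ (Fin n)) ((chartAt (EuclideanSpace ℝ (Fin n)) a).symm y) ((chartAt (EuclideanSpace ℝ (Fin n)) a).symm y))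
      (Jc a ((chartAt (EuclideanSpace ℝ (Fin n)) a).symm y) y v) = v) ∧
    ∀ v, Jc a ((chartAt (EuclideanSpace ℝ (Fin n)) a).symm y) y (Jc ((chartAt (EuclideanSpace ℝ (Fin n)) a).symm y) a
      (chartAt (EuclideanSpace ℝ (Fin n)) ((chartAt (EuclideanSpace ℝ (Fin n)) a).symm y) ((chartAt (EuclideanSpace ℝ (Fin n)) a).symm y)) v) = v := by
  set p := (chartAt (EuclideanSpace ℝ (Fin n)) a).symm y with hp
  have hpa : p ∈ (chartAt (EuclideanSpace ℝ (Fin n)) a).source := (chartAt (EuclideanSpace ℝ (Fin n)) a).map_target hy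
  have hyp : chartAt (EuclideanSpace ℝ (Fin n)) a p = y := (chartAt (EuclideanSpace ℝ (Fin n)) a).right_inv hy
  have h1 := Jc_inv (E := (EuclideanSpace ℝ (Fin n))) hpa (mem_chart_source (EuclideanSpace ℝ (Fin n)) p)
  have h2 := Jc_inv (E := (EuclideanSpace ℝ (Fin n))) (mem_chart_source (EuclideanSpace ℝ (Fin n)) p) hpa
  rw [hyp] at h1 h2
  exact ⟨fun v => congrArg (fun L : (EuclideanSpace ℝ (Fin n)) →L[ℝ] (EuclideanSpace ℝ (Fin n)) => L v) h1,
    fun v => congrArg (fun L : (EuclideanSpace ℝ (Fin n)) →L[ℝ] (EuclideanSpace ℝ (Fin n)) => L v) h2⟩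

theorem PG_nondeg {a : M} {y : (EuclideanSpace ℝ (Fin n))} (hy : y ∈ (chartAt (EuclideanSpace ℝ (Fin n)) a).target) (v : (EuclideanSpace ℝ (Fin n)))
    (h : ∀ w, PG g a y v w = 0) : v = 0 := by
  obtain ⟨h1, h2⟩ := J_props hy
  have h3 : Jc a ((chartAt (EuclideanSpace ℝ (Fin n)) a).symm y) y v = 0 := by
    refine g.nondeg ((chartAt (EuclideanSpace ℝ (Fin n)) a).symm y) _ fun w => ?_
    have h4 := h (Jc ((chartAt (EuclideanSpace ℝ (Fin n)) a).symm y) a
      (chartAt (EuclideanSpace ℝ (Fin n)) ((chartAt (EuclideanSpace ℝ (Fin n)) a).symm y) ((chartAt (EuclideanSpace ℝ (Fin n)) a).symm y)) w)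
    rw [PG_apply, coordForm_eq, h2] at h4
    exact h4
  rw [← h1 v, h3, map_zero]

theorem PG_equiv {a : M} {y : (EuclideanSpace ℝ (Fin n))} (hy : y ∈ (chartAt (EuclideanSpace ℝ (Fin n)) a).target) :
    ∃ e : (EuclideanSpace ℝ (Fin n)) ≃L[ℝ] ((EuclideanSpace ℝ (Fin n)) →L[ℝ] ℝ), (e : (EuclideanSpace ℝ (Fin n)) →L[ℝ] ((EuclideanSpace ℝ (Fin n)) →L[ℝ] ℝ)) = PG g a y := by
  have hinj : Function.Injective (PG g a y : (EuclideanSpace ℝ (Fin n)) →ₗ[ℝ] ((EuclideanSpace ℝ (Fin n)) →L[ℝ] ℝ)) := by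
    rw [injective_iff_map_eq_zero]
    intro v hv
    refine PG_nondeg g hy v fun w => ?_
    have : PG g a y v = 0 := hv
    rw [this]; simp
  have hfr : Module.finrank ℝ (EuclideanSpace ℝ (Fin n)) = Module.finrank ℝ ((EuclideanSpace ℝ (Fin n)) →L[ℝ] ℝ) := by
    rw [← (LinearMap.toContinuousLinearMap : ((EuclideanSpace ℝ (Fin n)) →ₗ[ℝ] ℝ) ≃ₗ[ℝ] ((EuclideanSpace ℝ (Fin n)) →L[ℝ] ℝ)).finrank_eq]
    exact (Subspace.dual_finrank_eq (K := ℝ) (V := (EuclideanSpace ℝ (Fin n)))).symm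
  have hsur := (LinearMap.injective_iff_surjective_of_finrank_eq_finrank hfr).1 hinj
  refine ⟨(LinearEquiv.ofBijective (PG g a y : (EuclideanSpace ℝ (Fin n)) →ₗ[ℝ] ((EuclideanSpace ℝ (Fin n)) →L[ℝ] ℝ))
    ⟨hinj, hsur⟩).toContinuousLinearEquiv, ?_⟩
  ext v w
  rfl

/-- the Koszul form -/
noncomputable def kos (D : (EuclideanSpace ℝ (Fin n)) →L[ℝ] (EuclideanSpace ℝ (Fin n)) →L[ℝ] (EuclideanSpace ℝ (Fin n)) →L[ℝ] ℝ) (u v : (EuclideanSpace ℝ (Fin n))) : (EuclideanSpace ℝ (Fin n)) →L[ℝ] ℝ :=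
  D u v + D v u - (D.flip u).flip v

theorem kos_apply (D : (EuclideanSpace ℝ (Fin n)) →L[ℝ] (EuclideanSpace ℝ (Fin n)) →L[ℝ] (EuclideanSpace ℝ (Fin n)) →L[ℝ] ℝ) (u v w : (EuclideanSpace ℝ (Fin n))) :
    kos D u v w = D u v w + D v u w - D w u v := by
  simp [kos]

/-- the Christoffel symbols, bundled -/
noncomputable def PΓ (a : M) (y : (EuclideanSpace ℝ (Fin n))) : (EuclideanSpace ℝ (Fin n)) →L[ℝ] (EuclideanSpace ℝ (Fin n)) →L[ℝ] (EuclideanSpace ℝ (Fin n)) :=
  clm2 (LinearMap.mk₂ ℝ (fun u v => (PG g a y).inverse ((1 / 2 : ℝ) • kos (fderiv ℝ (PG g a) y) u v))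
    (fun u u' v => by
      rw [← map_add, ← smul_add]
      congr 2
      ext w
      simp only [kos_apply, map_add, ContinuousLinearMap.add_apply]; ring)
    (fun k u v => by
      rw [← map_smul, smul_comm]
      congr 2
      ext w
      simp only [kos_apply, map_smul, ContinuousLinearMap.smul_apply, smul_eq_mul]; ring)
    (fun u v v' => by
      rw [← map_add, ← smul_add]
      congr 2
      ext w
      simp only [kos_apply, map_add, ContinuousLinearMap.add_apply]; ring)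
    (fun k u v => by
      rw [← map_smul, smul_comm]
      congr 2
      ext w
      simp only [kos_apply, map_smul, ContinuousLinearMap.smul_apply, smul_eq_mul]; ring))

theorem PΓ_apply (a : M) (y u v : (EuclideanSpace ℝ (Fin n))) : PΓ g a y u v =
    (PG g a y).inverse ((1 / 2 : ℝ) • kos (fderiv ℝ (PG g a) y) u v) := rfl

theorem PΓ_spec {a : M} {y : (EuclideanSpace ℝ (Fin n))} (hy : y ∈ (chartAt (EuclideanSpace ℝ (Fin n)) a).target) (u v w : (EuclideanSpace ℝ (Fin n))) :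
    PG g a y (PΓ g a y u v) w = 1 / 2 * (fderiv ℝ (PG g a) y u v w + fderiv ℝ (PG g a) y v u w -
      fderiv ℝ (PG g a) y w u v) := by
  obtain ⟨e, he⟩ := PG_equiv g hy
  rw [PΓ_apply, ← he, ContinuousLinearMap.inverse_equiv]
  have : ∀ l : (EuclideanSpace ℝ (Fin n)) →L[ℝ] ℝ, (e : (EuclideanSpace ℝ (Fin n)) →L[ℝ] ((EuclideanSpace ℝ (Fin n)) →L[ℝ] ℝ)) ((e.symm : ((EuclideanSpace ℝ (Fin n)) →L[ℝ] ℝ) →L[ℝ] (EuclideanSpace ℝ (Fin n))) l) = l :=
    fun l => e.apply_symm_apply l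
  rw [this]
  simp only [ContinuousLinearMap.smul_apply, kos_apply, smul_eq_mul]

theorem PG_diffAt {a : M} {y : (EuclideanSpace ℝ (Fin n))} (hy : y ∈ (chartAt (EuclideanSpace ℝ (Fin n)) a).target) :
    DifferentiableAt ℝ (PG g a) y :=
  ((PG_smooth g a).contDiffAt ((chartAt (EuclideanSpace ℝ (Fin n)) a).open_target.mem_nhds hy)).differentiableAt
    (by norm_num)

theorem dPG_apply {a : M} {y : (EuclideanSpace ℝ (Fin n))} (hy : y ∈ (chartAt (EuclideanSpace ℝ (Fin n)) a).target) (u v w : (EuclideanSpace ℝ (Fin n))) :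
    dirD (fun z => coordForm g.val a z v w) y u = fderiv ℝ (PG g a) y u v w := by
  have h := (PG_diffAt g hy).hasFDerivAt
  have h1 := (h.clm_apply (hasFDerivAt_const v y)).clm_apply (hasFDerivAt_const w y)
  have h2 : fderiv ℝ (fun z => PG g a z v w) y = _ := h1.fderiv
  show fderiv ℝ (fun z => PG g a z v w) y u = _
  rw [h2]
  simp

theorem dPG_symm {a : M} {y : (EuclideanSpace ℝ (Fin n))} (hy : y ∈ (chartAt (EuclideanSpace ℝ (Fin n)) a).target) (u v w : (EuclideanSpace ℝ (Fin n))) :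
    fderiv ℝ (PG g a) y u v w = fderiv ℝ (PG g a) y u w v := by
  rw [← dPG_apply g hy, ← dPG_apply g hy]
  congr 2
  funext z
  exact coordForm_symm g a z v w

theorem chr_eq {a : M} {y : (EuclideanSpace ℝ (Fin n))} (hy : y ∈ (chartAt (EuclideanSpace ℝ (Fin n)) a).target) (u v : (EuclideanSpace ℝ (Fin n))) :
    chr (coordForm g.val a) y u v = PΓ g a y u v := by
  have hex : ∃ b : (EuclideanSpace ℝ (Fin n)), ∀ w, coordForm g.val a y b w = (1 / 2) *
      (dirD (fun z => coordForm g.val a z v w) y u +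
      dirD (fun z => coordForm g.val a z u w) y v - dirD (fun z => coordForm g.val a z u v) y w) := by
    refine ⟨PΓ g a y u v, fun w => ?_⟩
    rw [dPG_apply g hy, dPG_apply g hy, dPG_apply g hy, ← PG_apply, PΓ_spec g hy]
  have h1 := Classical.epsilon_spec hex
  rw [← sub_eq_zero]
  refine PG_nondeg g hy _ fun w => ?_
  have h2 : PG g a y (chr (coordForm g.val a) y u v) w = _ := h1 w
  rw [map_sub, ContinuousLinearMap.sub_apply, h2, PΓ_spec g hy, dPG_apply g hy, dPG_apply g hy,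
    dPG_apply g hy, sub_self]

theorem PΓ_smooth (a : M) : ContDiffOn ℝ ∞ (PΓ g a) (chartAt (EuclideanSpace ℝ (Fin n)) a).target := by
  have hap : ∀ u v w : (EuclideanSpace ℝ (Fin n)), ContDiffOn ℝ ∞ (fun y => fderiv ℝ (PG g a) y u v w)
      (chartAt (EuclideanSpace ℝ (Fin n)) a).target := by
    intro u v w
    have h1 : ContDiffOn ℝ ∞ (fderiv ℝ (fun z => coordForm g.val a z v w)) (chartAt (EuclideanSpace ℝ (Fin n)) a).target :=
      (g.smooth a v w).fderiv_of_isOpen (chartAt (EuclideanSpace ℝ (Fin n)) a).open_target (by norm_num)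
    exact (h1.clm_apply contDiffOn_const).congr fun y hy => (dPG_apply g hy u v w).symm
  refine contDiffOn_clm_apply.2 fun u => contDiffOn_clm_apply.2 fun v => ?_
  have hk : ContDiffOn ℝ ∞ (fun y => (1 / 2 : ℝ) • kos (fderiv ℝ (PG g a) y) u v)
      (chartAt (EuclideanSpace ℝ (Fin n)) a).target := by
    refine contDiffOn_clm_apply.2 fun w => ?_
    simp only [ContinuousLinearMap.smul_apply, kos_apply, smul_eq_mul]
    exact contDiffOn_const.mul (((hap u v w).add (hap v u w)).sub (hap w u v))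
  have hi : ContDiffOn ℝ ∞ (fun y => (PG g a y).inverse) (chartAt (EuclideanSpace ℝ (Fin n)) a).target := by
    intro y hy
    obtain ⟨e, he⟩ := PG_equiv g hy
    have h1 : ContDiffAt ℝ ∞ (ContinuousLinearMap.inverse : ((EuclideanSpace ℝ (Fin n)) →L[ℝ] ((EuclideanSpace ℝ (Fin n)) →L[ℝ] ℝ)) → _)
        (PG g a y) := by
      rw [← he]; exact contDiffAt_map_inverse e
    exact h1.comp_contDiffWithinAt y (PG_smooth g a y hy)
  exact hi.clm_apply hk

theorem PΓ_symm {a : M} {y : (EuclideanSpace ℝ (Fin n))} (u v : (EuclideanSpace ℝ (Fin n))) (hy : y ∈ (chartAt (EuclideanSpace ℝ (Fin n)) a).target) :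
    PΓ g a y u v = PΓ g a y v u := by
  rw [PΓ_apply, PΓ_apply]
  congr 2
  ext w
  rw [kos_apply, kos_apply, dPG_symm g hy w u v]
  ring

theorem PG_change {a b p : M} (ha : p ∈ (chartAt (EuclideanSpace ℝ (Fin n)) a).source) (hb : p ∈ (chartAt (EuclideanSpace ℝ (Fin n)) b).source)
    (u v : (EuclideanSpace ℝ (Fin n))) : PG g a (chartAt (EuclideanSpace ℝ (Fin n)) a p) u v =
      PG g b (chartAt (EuclideanSpace ℝ (Fin n)) b p) (Jc a b (chartAt (EuclideanSpace ℝ (Fin n)) a p) u) (Jc a b (chartAt (EuclideanSpace ℝ (Fin n)) a p) v) := by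
  rw [PG_apply, PG_apply, coordForm_eq, coordForm_eq, (chartAt (EuclideanSpace ℝ (Fin n)) a).left_inv ha,
    (chartAt (EuclideanSpace ℝ (Fin n)) b).left_inv hb]
  have h := Jc_comp (E := (EuclideanSpace ℝ (Fin n))) ha hb (mem_chart_source (EuclideanSpace ℝ (Fin n)) p)
  have h1 : ∀ x, Jc b p (chartAt (EuclideanSpace ℝ (Fin n)) b p) (Jc a b (chartAt (EuclideanSpace ℝ (Fin n)) a p) x) = Jc a p (chartAt (EuclideanSpace ℝ (Fin n)) a p) x :=
    fun x => congrArg (fun L : (EuclideanSpace ℝ (Fin n)) →L[ℝ] (EuclideanSpace ℝ (Fin n)) => L x) h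
  rw [h1, h1]

theorem dPG_change {a b p : M} (ha : p ∈ (chartAt (EuclideanSpace ℝ (Fin n)) a).source) (hb : p ∈ (chartAt (EuclideanSpace ℝ (Fin n)) b).source)
    (u v w : (EuclideanSpace ℝ (Fin n))) : fderiv ℝ (PG g a) (chartAt (EuclideanSpace ℝ (Fin n)) a p) u v w =
      fderiv ℝ (PG g b) (chartAt (EuclideanSpace ℝ (Fin n)) b p) (Jc a b (chartAt (EuclideanSpace ℝ (Fin n)) a p) u) (Jc a b (chartAt (EuclideanSpace ℝ (Fin n)) a p) v)
        (Jc a b (chartAt (EuclideanSpace ℝ (Fin n)) a p) w) +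
      PG g b (chartAt (EuclideanSpace ℝ (Fin n)) b p) (fderiv ℝ (Jc a b) (chartAt (EuclideanSpace ℝ (Fin n)) a p) u v) (Jc a b (chartAt (EuclideanSpace ℝ (Fin n)) a p) w) +
      PG g b (chartAt (EuclideanSpace ℝ (Fin n)) b p) (Jc a b (chartAt (EuclideanSpace ℝ (Fin n)) a p) v) (fderiv ℝ (Jc a b) (chartAt (EuclideanSpace ℝ (Fin n)) a p) u w) := by
  set y := chartAt (EuclideanSpace ℝ (Fin n)) a p with hy
  have hya : y ∈ (chartAt (EuclideanSpace ℝ (Fin n)) a).target := (chartAt (EuclideanSpace ℝ (Fin n)) a).map_source ha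
  have hyb : chartAt (EuclideanSpace ℝ (Fin n)) b p ∈ (chartAt (EuclideanSpace ℝ (Fin n)) b).target := (chartAt (EuclideanSpace ℝ (Fin n)) b).map_source hb
  have htr : ContDiffAt ℝ ∞ (tr a b) y := tr_contDiffAt ha hb
  have htd : DifferentiableAt ℝ (tr a b) y := htr.differentiableAt (by norm_num)
  have hJ : DifferentiableAt ℝ (Jc a b) y :=
    ((htr.fderiv_right (m := ∞) (by norm_num)).differentiableAt (by norm_num))
  have hX : HasDerivAt (fun σ : ℝ => y + σ • u) u 0 := by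
    simpa using ((hasDerivAt_id (0:ℝ)).smul_const u).const_add y
  have hy0 : y + (0:ℝ) • u = y := by simp
  have h1 := comp_fd (l := PG g a) (x := fun σ : ℝ => y + σ • u) (by rw [hy0]; exact PG_diffAt g hya) hX
  have h2 := (h1.clm_apply (hasDerivAt_const (0:ℝ) v)).clm_apply (hasDerivAt_const (0:ℝ) w)
  have h3 := comp_fd (l := tr a b) (x := fun σ : ℝ => y + σ • u) (by rw [hy0]; exact htd) hX
  have h4 := comp_fd (l := Jc a b) (x := fun σ : ℝ => y + σ • u) (by rw [hy0]; exact hJ) hX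
  have htt : tr a b y = chartAt (EuclideanSpace ℝ (Fin n)) b p := tr_apply ha
  have h5 := comp_fd (l := PG g b) (x := fun σ : ℝ => tr a b (y + σ • u))
    (by rw [hy0, htt]; exact PG_diffAt g hyb) h3
  have h6 := (h5.clm_apply (h4.clm_apply (hasDerivAt_const (0:ℝ) v))).clm_apply
    (h4.clm_apply (hasDerivAt_const (0:ℝ) w))
  have hev : (fun σ : ℝ => PG g a (y + σ • u) v w) =ᶠ[𝓝 0] fun σ : ℝ =>
      PG g b (tr a b (y + σ • u)) (Jc a b (y + σ • u) v) (Jc a b (y + σ • u) w) := by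
    have hc : Tendsto (fun σ : ℝ => y + σ • u) (𝓝 0) (𝓝 y) := by
      have := hX.continuousAt.tendsto
      rwa [hy0] at this
    filter_upwards [hc.eventually (eventually_chart ha ((chartAt (EuclideanSpace ℝ (Fin n)) b).open_source.mem_nhds hb))]
      with σ hσ
    have h7 := PG_change g (a := a) (b := b) ((chartAt (EuclideanSpace ℝ (Fin n)) a).map_target hσ.1) hσ.2 v w
    rw [(chartAt (EuclideanSpace ℝ (Fin n)) a).right_inv hσ.1] at h7
    exact h7
  have h8 := (h6.congr_of_eventuallyEq hev).unique h2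
  simp only [map_zero, add_zero, hy0, htt] at h8
  rw [← h8]
  have hJJ : fderiv ℝ (tr a b) y = Jc a b y := rfl
  rw [hJJ]
  simp only [ContinuousLinearMap.add_apply]

theorem snd_symm {a b p : M} (ha : p ∈ (chartAt (EuclideanSpace ℝ (Fin n)) a).source) (hb : p ∈ (chartAt (EuclideanSpace ℝ (Fin n)) b).source)
    (u v : (EuclideanSpace ℝ (Fin n))) : fderiv ℝ (Jc a b) (chartAt (EuclideanSpace ℝ (Fin n)) a p) u v = fderiv ℝ (Jc a b) (chartAt (EuclideanSpace ℝ (Fin n)) a p) v u :=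
  (tr_contDiffAt ha hb).isSymmSndFDerivAt (by simp; norm_cast) u v

theorem PΓ_law (a b p : M) (ha : p ∈ (chartAt (EuclideanSpace ℝ (Fin n)) a).source) (hb : p ∈ (chartAt (EuclideanSpace ℝ (Fin n)) b).source)
    (u v : (EuclideanSpace ℝ (Fin n))) : Jc a b (chartAt (EuclideanSpace ℝ (Fin n)) a p) (PΓ g a (chartAt (EuclideanSpace ℝ (Fin n)) a p) u v) =
      PΓ g b (chartAt (EuclideanSpace ℝ (Fin n)) b p) (Jc a b (chartAt (EuclideanSpace ℝ (Fin n)) a p) u) (Jc a b (chartAt (EuclideanSpace ℝ (Fin n)) a p) v) +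
        fderiv ℝ (Jc a b) (chartAt (EuclideanSpace ℝ (Fin n)) a p) u v := by
  have hya : chartAt (EuclideanSpace ℝ (Fin n)) a p ∈ (chartAt (EuclideanSpace ℝ (Fin n)) a).target := (chartAt (EuclideanSpace ℝ (Fin n)) a).map_source ha
  have hyb : chartAt (EuclideanSpace ℝ (Fin n)) b p ∈ (chartAt (EuclideanSpace ℝ (Fin n)) b).target := (chartAt (EuclideanSpace ℝ (Fin n)) b).map_source hb
  rw [← sub_eq_zero]
  refine PG_nondeg g hyb _ fun w' => ?_
  have hinv := Jc_inv (E := (EuclideanSpace ℝ (Fin n))) hb ha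
  set w := Jc b a (chartAt (EuclideanSpace ℝ (Fin n)) b p) w' with hw
  have hw' : w' = Jc a b (chartAt (EuclideanSpace ℝ (Fin n)) a p) w :=
    (congrArg (fun L : (EuclideanSpace ℝ (Fin n)) →L[ℝ] (EuclideanSpace ℝ (Fin n)) => L w') hinv).symm
  rw [hw']
  simp only [map_sub, map_add, ContinuousLinearMap.sub_apply, ContinuousLinearMap.add_apply]
  rw [← PG_change g ha hb, PΓ_spec g hya, PΓ_spec g hyb, dPG_change g ha hb, dPG_change g ha hb,
    dPG_change g ha hb]
  rw [snd_symm ha hb v u, snd_symm ha hb w u, snd_symm ha hb w v,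
    PG_symm g b (chartAt (EuclideanSpace ℝ (Fin n)) b p) (Jc a b (chartAt (EuclideanSpace ℝ (Fin n)) a p) v) (fderiv ℝ (Jc a b) (chartAt (EuclideanSpace ℝ (Fin n)) a p) u w),
    PG_symm g b (chartAt (EuclideanSpace ℝ (Fin n)) b p) (Jc a b (chartAt (EuclideanSpace ℝ (Fin n)) a p) u) (fderiv ℝ (Jc a b) (chartAt (EuclideanSpace ℝ (Fin n)) a p) v w)]
  ring

/-- the internal structure of a pseudo-Riemannian manifold -/
noncomputable def toLC : LC (EuclideanSpace ℝ (Fin n)) M where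
  g p := PG g p (chartAt (EuclideanSpace ℝ (Fin n)) p p)
  Γ := PΓ g
  nondeg p v h := PG_nondeg g (mem_chart_target (EuclideanSpace ℝ (Fin n)) p) v h
  smooth := PΓ_smooth g
  symm a y hy u v := PΓ_symm g u v hy
  G := PG g
  hG a b p ha hb u v := PG_change g ha hb u v
  hg p u v := rfl
  dG a y hy := PG_diffAt g hy
  compat a y hy u v w := by
    rw [PΓ_spec g hy, PG_symm g a y v, PΓ_spec g hy, dPG_symm g hy u w v]
    ring
  law := PΓ_law g

theorem toLC_g (p : M) (u v : (EuclideanSpace ℝ (Fin n))) : (toLC g).g p u v = g.val p u v := by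
  show PG g p (chartAt (EuclideanSpace ℝ (Fin n)) p p) u v = g.val p u v
  rw [PG_apply, coordForm_eq, (chartAt (EuclideanSpace ℝ (Fin n)) p).left_inv (mem_chart_source (EuclideanSpace ℝ (Fin n)) p),
    Jc_self (mem_chart_source (EuclideanSpace ℝ (Fin n)) p)]
  rfl

theorem riem_eq {a : M} {y : (EuclideanSpace ℝ (Fin n))} (hy : y ∈ (chartAt (EuclideanSpace ℝ (Fin n)) a).target) (u v w : (EuclideanSpace ℝ (Fin n))) :
    riem (coordForm g.val a) y u v w = curv (PΓ g a) y u v w := by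
  have hd : ∀ u v w : (EuclideanSpace ℝ (Fin n)), fderiv ℝ (fun z => chr (coordForm g.val a) z v w) y u =
      fderiv ℝ (PΓ g a) y u v w := by
    intro u v w
    have hev : (fun z => chr (coordForm g.val a) z v w) =ᶠ[𝓝 y] fun z => PΓ g a z v w := by
      filter_upwards [(chartAt (EuclideanSpace ℝ (Fin n)) a).open_target.mem_nhds hy] with z hz
      exact chr_eq g hz v w
    rw [hev.fderiv_eq]
    have h := (((PΓ_smooth g a).contDiffAt ((chartAt (EuclideanSpace ℝ (Fin n)) a).open_target.mem_nhds hy)).differentiableAt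
      (by norm_num)).hasFDerivAt
    have h1 := (h.clm_apply (hasFDerivAt_const v y)).clm_apply (hasFDerivAt_const w y)
    rw [h1.fderiv]
    simp
  simp only [riem, curv, hd, chr_eq g hy]

end Pool.Agent.H660R4
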