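import Mathlib
set_option autoImplicit false
set_option linter.unusedSectionVars false
set_option linter.deprecated false
open Set Filter Topology Metric
open scoped ContDiff NNReal Manifold

namespace Pool.Agent.H660R4

theorem hd_fst {A B : Type*} [NormedAddCommGroup A] [NormedSpace ℝ A] [NormedAddCommGroup B]
    [NormedSpace ℝ B] {f : ℝ → A × B} {f' : A × B} {t : ℝ} (h : HasDerivAt f f' t) :
    HasDerivAt (fun s => (f s).1) f'.1 t := h.fst

theorem hd_snd {A B : Type*} [NormedAddCommGroup A] [NormedSpace ℝ A] [NormedAddCommGroup B]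
    [NormedSpace ℝ B] {f : ℝ → A × B} {f' : A × B} {t : ℝ} (h : HasDerivAt f f' t) :
    HasDerivAt (fun s => (f s).2) f'.2 t := h.snd

theorem comp_fd {A B : Type*} [NormedAddCommGroup A] [NormedSpace ℝ A] [NormedAddCommGroup B]
    [NormedSpace ℝ B] {l : A → B} {x : ℝ → A} {x' : A} {t : ℝ} (h : DifferentiableAt ℝ l (x t))
    (hx : HasDerivAt x x' t) : HasDerivAt (fun s => l (x s)) (fderiv ℝ l (x t) x') t :=
  HasFDerivAt.comp_hasDerivAt t h.hasFDerivAt hx

section Chart
variable {E : Type*} [NormedAddCommGroup E] [NormedSpace ℝ E]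
  {M : Type*} [TopologicalSpace M] [ChartedSpace E M]

/-- transition map from the chart at `a` to the chart at `b` -/
noncomputable def tr (a b : M) (y : E) : E := chartAt E b ((chartAt E a).symm y)

/-- its derivative -/
noncomputable def Jc (a b : M) (y : E) : E →L[ℝ] E := fderiv ℝ (fun z => chartAt E b ((chartAt E a).symm z)) y

theorem tr_contDiffAt [IsManifold 𝓘(ℝ, E) ∞ M] {a b p : M} (ha : p ∈ (chartAt E a).source)
    (hb : p ∈ (chartAt E b).source) : ContDiffAt ℝ ∞ (tr a b) (chartAt E a p) := by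
  have h := contDiffOn_ext_coord_change (I := 𝓘(ℝ, E)) (n := ∞) b a
  rw [ext_coord_change_source] at h
  simp only [mfld_simps] at h
  have ho : IsOpen ((chartAt E a).target ∩ (chartAt E a).symm ⁻¹' (chartAt E b).source) :=
    (chartAt E a).isOpen_inter_preimage_symm (chartAt E b).open_source
  have hm : chartAt E a p ∈ (chartAt E a).target ∩ (chartAt E a).symm ⁻¹' (chartAt E b).source :=
    ⟨(chartAt E a).map_source ha, by simpa [(chartAt E a).left_inv ha] using hb⟩
  rw [image_id'] at h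
  exact (h.contDiffAt (ho.mem_nhds hm))

theorem tr_apply {a b p : M} (ha : p ∈ (chartAt E a).source) :
    tr a b (chartAt E a p) = chartAt E b p := by
  simp [tr, (chartAt E a).left_inv ha]

/-- near the coordinates of `p`, points are coordinates of points near `p`. -/
theorem eventually_chart {a p : M} (ha : p ∈ (chartAt E a).source) {Q : M → Prop}
    (hQ : ∀ᶠ q in 𝓝 p, Q q) :
    ∀ᶠ y in 𝓝 (chartAt E a p), y ∈ (chartAt E a).target ∧ Q ((chartAt E a).symm y) := by
  have h1 : ∀ᶠ y in 𝓝 (chartAt E a p), y ∈ (chartAt E a).target :=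
    (chartAt E a).open_target.mem_nhds ((chartAt E a).map_source ha)
  have h2 := ((chartAt E a).continuousAt_symm ((chartAt E a).map_source ha)).tendsto
  rw [(chartAt E a).left_inv ha] at h2
  exact h1.and (h2.eventually hQ)

theorem tr_comp_eventually {a b c p : M} (ha : p ∈ (chartAt E a).source)
    (hb : p ∈ (chartAt E b).source) :
    (fun y => tr b c (tr a b y)) =ᶠ[𝓝 (chartAt E a p)] tr a c := by
  filter_upwards [eventually_chart ha ((chartAt E b).open_source.mem_nhds hb)] with y hy
  simp only [tr]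
  rw [(chartAt E b).left_inv hy.2]

theorem Jc_eq (a b : M) (y : E) : Jc a b y = fderiv ℝ (tr a b) y := rfl

theorem Jc_comp [IsManifold 𝓘(ℝ, E) ∞ M] {a b c p : M} (ha : p ∈ (chartAt E a).source)
    (hb : p ∈ (chartAt E b).source) (hc : p ∈ (chartAt E c).source) :
    (Jc b c (chartAt E b p)).comp (Jc a b (chartAt E a p)) = Jc a c (chartAt E a p) := by
  rw [Jc_eq, Jc_eq, Jc_eq, ← (tr_comp_eventually (c := c) ha hb).fderiv_eq]
  have h1 : DifferentiableAt ℝ (tr a b) (chartAt E a p) :=
    (tr_contDiffAt ha hb).differentiableAt (by norm_num)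
  have h2 : DifferentiableAt ℝ (tr b c) (tr a b (chartAt E a p)) := by
    rw [tr_apply ha]; exact (tr_contDiffAt hb hc).differentiableAt (by norm_num)
  rw [fderiv_fun_comp (chartAt E a p) h2 h1, tr_apply ha]

theorem Jc_self {a p : M} (ha : p ∈ (chartAt E a).source) :
    Jc a a (chartAt E a p) = ContinuousLinearMap.id ℝ E := by
  have h : tr a a =ᶠ[𝓝 (chartAt E a p)] id := by
    filter_upwards [(chartAt E a).open_target.mem_nhds ((chartAt E a).map_source ha)] with y hy
    simp [tr, (chartAt E a).right_inv hy]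
  rw [Jc_eq, h.fderiv_eq, fderiv_id]

theorem Jc_inv [IsManifold 𝓘(ℝ, E) ∞ M] {a b p : M} (ha : p ∈ (chartAt E a).source)
    (hb : p ∈ (chartAt E b).source) :
    (Jc b a (chartAt E b p)).comp (Jc a b (chartAt E a p)) = ContinuousLinearMap.id ℝ E := by
  rw [Jc_comp ha hb ha, Jc_self ha]

end Chart

/-! ### connections -/

section Conn
variable (E : Type*) [NormedAddCommGroup E] [NormedSpace ℝ E]
  (M : Type*) [TopologicalSpace M] [ChartedSpace E M]

/-- A metric with its Levi-Civita connection, in all charts. -/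
structure LC where
  g : M → E →L[ℝ] E →L[ℝ] ℝ
  Γ : M → E → E →L[ℝ] E →L[ℝ] E
  nondeg : ∀ p v, (∀ w, g p v w = 0) → v = 0
  smooth : ∀ a, ContDiffOn ℝ ∞ (Γ a) (chartAt E a).target
  symm : ∀ a, ∀ y ∈ (chartAt E a).target, ∀ u v, Γ a y u v = Γ a y v u
  /-- the metric in the chart -/
  G : M → E → E →L[ℝ] E →L[ℝ] ℝ
  hG : ∀ a b : M, ∀ p : M, p ∈ (chartAt E a).source → p ∈ (chartAt E b).source → ∀ u v,
    G a (chartAt E a p) u v =
      G b (chartAt E b p) (Jc a b (chartAt E a p) u) (Jc a b (chartAt E a p) v)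
  hg : ∀ p u v, g p u v = G p (chartAt E p p) u v
  dG : ∀ a, ∀ y ∈ (chartAt E a).target, DifferentiableAt ℝ (G a) y
  compat : ∀ a, ∀ y ∈ (chartAt E a).target, ∀ u v w,
    fderiv ℝ (G a) y u v w = G a y (Γ a y u v) w + G a y v (Γ a y u w)
  law : ∀ a b p : M, p ∈ (chartAt E a).source → p ∈ (chartAt E b).source → ∀ u v,
    Jc a b (chartAt E a p) (Γ a (chartAt E a p) u v) =
      Γ b (chartAt E b p) (Jc a b (chartAt E a p) u) (Jc a b (chartAt E a p) v) +
        fderiv ℝ (Jc a b) (chartAt E a p) u v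

end Conn

section Curves
variable {E : Type*} [NormedAddCommGroup E] [NormedSpace ℝ E]
  {M : Type*} [TopologicalSpace M] [ChartedSpace E M]
  {W : Type*} [NormedAddCommGroup W] [NormedSpace ℝ W]

/-- coordinates of a framed point -/
noncomputable def co (a : M) (p : M × (W →L[ℝ] E)) : E × (W →L[ℝ] E) :=
  (chartAt E a p.1, (Jc p.1 a (chartAt E p.1 p.1)).comp p.2)

/-- the framed point with given coordinates -/
noncomputable def li (a : M) (z : E × (W →L[ℝ] E)) : M × (W →L[ℝ] E) :=
  ((chartAt E a).symm z.1, (Jc a ((chartAt E a).symm z.1) z.1).comp z.2)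

theorem co_li [IsManifold 𝓘(ℝ, E) ∞ M] {a : M} {z : E × (W →L[ℝ] E)}
    (hz : z.1 ∈ (chartAt E a).target) : co a (li a z) = z := by
  obtain ⟨y, F⟩ := z
  simp only at hz
  simp only [co, li]
  set p := (chartAt E a).symm y with hp
  have hpa : p ∈ (chartAt E a).source := (chartAt E a).map_target hz
  have hy : chartAt E a p = y := (chartAt E a).right_inv hz
  refine Prod.ext hy ?_
  simp only
  rw [← ContinuousLinearMap.comp_assoc]
  have := Jc_inv hpa (mem_chart_source E p)
  rw [hy] at this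
  rw [this]; rfl

theorem li_co [IsManifold 𝓘(ℝ, E) ∞ M] {a : M} {p : M × (W →L[ℝ] E)}
    (hp : p.1 ∈ (chartAt E a).source) : li a (co a p) = p := by
  obtain ⟨x, F⟩ := p
  simp only at hp
  simp only [co, li]
  have h1 := (chartAt E a).left_inv hp
  refine Prod.ext h1 ?_
  simp only [h1]
  rw [← ContinuousLinearMap.comp_assoc, Jc_inv (mem_chart_source E x) hp]; rfl

theorem li_fst_mem {a : M} {z : E × (W →L[ℝ] E)} (hz : z.1 ∈ (chartAt E a).target) :
    (li a z).1 ∈ (chartAt E a).source := (chartAt E a).map_target hz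

theorem co_change [IsManifold 𝓘(ℝ, E) ∞ M] {a b : M} {p : M × (W →L[ℝ] E)}
    (ha : p.1 ∈ (chartAt E a).source) (hb : p.1 ∈ (chartAt E b).source) :
    co b p = (tr a b (co a p).1, (Jc a b (co a p).1).comp (co a p).2) := by
  simp only [co]
  rw [tr_apply ha, ← ContinuousLinearMap.comp_assoc, Jc_comp (mem_chart_source E p.1) ha hb]

/-- velocity vector, in the chart with Christoffel symbols `Γ` -/
noncomputable def vel (Γ : E →L[ℝ] E →L[ℝ] E) (F : W →L[ℝ] E) (α : W) (β : W →L[ℝ] W) :
    E × (W →L[ℝ] E) :=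
  (F α, F.comp β - (Γ (F α)).comp F)

variable (c : LC E M)

/-- The framed curve `U` has at time `t` the velocity with components `(α, β)` in the parallelisation of
the frame bundle given by the solder form and the connection form. -/
def HasVel (U : ℝ → M × (W →L[ℝ] E)) (α : W) (β : W →L[ℝ] W) (t : ℝ) : Prop :=
  ContinuousAt (fun s => (U s).1) t ∧
    HasDerivAt (fun s => co (U t).1 (U s))
      (vel (c.Γ (U t).1 (co (U t).1 (U t)).1) (co (U t).1 (U t)).2 α β) t

theorem hasDerivAt_co_change [IsManifold 𝓘(ℝ, E) ∞ M] {U : ℝ → M × (W →L[ℝ] E)} {α : W}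
    {β : W →L[ℝ] W} {t : ℝ} {a b : M}
    (hU : ContinuousAt (fun s => (U s).1) t) (ha : (U t).1 ∈ (chartAt E a).source)
    (hb : (U t).1 ∈ (chartAt E b).source)
    (h : HasDerivAt (fun s => co a (U s)) (vel (c.Γ a (co a (U t)).1) (co a (U t)).2 α β) t) :
    HasDerivAt (fun s => co b (U s)) (vel (c.Γ b (co b (U t)).1) (co b (U t)).2 α β) t := by
  have hev : (fun s => co b (U s)) =ᶠ[𝓝 t]
      fun s => (tr a b (co a (U s)).1, (Jc a b (co a (U s)).1).comp (co a (U s)).2) := by
    filter_upwards [hU.eventually_mem ((chartAt E a).open_source.mem_nhds ha),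
      hU.eventually_mem ((chartAt E b).open_source.mem_nhds hb)] with s h1 h2
    exact co_change h1 h2
  have hcb : co b (U t) = _ := co_change ha hb
  refine HasDerivAt.congr_of_eventuallyEq ?_ hev
  set y := (co a (U t)).1 with hy
  set F := (co a (U t)).2 with hF
  have hya : y = chartAt E a (U t).1 := rfl
  have htr : ContDiffAt ℝ ∞ (tr a b) y := tr_contDiffAt ha hb
  have h1 : HasDerivAt (fun s => (co a (U s)).1) (F α) t := h.fst
  have h2 : HasDerivAt (fun s => (co a (U s)).2) (F.comp β - (c.Γ a y (F α)).comp F) t := h.snd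
  have h30 : HasFDerivAt (tr a b) (Jc a b y) y := (htr.differentiableAt (by norm_num)).hasFDerivAt
  have h3 : HasDerivAt (fun s => tr a b (co a (U s)).1) (Jc a b y (F α)) t :=
    HasFDerivAt.comp_hasDerivAt (l := tr a b) (l' := Jc a b y) t h30 h1
  have hJ : DifferentiableAt ℝ (Jc a b) y :=
    ((htr.fderiv_right (m := ∞) (by norm_num)).differentiableAt (by norm_num))
  have h4 : HasDerivAt (fun s => Jc a b (co a (U s)).1) (fderiv ℝ (Jc a b) y (F α)) t :=
    hJ.hasFDerivAt.comp_hasDerivAt t h1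
  have h5 := h4.clm_comp h2
  refine (h3.prodMk h5).congr_deriv ?_
  rw [hcb]
  simp only [vel]
  have hlaw := c.law a b (U t).1 ha hb
  rw [← hya] at hlaw
  have htt : tr a b y = chartAt E b (U t).1 := tr_apply ha
  refine Prod.ext ?_ ?_
  · simp
  · simp only
    ext w
    simp only [ContinuousLinearMap.add_apply, ContinuousLinearMap.comp_apply,
      ContinuousLinearMap.sub_apply, map_sub]
    rw [htt, ← hF, hlaw]
    abel

theorem HasVel.hasCo {U : ℝ → M × (W →L[ℝ] E)} {α : W}
    [IsManifold 𝓘(ℝ, E) ∞ M] {β : W →L[ℝ] W} {t : ℝ} {b : M} (h : HasVel c U α β t)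
    (hb : (U t).1 ∈ (chartAt E b).source) :
    HasDerivAt (fun s => co b (U s)) (vel (c.Γ b (co b (U t)).1) (co b (U t)).2 α β) t :=
  hasDerivAt_co_change c h.1 (mem_chart_source E _) hb h.2

theorem hasVel_of {U : ℝ → M × (W →L[ℝ] E)} {α : W}
    [IsManifold 𝓘(ℝ, E) ∞ M] {β : W →L[ℝ] W} {t : ℝ} {a : M}
    (hU : ContinuousAt (fun s => (U s).1) t) (ha : (U t).1 ∈ (chartAt E a).source)
    (h : HasDerivAt (fun s => co a (U s))
      (vel (c.Γ a (co a (U t)).1) (co a (U t)).2 α β) t) :
    HasVel c U α β t :=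
  ⟨hU, hasDerivAt_co_change c hU ha (mem_chart_source E _) h⟩

end Curves

end Pool.Agent.H660R4
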