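import Pool.Agent.H660R4.Ode
import Pool.Agent.H660R4.Chart
set_option autoImplicit false
set_option linter.unusedSectionVars false
set_option linter.deprecated false
open Set Filter Topology Metric
open scoped ContDiff NNReal Manifold

namespace Pool.Agent.H660R4

variable {E : Type*} [NormedAddCommGroup E] [NormedSpace ℝ E] [FiniteDimensional ℝ E]
  {M : Type*} [TopologicalSpace M] [ChartedSpace E M] [IsManifold 𝓘(ℝ, E) ∞ M]
  {W : Type*} [NormedAddCommGroup W] [NormedSpace ℝ W] [FiniteDimensional ℝ W]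
  {W' : Type*} [NormedAddCommGroup W'] [NormedSpace ℝ W'] [FiniteDimensional ℝ W']
  (c : LC E M)

theorem HasVel.congr {U V : ℝ → M × (W →L[ℝ] E)} {α : W} {β : W →L[ℝ] W} {t : ℝ}
    (h : HasVel c U α β t) (he : U =ᶠ[𝓝 t] V) : HasVel c V α β t := by
  have h0 : U t = V t := he.self_of_nhds
  refine ⟨h.1.congr (he.mono fun s hs => by simp only [hs]), ?_⟩
  rw [← h0]
  exact h.2.congr_of_eventuallyEq (he.mono fun s hs => by simp only [hs])

theorem HasVel.reparam {U : ℝ → M × (W →L[ℝ] E)} {α : W} {β : W →L[ℝ] W} {t k : ℝ} {g : ℝ → ℝ}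
    (hg : HasDerivAt g k t) (h : HasVel c U α β (g t)) :
    HasVel c (fun s => U (g s)) (k • α) (k • β) t := by
  refine ⟨h.1.comp_of_eq hg.continuousAt rfl, ?_⟩
  have := HasDerivAt.scomp t h.2 hg
  refine this.congr_deriv ?_
  simp only [vel, map_smul]
  refine Prod.ext rfl ?_
  ext w
  simp [smul_sub]

theorem HasVel.right {U : ℝ → M × (W →L[ℝ] E)} {α : W} {β : W →L[ℝ] W} {t : ℝ}
    (h : HasVel c U α β t) {j : ℝ → W' →L[ℝ] W} {j' : W' →L[ℝ] W} (hj : HasDerivAt j j' t)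
    {α' : W'} {β' : W' →L[ℝ] W'} (hα : α = j t α') (hβ : β.comp (j t) + j' = (j t).comp β') :
    HasVel c (fun s => ((U s).1, (U s).2.comp (j s))) α' β' t := by
  refine ⟨h.1, ?_⟩
  have h1 := hd_fst h.2
  have h2 := hd_snd h.2
  have h3 := h2.clm_comp hj
  have h4 := h1.prodMk h3
  refine HasDerivAt.congr_deriv (f' := _) h4 ?_
  simp only [vel, co]
  refine Prod.ext ?_ ?_
  · simp [hα]
  · simp only
    ext w
    have hw := congrArg (fun T : W' →L[ℝ] W => T w) hβ
    simp only [ContinuousLinearMap.add_apply, ContinuousLinearMap.comp_apply] at hw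
    simp only [ContinuousLinearMap.add_apply, ContinuousLinearMap.comp_apply,
      ContinuousLinearMap.sub_apply, ← hw, hα, map_add]
    abel

/-- a framed geodesic with direction `y` -/
def FG (y : W) (U : ℝ → M × (W →L[ℝ] E)) (I : Set ℝ) : Prop := ∀ t ∈ I, HasVel c U y 0 t

/-- the geodesic vector field in the chart at `a` -/
noncomputable def vf (a : M) (z : (E × (W →L[ℝ] E)) × W) : (E × (W →L[ℝ] E)) × W :=
  (vel (c.Γ a z.1.1) z.1.2 z.2 0, 0)

theorem vf_contDiffOn (a : M) :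
    ContDiffOn ℝ ∞ (vf (W := W) c a) {z | z.1.1 ∈ (chartAt E a).target} := by
  have h1 : ContDiffOn ℝ ∞ (fun z : (E × (W →L[ℝ] E)) × W => c.Γ a z.1.1)
      {z | z.1.1 ∈ (chartAt E a).target} :=
    (c.smooth a).comp (contDiff_fst.comp contDiff_fst).contDiffOn fun z hz => hz
  have hF : ContDiff ℝ ∞ (fun z : (E × (W →L[ℝ] E)) × W => z.1.2) :=
    contDiff_snd.comp contDiff_fst
  have hy : ContDiff ℝ ∞ (fun z : (E × (W →L[ℝ] E)) × W => z.2) := contDiff_snd
  have hFy : ContDiff ℝ ∞ (fun z : (E × (W →L[ℝ] E)) × W => z.1.2 z.2) := hF.clm_apply hy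
  have h2 := (h1.clm_apply hFy.contDiffOn).clm_comp hF.contDiffOn
  have : ContDiffOn ℝ ∞ (fun z : (E × (W →L[ℝ] E)) × W =>
      ((z.1.2 z.2, - (c.Γ a z.1.1 (z.1.2 z.2)).comp z.1.2), (0 : W)))
      {z | z.1.1 ∈ (chartAt E a).target} :=
    (hFy.contDiffOn.prodMk h2.neg).prodMk contDiffOn_const
  refine this.congr fun z _ => ?_
  simp [vf, vel]

theorem isOpen_dom (a : M) :
    IsOpen {z : (E × (W →L[ℝ] E)) × W | z.1.1 ∈ (chartAt E a).target} :=
  (chartAt E a).open_target.preimage (continuous_fst.comp continuous_fst)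

theorem flowBox_at (a : M) {u : M × (W →L[ℝ] E)} (hu : u.1 ∈ (chartAt E a).source) (y : W) :
    Nonempty (FlowBox (vf c a) (co a u, y)
      {z : (E × (W →L[ℝ] E)) × W | z.1.1 ∈ (chartAt E a).target}) :=
  exists_flowBox (isOpen_dom a) ((chartAt E a).map_source hu)
    ((vf_contDiffOn c a).of_le (by norm_cast))

/-- from a solution in a chart to a framed curve -/
theorem hasVel_li {a : M} {z : ℝ → E × (W →L[ℝ] E)} {α : W} {β : W →L[ℝ] W} {t : ℝ}
    (hz : (z t).1 ∈ (chartAt E a).target)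
    (h : HasDerivAt z (vel (c.Γ a (z t).1) (z t).2 α β) t) :
    HasVel c (fun s => li a (z s)) α β t := by
  have hcont : ContinuousAt (fun s => (z s).1) t := (hd_fst h).continuousAt
  have hev : ∀ᶠ s in 𝓝 t, (z s).1 ∈ (chartAt E a).target :=
    hcont.eventually_mem ((chartAt E a).open_target.mem_nhds hz)
  refine hasVel_of c (a := a) ?_ (li_fst_mem hz) ?_
  · exact ((chartAt E a).continuousAt_symm hz).comp_of_eq hcont rfl
  · rw [co_li hz]
    refine h.congr_of_eventuallyEq ?_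
    filter_upwards [hev] with s hs
    exact co_li hs

theorem HasVel.contCo {U : ℝ → M × (W →L[ℝ] E)} {α : W} {β : W →L[ℝ] W} {t : ℝ} {a : M}
    (h : HasVel c U α β t) (ha : (U t).1 ∈ (chartAt E a).source) :
    ContinuousAt (fun s => co a (U s)) t := (h.hasCo c ha).continuousAt

theorem HasVel.hasVf {U : ℝ → M × (W →L[ℝ] E)} {y : W} {t : ℝ} {a : M}
    (h : HasVel c U y 0 t) (ha : (U t).1 ∈ (chartAt E a).source) :
    HasDerivAt (fun s => (co a (U s), y))
      (vf c a (co a (U t), y)) t :=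
  (h.hasCo c ha).prodMk (hasDerivAt_const t y)

theorem eventually_source {U : ℝ → M × (W →L[ℝ] E)} {t : ℝ} {a : M}
    (h : ContinuousAt (fun s => (U s).1) t) (ha : (U t).1 ∈ (chartAt E a).source) :
    ∀ᶠ s in 𝓝 t, (U s).1 ∈ (chartAt E a).source :=
  h.eventually_mem ((chartAt E a).open_source.mem_nhds ha)

/-- local uniqueness -/
theorem local_unique {y : W} {U V : ℝ → M × (W →L[ℝ] E)} {t₀ : ℝ}
    (hU : ∀ᶠ t in 𝓝 t₀, HasVel c U y 0 t) (hV : ∀ᶠ t in 𝓝 t₀, HasVel c V y 0 t)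
    (h0 : U t₀ = V t₀) : U =ᶠ[𝓝 t₀] V := by
  set a := (U t₀).1 with ha
  have hUs : (U t₀).1 ∈ (chartAt E a).source := mem_chart_source E _
  have hVs : (V t₀).1 ∈ (chartAt E a).source := h0 ▸ hUs
  obtain ⟨B⟩ := flowBox_at c a hUs y
  have eU := eventually_source (hU.self_of_nhds).1 hUs
  have eV := eventually_source (hV.self_of_nhds).1 hVs
  have cU : ContinuousAt (fun s => (co a (U s), y)) t₀ :=
    ((hU.self_of_nhds).hasVf c hUs).continuousAt
  have cV : ContinuousAt (fun s => (co a (V s), y)) t₀ :=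
    ((hV.self_of_nhds).hasVf c hVs).continuousAt
  have bU := cU.eventually_mem (closedBall_mem_nhds _ B.ha)
  have bV := cV.eventually_mem (show closedBall (co a (U t₀), y) B.a ∈ 𝓝 (co a (V t₀), y) by
    rw [← h0]; exact closedBall_mem_nhds _ B.ha)
  have := ODE_solution_unique_of_eventually (v := fun _ => vf c a)
    (s := fun _ => closedBall (co a (U t₀), y) B.a) (K := B.K) (t₀ := t₀)
    (f := fun s => (co a (U s), y)) (g := fun s => (co a (V s), y))
    (Eventually.of_forall fun _ => B.lip)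
    (by filter_upwards [hU, eU, bU] with t h1 h2 h3 using ⟨h1.hasVf c h2, h3⟩)
    (by filter_upwards [hV, eV, bV] with t h1 h2 h3 using ⟨h1.hasVf c h2, h3⟩) (by simp only [h0])
  filter_upwards [this, eU, eV] with t h1 h2 h3
  have h4 : co a (U t) = co a (V t) := congrArg Prod.fst h1
  rw [← li_co h2, ← li_co h3, h4]

theorem eventually_ne [T2Space M] {α α' : W} {β β' : W →L[ℝ] W} {U V : ℝ → M × (W →L[ℝ] E)} {t : ℝ}
    (hU : HasVel c U α β t) (hV : HasVel c V α' β' t) (hne : U t ≠ V t) :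
    ∀ᶠ s in 𝓝 t, U s ≠ V s := by
  by_cases hb : (U t).1 = (V t).1
  · set a := (U t).1 with ha
    have hUs : (U t).1 ∈ (chartAt E a).source := mem_chart_source E _
    have hVs : (V t).1 ∈ (chartAt E a).source := hb ▸ hUs
    have hne' : co a (U t) ≠ co a (V t) := fun h => hne (by rw [← li_co hUs, ← li_co hVs, h])
    have := (ContinuousAt.ne_iff_eventually_ne (hU.contCo c hUs) (hV.contCo c hVs)).1 hne'
    filter_upwards [this] with s hs h using hs (by rw [h])
  · have := (ContinuousAt.ne_iff_eventually_ne hU.1 hV.1).1 hb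
    filter_upwards [this] with s hs h using hs (by rw [h])

/-- uniqueness on open connected sets -/
theorem FG.unique [T2Space M] {y : W} {U V : ℝ → M × (W →L[ℝ] E)} {I : Set ℝ} (hI : IsOpen I)
    (hI' : IsPreconnected I) (hU : FG c y U I) (hV : FG c y V I) {t₀ t : ℝ} (h0 : t₀ ∈ I)
    (ht : t ∈ I) (h : U t₀ = V t₀) : U t = V t := by
  refine (hI'.induction₂ (fun s s' => U s = V s ↔ U s' = V s') ?_
    (fun _ _ _ _ _ _ h1 h2 => h1.trans h2) (fun _ _ _ _ h => h.symm) h0 ht).1 h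
  intro s hs
  have e : ∀ᶠ s' in 𝓝[I] s, s' ∈ I := eventually_mem_nhdsWithin
  have e1 : ∀ᶠ s' in 𝓝 s, s' ∈ I := hI.mem_nhds hs
  by_cases hs1 : U s = V s
  · have := local_unique c (e1.mono fun s' hs' => hU s' hs') (e1.mono fun s' hs' => hV s' hs') hs1
    exact (this.filter_mono nhdsWithin_le_nhds).mono fun s' hs' => ⟨fun _ => hs', fun _ => hs1⟩
  · have := eventually_ne c (hU s hs) (hV s hs) hs1
    exact (this.filter_mono nhdsWithin_le_nhds).mono fun s' hs' =>
      ⟨fun h => absurd h hs1, fun h => absurd h hs'⟩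

/-- the direction is constant along solutions of `vf` -/
theorem vf_const {a : M} {z : ℝ → (E × (W →L[ℝ] E)) × W} {t₀ ε : ℝ} (hε : 0 < ε)
    (h : ∀ t ∈ Ioo (t₀ - ε) (t₀ + ε), HasDerivAt z (vf c a (z t)) t) :
    ∀ t ∈ Ioo (t₀ - ε) (t₀ + ε), (z t).2 = (z t₀).2 := by
  intro t ht
  have h0 : t₀ ∈ Ioo (t₀ - ε) (t₀ + ε) := ⟨by linarith, by linarith⟩
  have hd : ∀ s ∈ Ioo (t₀ - ε) (t₀ + ε), HasDerivAt (fun s => (z s).2) 0 s :=
    fun s hs => (h s hs).snd
  exact isOpen_Ioo.is_const_of_deriv_eq_zero isPreconnected_Ioo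
    (fun s hs => (hd s hs).differentiableAt.differentiableWithinAt)
    (fun s hs => (hd s hs).deriv) ht h0

/-- local existence from a flow box -/
theorem FlowBox.fg {a : M} {u : M × (W →L[ℝ] E)} {y₀ : W}
    (B : FlowBox (vf c a) (co a u, y₀)
      {z : (E × (W →L[ℝ] E)) × W | z.1.1 ∈ (chartAt E a).target})
    (t₀ : ℝ) {z₁ : E × (W →L[ℝ] E)} {y : W} (hz : (z₁, y) ∈ closedBall (co a u, y₀) B.r) :
    ∃ V : ℝ → M × (W →L[ℝ] E), V t₀ = li a z₁ ∧ FG c y V (Ioo (t₀ - B.ε) (t₀ + B.ε)) ∧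
      ∀ t ∈ Ioo (t₀ - B.ε) (t₀ + B.ε), (V t).1 ∈ (chartAt E a).source ∧
        (co a (V t), y) ∈ closedBall (co a u, y₀) B.a := by
  obtain ⟨z, hz0, hz1⟩ := B.ex t₀ _ hz
  have hc := vf_const c B.hε fun t ht => (hz1 t ht).2
  rw [hz0] at hc
  simp only at hc
  have hzt : ∀ t ∈ Ioo (t₀ - B.ε) (t₀ + B.ε), (z t).1.1 ∈ (chartAt E a).target :=
    fun t ht => B.sub (hz1 t ht).1
  refine ⟨fun t => li a (z t).1, by simp [hz0], fun t ht => ?_, fun t ht => ⟨?_, ?_⟩⟩
  · refine hasVel_li c (hzt t ht) ?_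
    have := (hz1 t ht).2.fst
    simp only [vf, hc t ht] at this
    exact this
  · exact li_fst_mem (hzt t ht)
  · rw [co_li (hzt t ht)]
    have : ((z t).1, y) = z t := by rw [← hc t ht]
    rw [this]; exact (hz1 t ht).1

theorem exists_local (y : W) (u : M × (W →L[ℝ] E)) (t₀ : ℝ) : ∃ ε > 0,
    ∃ V : ℝ → M × (W →L[ℝ] E), V t₀ = u ∧ FG c y V (Ioo (t₀ - ε) (t₀ + ε)) := by
  obtain ⟨B⟩ := flowBox_at c u.1 (mem_chart_source E _) y
  obtain ⟨V, h1, h2, -⟩ := B.fg c t₀ (mem_closedBall_self B.hr.le)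
  exact ⟨B.ε, B.hε, V, by rw [h1, li_co (mem_chart_source E _)], h2⟩

/-- gluing -/
theorem FG.glue {y : W} {U V : ℝ → M × (W →L[ℝ] E)} {a s d : ℝ} {s' s'' : ℝ}
    (hU : FG c y U (Ioo a s'')) (hV : FG c y V (Ioo s' d)) (h1 : s' < s) (h2 : s < s'')
    (h1a : a < s) (h2d : s < d)
    (h : U s = V s) : FG c y (fun t => if t < s then U t else V t) (Ioo a d) := by
  intro t ht
  rcases lt_trichotomy t s with h3 | h3 | h3
  · refine (hU t ⟨ht.1, h3.trans h2⟩).congr c ?_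
    filter_upwards [Iio_mem_nhds h3] with x hx
    simp only [mem_Iio] at hx
    simp [hx]
  · subst h3
    have e1 : ∀ᶠ x in 𝓝 t, HasVel c U y 0 x :=
      mem_of_superset (Ioo_mem_nhds h1a h2) fun x hx => hU x hx
    have e2 : ∀ᶠ x in 𝓝 t, HasVel c V y 0 x :=
      mem_of_superset (Ioo_mem_nhds h1 h2d) fun x hx => hV x hx
    refine (hU t ⟨h1a, h2⟩).congr c ?_
    filter_upwards [local_unique c e1 e2 h] with x hx
    by_cases hxt : x < t
    · simp [hxt]
    · simp [hxt, hx]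
  · refine (hV t ⟨h1.trans h3, ht.2⟩).congr c ?_
    filter_upwards [Ioi_mem_nhds h3] with x hx
    simp only [mem_Ioi] at hx
    simp [not_lt.2 hx.le]

theorem FG.neg {y : W} {U : ℝ → M × (W →L[ℝ] E)} {I : Set ℝ} (hU : FG c y U I) :
    FG c (-y) (fun t => U (-t)) {t | -t ∈ I} := by
  intro t ht
  have := (hU (-t) ht).reparam (t := t) c (hasDerivAt_neg t)
  simpa using this

theorem FG.mono {y : W} {U : ℝ → M × (W →L[ℝ] E)} {I I' : Set ℝ} (hU : FG c y U I) (h : I' ⊆ I) :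
    FG c y U I' := fun t ht => hU t (h ht)

/-- extension to the right of every solution on a bounded symmetric interval. -/
def RExt (y : W) (u₀ : M × (W →L[ℝ] E)) : Prop :=
  ∀ T > 0, ∀ U : ℝ → M × (W →L[ℝ] E), U 0 = u₀ → FG c y U (Ioo (-T) T) →
    ∃ s ε : ℝ, 0 < s ∧ s < T ∧ T < s + ε ∧ ∃ V : ℝ → M × (W →L[ℝ] E), V s = U s ∧
      FG c y V (Ioo (s - ε) (s + ε))

theorem exists_global [T2Space M] {y : W} {u₀ : M × (W →L[ℝ] E)} (h1 : RExt c y u₀)
    (h2 : RExt c (-y) u₀) : ∃ U : ℝ → M × (W →L[ℝ] E), U 0 = u₀ ∧ FG c y U univ := by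
  classical
  set S : Set ℝ := {T | 0 < T ∧ ∃ U : ℝ → M × (W →L[ℝ] E), U 0 = u₀ ∧ FG c y U (Ioo (-T) T)}
    with hS
  have hne : S.Nonempty := by
    obtain ⟨ε, hε, V, hV0, hV⟩ := exists_local c y u₀ 0
    exact ⟨ε, hε, V, hV0, by simpa using hV⟩
  have hex : ∀ T ∈ S, ∃ U : ℝ → M × (W →L[ℝ] E), U 0 = u₀ ∧ FG c y U (Ioo (-T) T) :=
    fun T hT => hT.2
  have : Nonempty (ℝ → M × (W →L[ℝ] E)) := ⟨fun _ => u₀⟩
  choose! U hU0 hU using hex
  have hun : ∀ T ∈ S, ∀ T' ∈ S, ∀ t, |t| < T → |t| < T' → U T t = U T' t := by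
    have key : ∀ T ∈ S, ∀ T' ∈ S, T ≤ T' → ∀ t, |t| < T → U T t = U T' t := by
      intro T hT T' hT' hle t ht
      refine FG.unique c isOpen_Ioo isPreconnected_Ioo (hU T hT)
        ((hU T' hT').mono c (Ioo_subset_Ioo (by linarith) hle)) (t₀ := 0)
        ⟨by linarith [hT.1], hT.1⟩ (abs_lt.1 ht) ?_
      rw [hU0 T hT, hU0 T' hT']
    intro T hT T' hT' t h3 h4
    rcases le_total T T' with h | h
    · exact key T hT T' hT' h t h3
    · exact (key T' hT' T hT h t h4).symm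
  have hunion : ∃ V : ℝ → M × (W →L[ℝ] E), V 0 = u₀ ∧ FG c y V {t | ∃ T ∈ S, |t| < T} := by
    have hch : ∀ t ∈ {t : ℝ | ∃ T ∈ S, |t| < T}, ∃ T, T ∈ S ∧ |t| < T := fun t ht => ht
    choose! τ hτ1 hτ2 using hch
    refine ⟨fun t => U (τ t) t, ?_, ?_⟩
    · obtain ⟨T, hT⟩ := hne
      exact hU0 _ (hτ1 0 ⟨T, hT, by simpa using hT.1⟩)
    · intro t ht
      have hm := hτ1 t ht
      have hl := hτ2 t ht
      refine (hU _ hm t (abs_lt.1 hl)).congr c ?_
      have : ∀ᶠ x in 𝓝 t, |x| < τ t := continuous_abs.continuousAt.eventually_lt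
        continuousAt_const hl
      filter_upwards [this] with x hx
      have hx' : x ∈ {t : ℝ | ∃ T ∈ S, |t| < T} := ⟨τ t, hm, hx⟩
      exact hun _ hm _ (hτ1 x hx') x hx (hτ2 x hx')
  obtain ⟨V, hV0, hV⟩ := hunion
  by_cases hb : BddAbove S
  · exfalso
    set Ts := sSup S with hTs
    have hTs0 : 0 < Ts := by
      obtain ⟨T, hT⟩ := hne
      exact hT.1.trans_le (le_csSup hb hT)
    have hV' : FG c y V (Ioo (-Ts) Ts) := hV.mono c fun t ht => by
      obtain ⟨T, hT, h⟩ := exists_lt_of_lt_csSup hne (abs_lt.2 ht)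
      exact ⟨T, hT, h⟩
    obtain ⟨s, ε, hs0, hs1, hs2, V1, hV1, hV1'⟩ := h1 Ts hTs0 V hV0 hV'
    have hg := hV'.glue c (s := s) hV1' (by linarith) hs1 (by linarith) (by linarith) hV1.symm
    set V2 : ℝ → M × (W →L[ℝ] E) := fun t => if t < s then V t else V1 t with hV2
    have hV20 : V2 0 = u₀ := by simp [hV2, hs0, hV0]
    have hneg : FG c (-y) (fun t => V2 (-t)) (Ioo (-Ts) Ts) :=
      (hg.neg c).mono c fun t ht => ⟨by linarith [ht.2], by linarith [ht.1]⟩
    obtain ⟨s', ε', hs0', hs1', hs2', V3, hV3, hV3'⟩ :=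
      h2 Ts hTs0 _ (by simpa using hV20) hneg
    have hV4 : FG c y (fun t => V3 (-t)) (Ioo (-s' - ε') (-s' + ε')) := by
      have := (hV3'.neg c).mono c (I' := Ioo (-s' - ε') (-s' + ε'))
        fun t ht => ⟨by linarith [ht.2], by linarith [ht.1]⟩
      simpa using this
    have hg2 := hV4.glue c (s := -s') hg (by linarith) (by linarith) (by linarith) (by linarith)
      (by simpa using hV3)
    set δ := min (s + ε - Ts) (s' + ε' - Ts) with hδ
    have hδ0 : 0 < δ := lt_min (by linarith) (by linarith)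
    have hmem : Ts + δ ∈ S := by
      refine ⟨by linarith, _, ?_, hg2.mono c (Ioo_subset_Ioo ?_ ?_)⟩
      · have : ¬ ((0:ℝ) < -s') := by linarith
        simp [this, hV20]
      · have := min_le_right (s + ε - Ts) (s' + ε' - Ts)
        linarith
      · have := min_le_left (s + ε - Ts) (s' + ε' - Ts)
        linarith
    have := le_csSup hb hmem
    linarith
  · refine ⟨V, hV0, hV.mono c fun t _ => ?_⟩
    rw [not_bddAbove_iff] at hb
    exact hb |t|

end Pool.Agent.H660R4
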