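import Pool.Agent.H660R4.Frame
set_option autoImplicit false
set_option linter.unusedSectionVars false
set_option linter.deprecated false
open Set Filter Topology Metric
open scoped ContDiff NNReal Manifold

namespace Pool.Agent.H660R4

variable {E : Type*} [NormedAddCommGroup E] [NormedSpace ℝ E] [FiniteDimensional ℝ E]
  {M : Type*} [TopologicalSpace M] [ChartedSpace E M] [IsManifold 𝓘(ℝ, E) ∞ M]
  {W : Type*} [NormedAddCommGroup W] [NormedSpace ℝ W] [FiniteDimensional ℝ W]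
  (c : LC E M)

/-- the curvature in a chart -/
noncomputable def curv (Γ : E → E →L[ℝ] E →L[ℝ] E) (y u v w : E) : E :=
  fderiv ℝ Γ y u v w - fderiv ℝ Γ y v u w + Γ y u (Γ y v w) - Γ y v (Γ y u w)

/-- the linearisation of `vf` -/
theorem fderiv_vf {a : M} {x : E} (hx : x ∈ (chartAt E a).target) (F : W →L[ℝ] E) (y : W)
    (δx : E) (δF : W →L[ℝ] E) (δy : W) :
    fderiv ℝ (vf c a) ((x, F), y) ((δx, δF), δy) =
      ((δF y + F δy, -((fderiv ℝ (c.Γ a) x δx (F y)).comp F + (c.Γ a x (δF y + F δy)).comp F +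
        (c.Γ a x (F y)).comp δF)), 0) := by
  have hΓ : DifferentiableAt ℝ (c.Γ a) x :=
    ((c.smooth a).contDiffAt ((chartAt E a).open_target.mem_nhds hx)).differentiableAt
      (by norm_num)
  have hvf : DifferentiableAt ℝ (vf (W := W) c a) ((x, F), y) :=
    ((vf_contDiffOn c a).contDiffAt ((isOpen_dom a).mem_nhds hx)).differentiableAt (by norm_num)
  have hX : HasDerivAt (fun σ : ℝ => x + σ • δx) δx 0 := by
    simpa using ((hasDerivAt_id (0:ℝ)).smul_const δx).const_add x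
  have hF : HasDerivAt (fun σ : ℝ => F + σ • δF) δF 0 := by
    simpa using ((hasDerivAt_id (0:ℝ)).smul_const δF).const_add F
  have hY : HasDerivAt (fun σ : ℝ => y + σ • δy) δy 0 := by
    simpa using ((hasDerivAt_id (0:ℝ)).smul_const δy).const_add y
  have hL : HasDerivAt (fun σ : ℝ => ((x + σ • δx, F + σ • δF), y + σ • δy)) ((δx, δF), δy) 0 :=
    (hX.prodMk hF).prodMk hY
  have h1 : HasDerivAt (fun σ : ℝ => vf c a ((x + σ • δx, F + σ • δF), y + σ • δy))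
      (fderiv ℝ (vf c a) ((x, F), y) ((δx, δF), δy)) 0 := by
    refine HasFDerivAt.comp_hasDerivAt (l := vf c a)
      (l' := fderiv ℝ (vf c a) ((x, F), y)) 0 ?_ hL
    simpa using hvf.hasFDerivAt
  have hFy := hF.clm_apply hY
  have hG : HasDerivAt (fun σ : ℝ => c.Γ a (x + σ • δx)) (fderiv ℝ (c.Γ a) x δx) 0 := by
    refine HasFDerivAt.comp_hasDerivAt (l := c.Γ a) (l' := fderiv ℝ (c.Γ a) x) 0 ?_ hX
    simpa using hΓ.hasFDerivAt
  have h2 := ((hFy.prodMk ((hG.clm_apply hFy).clm_comp hF).neg)).prodMk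
    (hasDerivAt_const (0:ℝ) (0:W))
  have h3 : (fun σ : ℝ => vf c a ((x + σ • δx, F + σ • δF), y + σ • δy)) =
      fun σ : ℝ => (((F + σ • δF) (y + σ • δy),
        -((c.Γ a (x + σ • δx)) ((F + σ • δF) (y + σ • δy))).comp (F + σ • δF)), (0:W)) := by
    funext σ
    simp [vf, vel]
  rw [h3] at h1
  rw [h1.unique h2]
  simp only [zero_smul, add_zero]
  refine Prod.ext (Prod.ext ?_ ?_) rfl
  · simp
  · simp only
    ext w
    simp

/-- the candidate for the derivative with respect to the parameter solves the linearised equation. -/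
theorem zeta_deriv {a : M} {z : ℝ → E × (W →L[ℝ] E)} {y y' : W} {α : ℝ → W} {β : ℝ → W →L[ℝ] W}
    {Kt : W →L[ℝ] W} {t : ℝ} {I : Set ℝ}
    (hx : (z t).1 ∈ (chartAt E a).target)
    (hz : HasDerivAt z (vel (c.Γ a (z t).1) (z t).2 y 0) t)
    (hα : HasDerivWithinAt α (β t y + y') I t) (hβ : HasDerivWithinAt β Kt I t)
    (hK : ∀ w, curv (c.Γ a) (z t).1 ((z t).2 y) ((z t).2 (α t)) ((z t).2 w) = (z t).2 (Kt w)) :
    HasDerivWithinAt (fun t => (vel (c.Γ a (z t).1) (z t).2 (α t) (β t), y'))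
      (fderiv ℝ (vf c a) (z t, y) (vel (c.Γ a (z t).1) (z t).2 (α t) (β t), y')) I t := by
  have hΓ : DifferentiableAt ℝ (c.Γ a) (z t).1 :=
    ((c.smooth a).contDiffAt ((chartAt E a).open_target.mem_nhds hx)).differentiableAt
      (by norm_num)
  have h1 := (hd_fst hz).hasDerivWithinAt (s := I)
  have h2 := (hd_snd hz).hasDerivWithinAt (s := I)
  have h3 := (comp_fd (l := c.Γ a) (x := fun t => (z t).1) hΓ (hd_fst hz)).hasDerivWithinAt (s := I)
  have h4 := h2.clm_apply hα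
  have h5 := ((h4.prodMk ((h2.clm_comp hβ).sub ((h3.clm_apply h4).clm_comp h2)))).prodMk
    (hasDerivWithinAt_const t I y')
  have e : (z t, y) = (((z t).1, (z t).2), y) := rfl
  rw [e]
  have e2 : (vel (c.Γ a (z t).1) (z t).2 (α t) (β t), y') =
    (((z t).2 (α t), (z t).2.comp (β t) - (c.Γ a (z t).1 ((z t).2 (α t))).comp (z t).2), y') := rfl
  rw [e2, fderiv_vf c hx]
  refine HasDerivWithinAt.congr_deriv (f' := _) h5 ?_
  refine Prod.ext (Prod.ext ?_ ?_) rfl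
  · simp only [vel, ContinuousLinearMap.sub_apply, ContinuousLinearMap.comp_apply,
      ContinuousLinearMap.comp_zero, zero_sub, ContinuousLinearMap.neg_apply, map_add]
    rw [c.symm a _ hx ((z t).2 y)]
    abel
  · simp only
    ext w
    have hw := hK w
    simp only [curv] at hw
    simp only [vel, ContinuousLinearMap.sub_apply, ContinuousLinearMap.comp_apply,
      ContinuousLinearMap.comp_zero, zero_sub, ContinuousLinearMap.neg_apply, map_add,
      ContinuousLinearMap.add_apply, map_sub, map_neg, ← hw]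
    rw [c.symm a _ hx ((z t).2 y) ((z t).2 (α t))]
    abel

/-- real induction on `[0,1]` -/
theorem forward_ind {N : ℝ → Prop} (h0 : N 0)
    (h : ∀ t ∈ Icc (0:ℝ) 1, ∃ δ > 0, ∀ t1 ∈ Icc (0:ℝ) 1, ∀ t2 ∈ Icc (0:ℝ) 1, |t1 - t| < δ →
      |t2 - t| < δ → t1 ≤ t2 → N t1 → N t2) : ∀ t ∈ Icc (0:ℝ) 1, N t := by
  set S : Set ℝ := {t | t ∈ Icc (0:ℝ) 1 ∧ N t} with hS
  by_contra hcon
  push Not at hcon
  obtain ⟨b, hb, hNb⟩ := hcon
  set S' : Set ℝ := {t | t ∈ Icc (0:ℝ) b ∧ N t} with hS'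
  have hne : S'.Nonempty := ⟨0, ⟨le_rfl, hb.1⟩, h0⟩
  have hbdd : BddAbove S' := ⟨b, fun t ht => ht.1.2⟩
  set s := sSup S' with hs
  have hs0 : 0 ≤ s := le_csSup hbdd ⟨⟨le_rfl, hb.1⟩, h0⟩
  have hsb : s ≤ b := csSup_le hne fun t ht => ht.1.2
  have hs1 : s ∈ Icc (0:ℝ) 1 := ⟨hs0, hsb.trans hb.2⟩
  obtain ⟨δ, hδ, H⟩ := h s hs1
  obtain ⟨t1, ht1, ht1'⟩ := exists_lt_of_lt_csSup hne (show s - δ < s by linarith)
  have ht1s : t1 ≤ s := le_csSup hbdd ht1
  have ht1I : t1 ∈ Icc (0:ℝ) 1 := ⟨ht1.1.1, ht1.1.2.trans hb.2⟩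
  have hd1 : |t1 - s| < δ := by rw [abs_lt]; constructor <;> linarith
  -- N (min (s + δ/2) b)
  set t2 := min (s + δ / 2) b with ht2
  have ht2s : s ≤ t2 := le_min (by linarith) hsb
  have ht2I : t2 ∈ Icc (0:ℝ) 1 := ⟨hs0.trans ht2s, (min_le_right _ _).trans hb.2⟩
  have hd2 : |t2 - s| < δ := by
    have := min_le_left (s + δ / 2) b
    rw [abs_lt]; constructor <;> linarith
  have hN2 := H t1 ht1I t2 ht2I hd1 hd2 (ht1s.trans ht2s) ht1.2
  have hmem : t2 ∈ S' := ⟨⟨hs0.trans ht2s, min_le_right _ _⟩, hN2⟩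
  have hle : t2 ≤ s := le_csSup hbdd hmem
  rcases le_total (s + δ / 2) b with h3 | h3
  · rw [ht2, min_eq_left h3] at hle; linarith
  · rw [ht2, min_eq_right h3] at hN2; exact hNb hN2

/-- **Variation of framed geodesics.** -/
theorem dev [T2Space M] {U : ℝ → ℝ → M × (W →L[ℝ] E)} {y : ℝ → W} {s₀ : ℝ} {y' : W}
    (hU : ∀ᶠ s in 𝓝 s₀, FG c (y s) (U s) univ) (hy : HasDerivAt y y' s₀)
    {α : ℝ → W} {β Kt : ℝ → W →L[ℝ] W}
    (h0 : HasVel c (fun s => U s 0) (α 0) (β 0) s₀)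
    (hα : ∀ t ∈ Icc (0:ℝ) 1, HasDerivWithinAt α (β t (y s₀) + y') (Icc 0 1) t)
    (hβ : ∀ t ∈ Icc (0:ℝ) 1, HasDerivWithinAt β (Kt t) (Icc 0 1) t)
    (hK : ∀ t ∈ Icc (0:ℝ) 1, ∀ a : M, (U s₀ t).1 ∈ (chartAt E a).source → ∀ w,
      curv (c.Γ a) (co a (U s₀ t)).1 ((co a (U s₀ t)).2 (y s₀)) ((co a (U s₀ t)).2 (α t))
        ((co a (U s₀ t)).2 w) = (co a (U s₀ t)).2 (Kt t w)) :
    ∀ t ∈ Icc (0:ℝ) 1, HasVel c (fun s => U s t) (α t) (β t) s₀ := by
  refine forward_ind h0 fun ts hts => ?_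
  have hU0 := hU.self_of_nhds
  set a := (U s₀ ts).1 with ha
  have has : (U s₀ ts).1 ∈ (chartAt E a).source := mem_chart_source E _
  obtain ⟨B⟩ := flowBox_at c a has (y s₀)
  have hc1 : ContinuousAt (fun t => (co a (U s₀ t), y s₀)) ts :=
    ((hU0 ts (mem_univ _)).hasVf c has).continuousAt
  have e1 := hc1.eventually_mem (ball_mem_nhds _ B.hr)
  have e2 := eventually_source (hU0 ts (mem_univ _)).1 has
  obtain ⟨δ1, hδ1, hδ1'⟩ := Metric.eventually_nhds_iff_ball.1 (e1.and e2)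
  refine ⟨min δ1 (B.ε / 2), lt_min hδ1 (half_pos B.hε), fun t1 ht1 t2 ht2 hd1 hd2 hle hN => ?_⟩
  have hd1' : |t1 - ts| < δ1 := hd1.trans_le (min_le_left _ _)
  have hd1'' : |t1 - ts| < B.ε / 2 := hd1.trans_le (min_le_right _ _)
  have hd2'' : |t2 - ts| < B.ε / 2 := hd2.trans_le (min_le_right _ _)
  have hb1 := hδ1' t1 (by rw [mem_ball, Real.dist_eq]; exact hd1')
  have hsrc1 : (U s₀ t1).1 ∈ (chartAt E a).source := hb1.2
  -- nearby parameters
  have hcN : ContinuousAt (fun s => (co a (U s t1), y s)) s₀ :=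
    ((hN.hasCo c (b := a) hsrc1).continuousAt).prodMk hy.continuousAt
  have e3 : ∀ᶠ s in 𝓝 s₀, (co a (U s t1), y s) ∈ ball (co a (U s₀ ts), y s₀) B.r :=
    hcN.eventually_mem (isOpen_ball.mem_nhds hb1.1)
  have e4 := eventually_source (U := fun s => U s t1) hN.1 hsrc1
  have key : ∀ᶠ s in 𝓝 s₀, ∀ t ∈ Icc t1 t2, (U s t).1 ∈ (chartAt E a).source ∧
      (co a (U s t), y s) ∈ closedBall (co a (U s₀ ts), y s₀) B.a := by
    filter_upwards [hU, e3, e4] with s h1 h2 h3 t ht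
    obtain ⟨V, hV1, hV2, hV3⟩ := B.fg c t1 (ball_subset_closedBall h2)
    rw [li_co h3] at hV1
    have htI : t ∈ Ioo (t1 - B.ε) (t1 + B.ε) := by
      rw [abs_lt] at hd1'' hd2''
      exact ⟨by linarith [ht.1, B.hε], by linarith [ht.2]⟩
    have hUV : U s t = V t := FG.unique c isOpen_Ioo isPreconnected_Ioo
      (h1.mono c (subset_univ _)) hV2 (t₀ := t1) ⟨by linarith [B.hε], by linarith [B.hε]⟩ htI
      hV1.symm
    rw [hUV]
    exact hV3 t htI
  have hkey0 := key.self_of_nhds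
  have hI : Icc t1 t2 ⊆ Icc 0 1 := Icc_subset_Icc ht1.1 ht2.2
  have main := gron_diff B.hL B.lip B.quad B.bd (fun s t => (co a (U s t), y s))
    (fun t => (vel (c.Γ a (co a (U s₀ t)).1) (co a (U s₀ t)).2 (α t) (β t), y'))
    (t1 := t1) (t2 := t2) (s0 := s₀) ?_ ?_ ?_ t2 ⟨hle, le_rfl⟩
  · have h5 := hd_fst main
    have hev : (fun s => (U s t2).1) =ᶠ[𝓝 s₀] fun s => (chartAt E a).symm (co a (U s t2)).1 := by
      filter_upwards [key] with s hs
      have := congrArg Prod.fst (li_co (hs t2 ⟨hle, le_rfl⟩).1)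
      exact this.symm
    refine hasVel_of c (a := a) ?_ (hkey0 t2 ⟨hle, le_rfl⟩).1 h5
    refine ContinuousAt.congr ?_ hev.symm
    refine ContinuousAt.comp_of_eq ((chartAt E a).continuousAt_symm
      ((chartAt E a).map_source (hkey0 t2 ⟨hle, le_rfl⟩).1)) (hd_fst h5).continuousAt rfl
  · filter_upwards [hU, key] with s h1 h2 t ht
    exact ⟨(h2 t ht).2, (h1 t (mem_univ _)).hasVf c (h2 t ht).1⟩
  · intro t ht
    have hsrc := (hkey0 t ht).1
    exact zeta_deriv c (z := fun t => co a (U s₀ t)) ((chartAt E a).map_source hsrc)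
      ((hU0 t (mem_univ _)).hasCo c hsrc) ((hα t (hI ht)).mono hI) ((hβ t (hI ht)).mono hI)
      (hK t (hI ht) a hsrc)
  · exact (hN.hasCo c (b := a) hsrc1).prodMk hy

end Pool.Agent.H660R4
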