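import Pool.Agent.H660R4.LemmaS
set_option autoImplicit false
set_option linter.unusedSectionVars false
set_option linter.deprecated false
set_option synthInstance.maxHeartbeats 400000
set_option maxHeartbeats 4000000
open Set Filter Topology Metric
open scoped ContDiff NNReal

namespace Pool.Agent.H660R4

section T
variable {D : Type*} [NormedAddCommGroup D] [NormedSpace ℝ D] [FiniteDimensional ℝ D]
  {W : Type*} [NormedAddCommGroup W] [NormedSpace ℝ W] [FiniteDimensional ℝ W]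

/-- the correction `c̃` -/
noncomputable def ctl (c0 : W) (q : (W →L[ℝ] W) × (W →L[ℝ] W)) : W := Ring.inverse q.1 (q.2 c0)

noncomputable def Psi (b : W →L[ℝ] D →L[ℝ] D) (n1 c0 : W) (ℓ : W → W →L[ℝ] ℝ) (τ : ℝ)
    (q : ((W →L[ℝ] W) × (W →L[ℝ] W →L[ℝ] W)) × ((D × W) × ((W →L[ℝ] W) × ℝ))) :
    (D × W) × ((W →L[ℝ] W) × ℝ) :=
  ((ℓ q.2.1.2 (ctl c0 (q.1.1, q.2.2.1)) • b n1 q.2.1.1,
    τ⁻¹ • (ctl c0 (q.1.1, q.2.2.1) - ℓ q.2.1.2 (ctl c0 (q.1.1, q.2.2.1)) • n1)),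
   (-((q.1.2 (ctl c0 (q.1.1, q.2.2.1))).comp q.2.2.1), ℓ q.2.1.2 (ctl c0 (q.1.1, q.2.2.1))))

theorem Psi_contDiffAt (b : W →L[ℝ] D →L[ℝ] D) (n1 c0 : W) {ℓ : W → W →L[ℝ] ℝ} (τ : ℝ)
    {q : ((W →L[ℝ] W) × (W →L[ℝ] W →L[ℝ] W)) × ((D × W) × ((W →L[ℝ] W) × ℝ))}
    (hu : IsUnit q.1.1) (hℓ : ContDiffAt ℝ 1 ℓ q.2.1.2) :
    ContDiffAt ℝ 1 (Psi b n1 c0 ℓ τ) q := by
  have hA : ContDiff ℝ 1 (fun q : ((W →L[ℝ] W) × (W →L[ℝ] W →L[ℝ] W)) ×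
      ((D × W) × ((W →L[ℝ] W) × ℝ)) => q.1.1) := contDiff_fst.comp contDiff_fst
  have hB : ContDiff ℝ 1 (fun q : ((W →L[ℝ] W) × (W →L[ℝ] W →L[ℝ] W)) ×
      ((D × W) × ((W →L[ℝ] W) × ℝ)) => q.1.2) := contDiff_snd.comp contDiff_fst
  have hκ : ContDiff ℝ 1 (fun q : ((W →L[ℝ] W) × (W →L[ℝ] W →L[ℝ] W)) ×
      ((D × W) × ((W →L[ℝ] W) × ℝ)) => q.2.1.1) :=
    contDiff_fst.comp (contDiff_fst.comp contDiff_snd)
  have hy : ContDiff ℝ 1 (fun q : ((W →L[ℝ] W) × (W →L[ℝ] W →L[ℝ] W)) ×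
      ((D × W) × ((W →L[ℝ] W) × ℝ)) => q.2.1.2) :=
    contDiff_snd.comp (contDiff_fst.comp contDiff_snd)
  have hh : ContDiff ℝ 1 (fun q : ((W →L[ℝ] W) × (W →L[ℝ] W →L[ℝ] W)) ×
      ((D × W) × ((W →L[ℝ] W) × ℝ)) => q.2.2.1) :=
    contDiff_fst.comp (contDiff_snd.comp contDiff_snd)
  have hl : ContDiffAt ℝ 1 (fun q : ((W →L[ℝ] W) × (W →L[ℝ] W →L[ℝ] W)) ×
      ((D × W) × ((W →L[ℝ] W) × ℝ)) => ℓ q.2.1.2) q :=
    ContDiffAt.comp q (g := ℓ) hℓ hy.contDiffAt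
  obtain ⟨u, hu⟩ := hu
  have hinv : ContDiffAt ℝ 1 (fun q : ((W →L[ℝ] W) × (W →L[ℝ] W →L[ℝ] W)) ×
      ((D × W) × ((W →L[ℝ] W) × ℝ)) => Ring.inverse q.1.1) q := by
    refine ContDiffAt.comp q (g := Ring.inverse) ?_ hA.contDiffAt
    rw [← hu]
    exact contDiffAt_ringInverse ℝ u
  have hc : ContDiffAt ℝ 1 (fun q : ((W →L[ℝ] W) × (W →L[ℝ] W →L[ℝ] W)) ×
      ((D × W) × ((W →L[ℝ] W) × ℝ)) => ctl c0 (q.1.1, q.2.2.1)) q :=
    hinv.clm_apply (hh.contDiffAt.clm_apply contDiffAt_const)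
  have hlc := hl.clm_apply hc
  have hbκ : ContDiff ℝ 1 (fun q : ((W →L[ℝ] W) × (W →L[ℝ] W →L[ℝ] W)) ×
      ((D × W) × ((W →L[ℝ] W) × ℝ)) => b n1 q.2.1.1) := (b n1).contDiff.comp hκ
  exact ((hlc.smul hbκ.contDiffAt).prodMk
    (contDiffAt_const.smul (hc.sub (hlc.smul contDiffAt_const)))).prodMk
    (((hB.contDiffAt.clm_apply hc).clm_comp hh.contDiffAt).neg.prodMk hlc)

theorem psi_lip {X Y Z : Type*} [NormedAddCommGroup X] [NormedAddCommGroup Y]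
    [NormedAddCommGroup Z] {F : X → Y} {x0 xs : X} {zs : X × Z} {r : ℝ} {L K0 : ℝ≥0} {a0 : ℝ}
    {Ψ : Y × (X × Z) → X × Z}
    (hzs : zs.1 = xs) (hr : dist xs x0 < r)
    (hF : ∀ x ∈ closedBall x0 r, ∀ y ∈ closedBall x0 r, ‖F x - F y‖ ≤ L * ‖x - y‖)
    (ha0 : 0 < a0)
    (hΨ : ∀ x ∈ closedBall (F xs, zs) a0, ∀ y ∈ closedBall (F xs, zs) a0,
      ‖Ψ x - Ψ y‖ ≤ K0 * ‖x - y‖) {δ : ℝ} (hδ : 0 < δ) :
    ∃ a : ℝ, 0 < a ∧ a ≤ δ ∧ a + dist xs x0 ≤ r ∧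
      ∀ z ∈ closedBall zs a, ∀ z' ∈ closedBall zs a,
      ‖Ψ (F z.1, z) - Ψ (F z'.1, z')‖ ≤ ((K0 * (L + 1) : ℝ≥0) : ℝ) * ‖z - z'‖ := by
  set a : ℝ := min (min δ (r - dist xs x0)) (a0 / (L + 1)) with ha
  have hL1 : (0:ℝ) < L + 1 := by positivity
  have ha' : 0 < a := lt_min (lt_min hδ (by linarith)) (by positivity)
  have h1 : a ≤ δ := (min_le_left _ _).trans (min_le_left _ _)
  have h2 : a ≤ r - dist xs x0 := (min_le_left _ _).trans (min_le_right _ _)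
  have h3 : a ≤ a0 / (L + 1) := min_le_right _ _
  have h4 : a * (L + 1) ≤ a0 := by rwa [← le_div_iff₀ hL1]
  have hL0 : (0:ℝ) ≤ L := L.2
  have hx0 : xs ∈ closedBall x0 r := hr.le
  have hfst : ∀ z ∈ closedBall zs a, z.1 ∈ closedBall x0 r ∧ ‖z.1 - xs‖ ≤ a := by
    intro z hz
    rw [mem_closedBall, dist_eq_norm] at hz
    have e1 : ‖z.1 - xs‖ ≤ a := by
      rw [← hzs]; exact (norm_fst_le (z - zs)).trans hz
    refine ⟨?_, e1⟩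
    rw [mem_closedBall]
    have := dist_triangle z.1 xs x0
    rw [dist_eq_norm z.1 xs] at this
    linarith
  have hmem : ∀ z ∈ closedBall zs a, (F z.1, z) ∈ closedBall (F xs, zs) a0 := by
    intro z hz
    obtain ⟨e1, e2⟩ := hfst z hz
    rw [mem_closedBall, dist_eq_norm] at hz
    rw [mem_closedBall, dist_eq_norm, Prod.mk_sub_mk, Prod.norm_mk, max_le_iff]
    constructor
    · refine (hF _ e1 _ hx0).trans ?_
      have : (L:ℝ) * ‖z.1 - xs‖ ≤ L * a := by gcongr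
      nlinarith
    · nlinarith
  refine ⟨a, ha', h1, by linarith, fun z hz z' hz' => ?_⟩
  refine (hΨ _ (hmem z hz) _ (hmem z' hz')).trans ?_
  have e1 := hF _ (hfst z hz).1 _ (hfst z' hz').1
  have e2 : ‖z.1 - z'.1‖ ≤ ‖z - z'‖ := norm_fst_le (z - z')
  have e3 : ‖(F z.1, z) - (F z'.1, z')‖ ≤ (L + 1) * ‖z - z'‖ := by
    rw [Prod.mk_sub_mk, Prod.norm_mk, max_le_iff]
    have h0 := norm_nonneg (z - z')
    constructor
    · have : (L:ℝ) * ‖z.1 - z'.1‖ ≤ L * ‖z - z'‖ := by gcongr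
      linarith
    · nlinarith
  push_cast
  rw [mul_assoc]
  gcongr

/-- **The control lemma.** -/
theorem lemmaS (b : W →L[ℝ] D →L[ℝ] D) (K : D → W → W →L[ℝ] W →L[ℝ] W) (n1 y0 c0 : W)
    {ℓ : W → W →L[ℝ] ℝ} (hK0 : ContDiff ℝ 1 (fun z : D × W => K z.1 z.2))
    (hK1 : ∀ (κ : D) (τ : ℝ) (y : W), K κ (τ • y) = τ • K κ y) (hℓ : ContDiffAt ℝ 1 ℓ y0)
    (κs : D) {δ : ℝ} (hδ : 0 < δ) :
    ∃ τ0 : ℝ, 0 < τ0 ∧ ∃ ρ : ℝ, 0 < ρ ∧ ∀ τ : ℝ, 0 < τ → τ < τ0 → ∀ κss ∈ ball κs ρ,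
      ∃ ρ' : ℝ, 0 < ρ' ∧ ∃ ε : ℝ, 0 < ε ∧ ∀ κ0 ∈ ball κss ρ',
      ∃ (lam lam' : ℝ → ℝ) (y y' ct : ℝ → W) (h : ℝ → W →L[ℝ] W) (α : ℝ → ℝ → W)
        (β : ℝ → ℝ → W →L[ℝ] W), lam 0 = 0 ∧ y 0 = τ • y0 ∧ h 0 = ContinuousLinearMap.id ℝ W ∧
        ∀ s ∈ Ioo (-ε) ε, HasDerivAt lam (lam' s) s ∧ HasDerivAt y (y' s) s ∧
          HasDerivAt h (-(β s 1).comp (h s)) s ∧ α s 1 = h s c0 ∧ α s 0 = lam' s • n1 ∧
          β s 0 = 0 ∧ ‖τ⁻¹ • y s - y0‖ ≤ δ ∧ lam' s = ℓ (τ⁻¹ • y s) (ct s) ∧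
          y' s = ct s - lam' s • n1 ∧
          ∀ t ∈ Icc (0:ℝ) 1, HasDerivWithinAt (α s) (β s t (y s) + y' s) (Icc 0 1) t ∧
            HasDerivWithinAt (β s)
              (K (ex (t • b (y s)) (ex (lam s • b n1) κ0)) (y s) (α s t)) (Icc 0 1) t := by
  obtain ⟨τ0, hτ0, r, hr, H⟩ := jacobi b K n1 y0 hK0 hK1 hℓ κs
  refine ⟨τ0, hτ0, r, hr, fun τ hτ hττ κss hκss => ?_⟩
  obtain ⟨A, B, ⟨L, hL⟩, hAB⟩ := H τ hτ hττ
  set F : D × W → (W →L[ℝ] W) × (W →L[ℝ] W →L[ℝ] W) := fun x => (A x 1, B x 1) with hF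
  set xs : D × W := (κss, y0) with hxs
  set zs : (D × W) × ((W →L[ℝ] W) × ℝ) := (xs, (ContinuousLinearMap.id ℝ W, 0)) with hzs
  have hd : dist xs (κs, y0) < r := by
    rw [hxs, Prod.dist_eq, dist_self]
    exact max_lt hκss hr
  have hunit : ∀ x ∈ closedBall (κs, y0) r, IsUnit (A x 1) := by
    intro x hx
    have h1 := (hAB x hx).2.2.1
    have h2 : IsUnit (1 - (ContinuousLinearMap.id ℝ W - A x 1)) := by
      apply isUnit_one_sub_of_norm_lt_one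
      rw [norm_sub_rev]
      linarith
    have h3 : (1 - (ContinuousLinearMap.id ℝ W - A x 1) : W →L[ℝ] W) = A x 1 := by
      rw [ContinuousLinearMap.one_def]; abel
    rwa [h3] at h2
  obtain ⟨a0, ha0, K0, -, -, hΨ, -⟩ := c1_ball (Psi_contDiffAt b n1 c0 (ℓ := ℓ) τ
    (q := (F xs, zs)) (hunit xs hd.le) hℓ)
  obtain ⟨a, ha, haδ, har, hlip⟩ := psi_lip (F := F) (zs := zs) (xs := xs) rfl hd hL ha0 hΨ hδ
  obtain ⟨r', hr', ε, hε, hflow⟩ := lip_flow ha hlip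
  refine ⟨r', hr', ε, hε, fun κ0 hκ0 => ?_⟩
  have hmem0 : (((κ0, y0), (ContinuousLinearMap.id ℝ W, 0)) : (D × W) × ((W →L[ℝ] W) × ℝ)) ∈
      closedBall zs r' := by
    rw [hzs, hxs, mem_closedBall, Prod.dist_eq, Prod.dist_eq]
    simp only [dist_self]
    rw [mem_ball] at hκ0
    exact max_le (max_le hκ0.le hr'.le) hr'.le
  obtain ⟨z, hz0, hz⟩ := hflow _ hmem0
  have hzx : ∀ s ∈ Ioo (-ε) ε, (z s).1 ∈ closedBall (κs, y0) r ∧ ‖(z s).1.2 - y0‖ ≤ δ := by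
    intro s hs
    have h1 := (hz s hs).1
    rw [mem_closedBall, dist_eq_norm] at h1
    have h2 : ‖(z s).1 - xs‖ ≤ a := (norm_fst_le (z s - zs)).trans h1
    constructor
    · rw [mem_closedBall]
      have := dist_triangle (z s).1 xs (κs, y0)
      rw [dist_eq_norm (z s).1 xs] at this
      linarith
    · exact (norm_snd_le ((z s).1 - xs)).trans (h2.trans haδ)
  set ct : ℝ → W := fun s => ctl c0 (A (z s).1 1, (z s).2.1) with hct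
  have hκ : ∀ s ∈ Ioo (-ε) ε, (z s).1.1 = ex ((z s).2.2 • b n1) κ0 := by
    intro s hs
    have h1 : ∀ t ∈ Ioo (-ε) ε, HasDerivWithinAt (fun s => (z s).2.2) (ℓ (z t).1.2 (ct t))
        (Ioo (-ε) ε) t := fun t ht =>
      hdw_snd (hdw_snd (hz t ht).2.hasDerivWithinAt)
    have h2 : ∀ t ∈ Ioo (-ε) ε, HasDerivWithinAt (fun s => (z s).1.1)
        (ℓ (z t).1.2 (ct t) • b n1 (z t).1.1) (Ioo (-ε) ε) t := fun t ht =>
      hdw_fst (hdw_fst (hz t ht).2.hasDerivWithinAt)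
    have h3 := ex_sol (convex_Ioo (-ε) ε) (B := b n1) (μ := fun s => (z s).2.2)
      (μ' := fun t => ℓ (z t).1.2 (ct t)) (κ := fun s => (z s).1.1) h1 h2 (t₀ := 0)
      ⟨by linarith, hε⟩ hs (by simp [hz0])
    rw [h3, hz0]
  have hττ' : ∀ w : W, τ⁻¹ • τ • w = w := fun w => by rw [smul_smul, inv_mul_cancel₀ hτ.ne', one_smul]
  refine ⟨fun s => (z s).2.2, fun s => ℓ (z s).1.2 (ct s), fun s => τ • (z s).1.2,
    fun s => ct s - ℓ (z s).1.2 (ct s) • n1, ct, fun s => (z s).2.1, fun s t => A (z s).1 t (ct s),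
    fun s t => B (z s).1 t (ct s), by simp [hz0], by simp [hz0], by simp [hz0], fun s hs => ?_⟩
  obtain ⟨hx, hy⟩ := hzx s hs
  obtain ⟨hA0, hB0, -, hAB'⟩ := hAB _ hx
  have hzd := (hz s hs).2
  have hdf : HasDerivAt (fun s => (z s).1) _ s := hzd.fst
  have hds : HasDerivAt (fun s => (z s).2) _ s := hzd.snd
  refine ⟨hds.snd, ?_, hds.fst, ?_, ?_, ?_, ?_, ?_, rfl, fun t ht => ⟨?_, ?_⟩⟩
  · have h1 : HasDerivAt (fun s => (z s).1.2) (τ⁻¹ • (ct s - ℓ (z s).1.2 (ct s) • n1)) s := hdf.snd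
    have h2 := h1.const_smul τ
    rw [smul_smul, mul_inv_cancel₀ hτ.ne', one_smul] at h2
    exact h2
  · have h1 := Ring.mul_inverse_cancel _ (hunit _ hx)
    have h2 := congrArg (fun T : W →L[ℝ] W => T ((z s).2.1 c0)) h1
    exact h2
  · simp only [hA0]
    simp [Pr]
  · simp only [hB0]
    simp
  · simp only [hττ']
    exact hy
  · simp only [hττ']
  · have h1 := (hAB' t ht).1.clm_apply (hasDerivWithinAt_const t (Icc (0:ℝ) 1) (ct s))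
    refine h1.congr_deriv ?_
    simp [Pr]
  · have h1 := (hAB' t ht).2.clm_apply (hasDerivWithinAt_const t (Icc (0:ℝ) 1) (ct s))
    refine h1.congr_deriv ?_
    simp only [hκ s hs, map_zero, add_zero, ContinuousLinearMap.comp_apply]

end T

end Pool.Agent.H660R4
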