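import Pool.Agent.H660R4.Tensor
import Pool.Agent.H660R4.LemmaT
set_option autoImplicit false
set_option linter.unusedSectionVars false
set_option linter.deprecated false
set_option synthInstance.maxHeartbeats 400000
set_option maxHeartbeats 4000000
open Set Filter Topology Metric
open scoped ContDiff NNReal Manifold

namespace Pool.Agent.H660R4

variable {E : Type*} [NormedAddCommGroup E] [NormedSpace ℝ E] [FiniteDimensional ℝ E]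
  {M : Type*} [TopologicalSpace M] [ChartedSpace E M] [IsManifold 𝓘(ℝ, E) ∞ M]
  {c : LC E M} {r n : ℕ} (𝒯 : Tower c r)

theorem FG.shift {W : Type*} [NormedAddCommGroup W] [NormedSpace ℝ W] [FiniteDimensional ℝ W]
    {y : W} {U : ℝ → M × (W →L[ℝ] E)} {I : Set ℝ} (hU : FG c y U I) (s : ℝ) :
    FG c y (fun t => U (t - s)) {t | t - s ∈ I} := by
  intro t ht
  have := (hU (t - s) ht).reparam (t := t) c ((hasDerivAt_id t).sub_const s)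
  simpa using this

include 𝒯 in
theorem rext_main [T2Space M] (hr : 0 < r) {η : (EuclideanSpace ℝ (Fin n)) →L[ℝ] (EuclideanSpace ℝ (Fin n)) →L[ℝ] ℝ}
    (hη : ∀ v, (∀ w, η v w = 0) → v = 0) {f : Fin n → (EuclideanSpace ℝ (Fin n))} (hf : ∀ d z, η (f d) z = z d)
    (hsurj : ∀ u : M × ((EuclideanSpace ℝ (Fin n)) →L[ℝ] E), Ad c η u → Function.Surjective u.2)
    {n1 y0 : (EuclideanSpace ℝ (Fin n))} {ℓ : (EuclideanSpace ℝ (Fin n)) → (EuclideanSpace ℝ (Fin n)) →L[ℝ] ℝ} (hℓ : ContDiffAt ℝ 1 ℓ y0) {δ : ℝ} (hδ : 0 < δ)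
    {Cc : (EuclideanSpace ℝ (Fin n)) → Prop}
    (hC : ∀ u : M × ((EuclideanSpace ℝ (Fin n)) →L[ℝ] E), Ad c η u → ∀ y, Cc y →
      ∃ U : ℝ → M × ((EuclideanSpace ℝ (Fin n)) →L[ℝ] E), U 0 = u ∧ FG c y U univ)
    (hn1 : ∀ u : M × ((EuclideanSpace ℝ (Fin n)) →L[ℝ] E), Ad c η u →
      ∃ U : ℝ → M × ((EuclideanSpace ℝ (Fin n)) →L[ℝ] E), U 0 = u ∧ FG c n1 U univ)
    (hstay : ∀ τ : ℝ, 0 < τ → ∀ ε : ℝ, 0 < ε → ∀ (y y' ct : ℝ → (EuclideanSpace ℝ (Fin n))) (lam' : ℝ → ℝ), y 0 = τ • y0 →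
      (∀ s ∈ Ioo (-ε) ε, HasDerivAt y (y' s) s ∧ ‖τ⁻¹ • y s - y0‖ ≤ δ ∧
        lam' s = ℓ (τ⁻¹ • y s) (ct s) ∧ y' s = ct s - lam' s • n1) →
      ∀ s ∈ Ioo (-ε) ε, Cc (y s))
    (hy0 : ∀ τ : ℝ, 0 < τ → Cc (τ • y0)) (c0 : (EuclideanSpace ℝ (Fin n))) (u0 : M × ((EuclideanSpace ℝ (Fin n)) →L[ℝ] E)) (hu0 : Ad c η u0) :
    RExt c c0 u0 := by
  intro T hT U hU0 hU
  set κT : DD r n := ex (T • bb r n c0) (kap 𝒯 u0) with hκT
  obtain ⟨τ0, hτ0, ρ, hρ, H⟩ := lemmaS (bb r n) (Kf r hr f) n1 y0 c0 (ℓ := ℓ)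
    (Kf_contDiff hr f) (Kf_smul hr f) hℓ κT hδ
  have hex0 : ex (0 : DD r n →L[ℝ] DD r n) = ContinuousLinearMap.id ℝ _ := by
    simp only [ex, NormedSpace.exp_zero]; rfl
  -- choice of `τ`
  have e1 : Tendsto (fun τ : ℝ => ex ((-τ) • bb r n y0) κT) (𝓝 0) (𝓝 κT) := by
    have h1 : Continuous fun τ : ℝ => ex ((-τ) • bb r n y0) κT :=
      ((ex_continuous (bb r n y0)).comp continuous_neg).clm_apply continuous_const
    have h2 := h1.tendsto 0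
    simp only [neg_zero, zero_smul, hex0] at h2
    exact h2
  have e2 := (e1.eventually (ball_mem_nhds κT hρ)).filter_mono
    (nhdsWithin_le_nhds : 𝓝[>] (0:ℝ) ≤ 𝓝 0)
  have e3 : ∀ᶠ τ in 𝓝[>] (0:ℝ), τ ∈ Ioo (0:ℝ) τ0 := Ioo_mem_nhdsGT hτ0
  obtain ⟨τ, hτ1, hτ2⟩ := (e2.and e3).exists
  set κss : DD r n := ex ((-τ) • bb r n y0) κT with hκss
  obtain ⟨ρ', hρ', ε, hε, H'⟩ := H τ hτ2.1 hτ2.2 κss hτ1
  -- choice of `s`
  have e4 : Tendsto (fun s : ℝ => ex ((-τ) • bb r n y0) (ex (s • bb r n c0) (kap 𝒯 u0))) (𝓝 T)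
      (𝓝 κss) := by
    have h1 : Continuous fun s : ℝ => ex (s • bb r n c0) (kap 𝒯 u0) :=
      (ex_continuous (bb r n c0)).clm_apply continuous_const
    exact ((ex ((-τ) • bb r n y0)).continuous.comp h1).tendsto T
  have e5 := (e4.eventually (ball_mem_nhds κss hρ')).filter_mono
    (nhdsWithin_le_nhds : 𝓝[<] T ≤ 𝓝 T)
  have e6 : ∀ᶠ s in 𝓝[<] T, s ∈ Ioo (max 0 (T - ε)) T :=
    Ioo_mem_nhdsLT (max_lt hT (by linarith))
  obtain ⟨s, hs1, hs2⟩ := (e5.and e6).exists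
  have hs0 : 0 < s := (le_max_left _ _).trans_lt hs2.1
  have hsε : T - ε < s := (le_max_right _ _).trans_lt hs2.1
  have hkU : kap 𝒯 (U s) = ex (s • bb r n c0) (kap 𝒯 u0) := by
    have := kap_flow 𝒯 hU (t₀ := 0) (t := s) ⟨by linarith, hT⟩ ⟨by linarith, hs2.2⟩
    rw [sub_zero, hU0] at this
    exact this
  have hadU : Ad c η (U s) := hU.ad c isOpen_Ioo isPreconnected_Ioo (t₀ := 0) ⟨by linarith, hT⟩
    ⟨by linarith, hs2.2⟩ (by rw [hU0]; exact hu0)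
  obtain ⟨V, hV0, hV⟩ := hC (U s) hadU _ (hy0 τ hτ2.1)
  set q0 := V (-1) with hq0
  have hadq : Ad c η q0 := hV.ad c isOpen_univ isPreconnected_univ (t₀ := 0) (mem_univ _)
    (mem_univ _) (by rw [hV0]; exact hadU)
  have hkq : kap 𝒯 q0 = ex ((-τ) • bb r n y0) (ex (s • bb r n c0) (kap 𝒯 u0)) := by
    have := kap_flow 𝒯 (hV.mono c (subset_univ (Ioo (-2:ℝ) 1))) (t₀ := 0) (t := -1)
      ⟨by norm_num, by norm_num⟩ ⟨by norm_num, by norm_num⟩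
    rw [hV0, hkU] at this
    rw [hq0, this]
    congr 2
    rw [map_smul, smul_smul]; norm_num
  have hκ0 : kap 𝒯 q0 ∈ ball κss ρ' := by rw [hkq]; exact hs1
  obtain ⟨lam, lam', y, y', ct, h, α, β, hlam0, hyy0, hh0, hS⟩ := H' _ hκ0
  obtain ⟨N, hN0, hN⟩ := hn1 q0 hadq
  have hCy := hstay τ hτ2.1 ε hε y y' ct lam' hyy0 fun s hs => by
    obtain ⟨-, h2, -, -, -, -, h7, h8, h9, -⟩ := hS s hs
    exact ⟨h2, h7, h8, h9⟩
  have hadN : ∀ x, Ad c η (N x) := fun x => hN.ad c isOpen_univ isPreconnected_univ (t₀ := 0)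
    (mem_univ _) (mem_univ _) (by rw [hN0]; exact hadq)
  have hexG : ∀ x ∈ Ioo (-ε) ε, ∃ G : ℝ → M × ((EuclideanSpace ℝ (Fin n)) →L[ℝ] E), G 0 = N (lam x) ∧ FG c (y x) G univ :=
    fun x hx => hC _ (hadN _) _ (hCy x hx)
  have : Nonempty (ℝ → M × ((EuclideanSpace ℝ (Fin n)) →L[ℝ] E)) := ⟨N⟩
  choose! G hG0 hG using hexG
  have hvel : ∀ x ∈ Ioo (-ε) ε, ∀ t ∈ Icc (0:ℝ) 1,
      HasVel c (fun s => G s t) (α x t) (β x t) x := by
    intro x hx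
    obtain ⟨g1, g2, g3, g4, g5, g6, g7, g8, g9, g10⟩ := hS x hx
    have hxn : ∀ᶠ s in 𝓝 x, s ∈ Ioo (-ε) ε := Ioo_mem_nhds hx.1 hx.2
    refine dev c (U := G) (y := y) (y' := y' x) (Kt := fun t => Kf r hr f
        (ex (t • bb r n (y x)) (ex (lam x • bb r n n1) (kap 𝒯 q0))) (y x) (α x t))
      (hxn.mono fun s hs => hG s hs) g2 ?_ (fun t ht => (g10 t ht).1) (fun t ht => (g10 t ht).2) ?_
    · have h1 := (hN (lam x) (mem_univ _)).reparam (t := x) c g1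
      rw [smul_zero] at h1
      rw [g5, g6]
      refine h1.congr c ?_
      filter_upwards [hxn] with s hs
      exact (hG0 s hs).symm
    · intro t ht a ha w
      have hadG : Ad c η (G x t) := (hG x hx).ad c isOpen_univ isPreconnected_univ (t₀ := 0)
        (mem_univ _) (mem_univ _) (by rw [hG0 x hx]; exact hadN _)
      have hkN : kap 𝒯 (N (lam x)) = ex (lam x • bb r n n1) (kap 𝒯 q0) := by
        have := kap_flow 𝒯 (hN.mono c (subset_univ (Ioo (-(|lam x| + 1)) (|lam x| + 1))))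
          (t₀ := 0) (t := lam x) ⟨by linarith [abs_nonneg (lam x)], by positivity⟩
          ⟨by linarith [neg_abs_le (lam x)], by linarith [le_abs_self (lam x)]⟩
        rw [sub_zero, hN0] at this
        exact this
      have hkG : kap 𝒯 (G x t) =
          ex (t • bb r n (y x)) (ex (lam x • bb r n n1) (kap 𝒯 q0)) := by
        have := kap_flow 𝒯 ((hG x hx).mono c (subset_univ (Ioo (-1:ℝ) 2))) (t₀ := 0) (t := t)
          ⟨by norm_num, by norm_num⟩ ⟨by linarith [ht.1], by linarith [ht.2]⟩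
        rw [sub_zero, hG0 x hx, hkN] at this
        exact this
      rw [← hkG]
      exact Kf_curv 𝒯 hr hη hf hadG (hsurj _ hadG) ha _ _ _
  set X : ℝ → M × ((EuclideanSpace ℝ (Fin n)) →L[ℝ] E) := fun x => ((G x 1).1, (G x 1).2.comp (h x)) with hX
  have hXFG : FG c c0 X (Ioo (-ε) ε) := by
    intro x hx
    obtain ⟨g1, g2, g3, g4, -⟩ := hS x hx
    refine (hvel x hx 1 (right_mem_Icc.2 zero_le_one)).right c g3 g4 ?_
    simp
  have h0ε : (0:ℝ) ∈ Ioo (-ε) ε := ⟨by linarith, hε⟩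
  have hX0 : X 0 = U s := by
    have h1 : X 0 = G 0 1 := by
      simp only [hX, hh0]; rfl
    have h2 : FG c (τ • y0) (fun t => V (t - 1)) univ := (hV.shift 1).mono c fun t _ => mem_univ _
    have h3 := hG 0 h0ε
    rw [hyy0] at h3
    have h4 := FG.unique c isOpen_univ isPreconnected_univ h3 h2 (t₀ := 0) (t := 1) (mem_univ _)
      (mem_univ _) (by rw [hG0 0 h0ε, hlam0, hN0]; simp [hq0])
    rw [h1, h4, sub_self, hV0]
  refine ⟨s, ε, hs0, hs2.2, by linarith, fun t => X (t - s), by simp [hX0], ?_⟩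
  exact (hXFG.shift s).mono c fun t ht => ⟨by linarith [ht.1], by linarith [ht.2]⟩

include 𝒯 in
theorem complete_main [T2Space M] (hr : 0 < r) {η : (EuclideanSpace ℝ (Fin n)) →L[ℝ] (EuclideanSpace ℝ (Fin n)) →L[ℝ] ℝ}
    (hη : ∀ v, (∀ w, η v w = 0) → v = 0) {f : Fin n → (EuclideanSpace ℝ (Fin n))} (hf : ∀ d z, η (f d) z = z d)
    (hsurj : ∀ u : M × ((EuclideanSpace ℝ (Fin n)) →L[ℝ] E), Ad c η u → Function.Surjective u.2)
    {n1 y0 : (EuclideanSpace ℝ (Fin n))} {ℓ : (EuclideanSpace ℝ (Fin n)) → (EuclideanSpace ℝ (Fin n)) →L[ℝ] ℝ} (hℓ : ContDiffAt ℝ 1 ℓ y0) {δ : ℝ} (hδ : 0 < δ)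
    {Cc : (EuclideanSpace ℝ (Fin n)) → Prop}
    (hC : ∀ u : M × ((EuclideanSpace ℝ (Fin n)) →L[ℝ] E), Ad c η u → ∀ y, Cc y →
      ∃ U : ℝ → M × ((EuclideanSpace ℝ (Fin n)) →L[ℝ] E), U 0 = u ∧ FG c y U univ)
    (hn1 : ∀ u : M × ((EuclideanSpace ℝ (Fin n)) →L[ℝ] E), Ad c η u →
      ∃ U : ℝ → M × ((EuclideanSpace ℝ (Fin n)) →L[ℝ] E), U 0 = u ∧ FG c n1 U univ)
    (hstay : ∀ τ : ℝ, 0 < τ → ∀ ε : ℝ, 0 < ε → ∀ (y y' ct : ℝ → (EuclideanSpace ℝ (Fin n))) (lam' : ℝ → ℝ), y 0 = τ • y0 →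
      (∀ s ∈ Ioo (-ε) ε, HasDerivAt y (y' s) s ∧ ‖τ⁻¹ • y s - y0‖ ≤ δ ∧
        lam' s = ℓ (τ⁻¹ • y s) (ct s) ∧ y' s = ct s - lam' s • n1) →
      ∀ s ∈ Ioo (-ε) ε, Cc (y s))
    (hy0 : ∀ τ : ℝ, 0 < τ → Cc (τ • y0)) (c0 : (EuclideanSpace ℝ (Fin n))) (u0 : M × ((EuclideanSpace ℝ (Fin n)) →L[ℝ] E)) (hu0 : Ad c η u0) :
    ∃ U : ℝ → M × ((EuclideanSpace ℝ (Fin n)) →L[ℝ] E), U 0 = u0 ∧ FG c c0 U univ :=
  exists_global c (rext_main 𝒯 hr hη hf hsurj hℓ hδ hC hn1 hstay hy0 c0 u0 hu0)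
    (rext_main 𝒯 hr hη hf hsurj hℓ hδ hC hn1 hstay hy0 (-c0) u0 hu0)

end Pool.Agent.H660R4
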