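import Pool.Agent.H660R4.Bridge
set_option autoImplicit false
set_option linter.unusedSectionVars false
set_option linter.deprecated false
set_option synthInstance.maxHeartbeats 400000
set_option maxHeartbeats 4000000
open Set Filter Topology Metric
open scoped ContDiff NNReal Manifold

namespace Pool.Agent.H660R4

open Pool.Agent.H660R3

variable {n : ℕ} {M : Type*} [TopologicalSpace M] [ChartedSpace (EuclideanSpace ℝ (Fin n)) M]

/-! ### tensors -/

/-- monomials -/
noncomputable def Phi {m : ℕ} (i : Fin m → Fin n) :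
    ContinuousMultilinearMap ℝ (fun _ : Fin m => EuclideanSpace ℝ (Fin n)) ℝ :=
  (ContinuousMultilinearMap.mkPiAlgebra ℝ (Fin m) ℝ).compContinuousLinearMap
    (fun l => (EuclideanSpace.proj (i l) : EuclideanSpace ℝ (Fin n) →L[ℝ] ℝ))

/-- bundling of multilinear maps -/
noncomputable def mkC {m : ℕ} (L : MultilinearMap ℝ (fun _ : Fin m => (EuclideanSpace ℝ (Fin n))) ℝ) :
    ContinuousMultilinearMap ℝ (fun _ : Fin m => (EuclideanSpace ℝ (Fin n))) ℝ :=
  ∑ i : Fin m → Fin n, L (fun l => bas (i l)) • Phi i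

theorem mkC_apply {m : ℕ} (L : MultilinearMap ℝ (fun _ : Fin m => (EuclideanSpace ℝ (Fin n))) ℝ) (v : Fin m → (EuclideanSpace ℝ (Fin n))) :
    mkC L v = L v := by
  have h1 : v = fun l => ∑ j, v l j • bas j := by
    funext l
    rw [sum_bas (v l)]
  conv_rhs => rw [h1, L.map_sum]
  simp only [mkC, ContinuousMultilinearMap.sum_apply, ContinuousMultilinearMap.smul_apply, Phi,
    ContinuousMultilinearMap.compContinuousLinearMap_apply,
    ContinuousMultilinearMap.mkPiAlgebra_apply, smul_eq_mul, PiLp.proj_apply]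
  refine Finset.sum_congr rfl fun i _ => ?_
  rw [L.map_smul_univ, smul_eq_mul, mul_comm]

theorem cT_mkC {m : ℕ} (T : M → MultilinearMap ℝ (fun _ : Fin m => (EuclideanSpace ℝ (Fin n))) ℝ) (a : M) (y : (EuclideanSpace ℝ (Fin n))) :
    cT (fun p => mkC (T p)) a y =
      ∑ i : Fin m → Fin n, coordTensor T a y (fun l => bas (i l)) • Phi i := by
  set L : MultilinearMap ℝ (fun _ : Fin m => (EuclideanSpace ℝ (Fin n))) ℝ := (T ((chartAt (EuclideanSpace ℝ (Fin n)) a).symm y)).compLinearMap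
    (fun _ => (Jc a ((chartAt (EuclideanSpace ℝ (Fin n)) a).symm y) y : (EuclideanSpace ℝ (Fin n)) →ₗ[ℝ] (EuclideanSpace ℝ (Fin n)))) with hL
  have h1 : cT (fun p => mkC (T p)) a y = mkC L := by
    ext v
    rw [mkC_apply]
    simp only [cT, ContinuousMultilinearMap.compContinuousLinearMap_apply]
    rw [mkC_apply]
    rfl
  rw [h1]
  rfl

theorem cT_apply {m : ℕ} (T : M → MultilinearMap ℝ (fun _ : Fin m => (EuclideanSpace ℝ (Fin n))) ℝ) (a : M) (y : (EuclideanSpace ℝ (Fin n)))
    (v : Fin m → (EuclideanSpace ℝ (Fin n))) : cT (fun p => mkC (T p)) a y v = coordTensor T a y v := by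
  simp only [cT, ContinuousMultilinearMap.compContinuousLinearMap_apply]
  rw [mkC_apply]
  rfl

theorem cT_diff {m : ℕ} (T : TensorField n M m) (a : M) {y : (EuclideanSpace ℝ (Fin n))} (hy : y ∈ (chartAt (EuclideanSpace ℝ (Fin n)) a).target) :
    DifferentiableAt ℝ (cT (fun p => mkC (T.val p)) a) y := by
  have h : cT (fun p => mkC (T.val p)) a = fun y =>
      ∑ i : Fin m → Fin n, coordTensor T.val a y (fun l => bas (i l)) • Phi i :=
    funext fun y => cT_mkC T.val a y
  rw [h]
  refine DifferentiableAt.fun_sum fun i _ => ?_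
  refine DifferentiableAt.smul_const ?_ _
  exact ((T.smooth a _).contDiffAt ((chartAt (EuclideanSpace ℝ (Fin n)) a).open_target.mem_nhds hy)).differentiableAt
    (by norm_num)

variable [IsManifold 𝓘(ℝ, EuclideanSpace ℝ (Fin n)) ∞ M] (g : PseudoMetric n M)

theorem toTower {r : ℕ} (h : IsSymmetricOrder g r) : Nonempty (Tower (toLC g) r) := by
  obtain ⟨T, h0, h1, h2⟩ := h
  refine ⟨⟨fun k p => mkC ((T k).val p), fun k _ a y hy => cT_diff (T k) a hy, ?_, ?_, ?_⟩⟩
  · intro a y hy u v w z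
    have e1 : cT (fun p => mkC ((T 0).val p)) a y ![u, v, w, z] =
        coordTensor (T 0).val a y ![u, v, w, z] := cT_apply (T 0).val a y _
    rw [e1, h0 a y hy u v w z, riem_eq g hy]
    rfl
  · intro k _ a y hy u v
    have e1 : cT (fun p => mkC ((T (k + 1)).val p)) a y (Fin.cons u v : Fin (4 + k + 1) → (EuclideanSpace ℝ (Fin n))) =
        coordTensor (T (k + 1)).val a y (Fin.cons u v : Fin (4 + k + 1) → (EuclideanSpace ℝ (Fin n))) :=
      cT_apply (T (k + 1)).val a y _
    refine e1.trans ?_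
    refine (h1 k a y hy u v).trans ?_
    have e2 : fderiv ℝ (cT (fun p => mkC ((T k).val p)) a) y u v =
        dirD (fun z => coordTensor (T k).val a z v) y u := by
      rw [← fderiv_continuousMultilinear_apply_const_apply (cT_diff (T k) a hy)]
      simp only [cT_apply]
      rfl
    rw [e2]
    congr 1
    refine Finset.sum_congr rfl fun l _ => ?_
    rw [cT_apply, chr_eq g hy]
    rfl
  · intro p
    show mkC ((T r).val p) = 0
    ext v
    rw [mkC_apply, h2 p]; simp

/-! ### geodesics -/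

theorem inChart_contDiffAt {γ : ℝ → M} (hγ : ContMDiff 𝓘(ℝ, ℝ) (𝓡 n) ∞ γ) {a : M} {t : ℝ}
    (ha : γ t ∈ (chartAt (EuclideanSpace ℝ (Fin n)) a).source) : ContDiffAt ℝ ∞ (fun s => chartAt (EuclideanSpace ℝ (Fin n)) a (γ s)) t := by
  have h1 : ContMDiffAt (𝓡 n) 𝓘(ℝ, (EuclideanSpace ℝ (Fin n))) ∞ (chartAt (EuclideanSpace ℝ (Fin n)) a) (γ t) :=
    contMDiffAt_of_mem_maximalAtlas (IsManifold.chart_mem_maximalAtlas a) ha
  have h2 : ContMDiffAt 𝓘(ℝ, ℝ) 𝓘(ℝ, (EuclideanSpace ℝ (Fin n))) ∞ (fun s => chartAt (EuclideanSpace ℝ (Fin n)) a (γ s)) t :=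
    h1.comp t (hγ t)
  exact contMDiffAt_iff_contDiffAt.1 h2

theorem gc_of_geodesic {γ : ℝ → M} (hγ : IsGeodesic g γ) {p : M} {v : (EuclideanSpace ℝ (Fin n))} (h0 : γ 0 = p)
    (h1 : deriv (inChart γ 0) 0 = v) : GC (toLC g) p v := by
  obtain ⟨hs, hg⟩ := hγ
  refine ⟨fun t => (γ t, ContinuousLinearMap.toSpanSingleton ℝ (deriv (inChart (n := n) γ t) t)),
    by simp only [h0, h1], fun t _ => ⟨hs.continuous.continuousAt, ?_⟩⟩
  set a := γ t with ha
  have hat : γ t ∈ (chartAt (EuclideanSpace ℝ (Fin n)) a).source := mem_chart_source (EuclideanSpace ℝ (Fin n)) _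
  set c : ℝ → (EuclideanSpace ℝ (Fin n)) := inChart (n := n) γ t with hc
  have hcs : ContDiffAt ℝ ∞ c t := inChart_contDiffAt hs hat
  have hev : ∀ᶠ s in 𝓝 t, γ s ∈ (chartAt (EuclideanSpace ℝ (Fin n)) a).source :=
    hs.continuous.continuousAt.eventually_mem ((chartAt (EuclideanSpace ℝ (Fin n)) a).open_source.mem_nhds hat)
  have hco : (fun s => co a ((γ s, ContinuousLinearMap.toSpanSingleton ℝ
      (deriv (inChart (n := n) γ s) s)) : M × (ℝ →L[ℝ] (EuclideanSpace ℝ (Fin n))))) =ᶠ[𝓝 t]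
      fun s => (c s, ContinuousLinearMap.toSpanSingleton ℝ (deriv c s)) := by
    filter_upwards [hev] with s hs1
    refine Prod.ext rfl ?_
    ext
    simp only [co, ContinuousLinearMap.comp_apply, ContinuousLinearMap.toSpanSingleton_apply,
      one_smul]
    have hss : γ s ∈ (chartAt (EuclideanSpace ℝ (Fin n)) (γ s)).source := mem_chart_source (EuclideanSpace ℝ (Fin n)) _
    have hd : HasDerivAt (inChart (n := n) γ s) (deriv (inChart (n := n) γ s) s) s :=
      ((inChart_contDiffAt hs hss).differentiableAt (by norm_num)).hasDerivAt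
    have htr : DifferentiableAt ℝ (tr (γ s) a) (inChart (n := n) γ s s) :=
      (tr_contDiffAt (a := γ s) (b := a) hss hs1).differentiableAt (by norm_num)
    have h5 := comp_fd (l := tr (γ s) a) (x := inChart (n := n) γ s) htr hd
    have hev2 : (fun x => tr (γ s) a (inChart (n := n) γ s x)) =ᶠ[𝓝 s] c := by
      have : ∀ᶠ x in 𝓝 s, γ x ∈ (chartAt (EuclideanSpace ℝ (Fin n)) (γ s)).source :=
        hs.continuous.continuousAt.eventually_mem ((chartAt (EuclideanSpace ℝ (Fin n)) (γ s)).open_source.mem_nhds hss)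
      filter_upwards [this] with x hx
      exact tr_apply hx
    rw [← hev2.deriv_eq, h5.deriv]
    rfl
  have hct := hco.self_of_nhds
  simp only at hct
  have hdc : ∀ᶠ s in 𝓝 t, ContDiffAt ℝ 1 c s := (hcs.of_le (by norm_cast)).eventually (by simp)
  have h2 : HasDerivAt c (deriv c t) t := (hcs.differentiableAt (by norm_num)).hasDerivAt
  have h3 : HasDerivAt (deriv c) (deriv (deriv c) t) t := by
    have h4 : ContDiffAt ℝ ∞ (fderiv ℝ c) t := hcs.fderiv_right (by norm_num)
    have h5 : DifferentiableAt ℝ (deriv c) t := by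
      have h6 : deriv c = fun s => fderiv ℝ c s 1 := rfl
      rw [h6]
      exact (h4.differentiableAt (by norm_num)).clm_apply (differentiableAt_const _)
    exact h5.hasDerivAt
  have h7 : HasDerivAt (fun s => (c s, ContinuousLinearMap.toSpanSingleton ℝ (deriv c s)))
      (deriv c t, ContinuousLinearMap.toSpanSingleton ℝ (deriv (deriv c) t)) t := by
    refine h2.prodMk ?_
    have h8 : (fun s => ContinuousLinearMap.toSpanSingleton ℝ (deriv c s)) =
        fun s => (ContinuousLinearMap.toSpanSingletonCLE (𝕜 := ℝ) (E := (EuclideanSpace ℝ (Fin n)))) (deriv c s) := by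
      rfl
    rw [h8]
    exact ((ContinuousLinearMap.toSpanSingletonCLE (𝕜 := ℝ) (E := (EuclideanSpace ℝ (Fin n)))) :
      (EuclideanSpace ℝ (Fin n)) →L[ℝ] (ℝ →L[ℝ] (EuclideanSpace ℝ (Fin n)))).hasFDerivAt.comp_hasDerivAt t h3
  refine (h7.congr_of_eventuallyEq hco).congr_deriv ?_
  show _ = vel ((toLC g).Γ a (co a ((γ t, ContinuousLinearMap.toSpanSingleton ℝ
      (deriv (inChart (n := n) γ t) t)) : M × (ℝ →L[ℝ] (EuclideanSpace ℝ (Fin n))))).1) (co a ((γ t,
      ContinuousLinearMap.toSpanSingleton ℝ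
      (deriv (inChart (n := n) γ t) t)) : M × (ℝ →L[ℝ] (EuclideanSpace ℝ (Fin n))))).2 1 0
  rw [hct]
  have hy : c t ∈ (chartAt (EuclideanSpace ℝ (Fin n)) a).target := (chartAt (EuclideanSpace ℝ (Fin n)) a).map_source hat
  have h9 := hg t
  rw [chr_eq g hy] at h9
  have h10 : deriv (deriv c) t = - PΓ g a (c t) (deriv c t) (deriv c t) := eq_neg_of_add_eq_zero_left h9
  refine Prod.ext ?_ ?_
  · simp [vel]
  · ext
    simp only [vel, ContinuousLinearMap.comp_zero, zero_sub, ContinuousLinearMap.neg_apply,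
      ContinuousLinearMap.comp_apply, ContinuousLinearMap.toSpanSingleton_apply, one_smul, h10]
    rfl

theorem geodesic_of_gc {p : M} {v : (EuclideanSpace ℝ (Fin n))} (h : GC (toLC g) p v) :
    ∃ γ : ℝ → M, IsGeodesic g γ ∧ γ 0 = p ∧ deriv (inChart γ 0) 0 = v := by
  obtain ⟨V, hV0, hV⟩ := h
  have hcont : Continuous fun t => (V t).1 :=
    continuous_iff_continuousAt.2 fun t => (hV t (mem_univ _)).1
  have hin : ∀ t : ℝ, inChart (n := n) (fun t => (V t).1) t = fun s => (co (V t).1 (V s)).1 :=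
    fun t => rfl
  have hsrc : ∀ t : ℝ, (V t).1 ∈ (chartAt (EuclideanSpace ℝ (Fin n)) (V t).1).source := fun t => mem_chart_source (EuclideanSpace ℝ (Fin n)) _
  have hev : ∀ t : ℝ, ∀ᶠ s in 𝓝 t, (V s).1 ∈ (chartAt (EuclideanSpace ℝ (Fin n)) (V t).1).source := fun t =>
    hcont.continuousAt.eventually_mem ((chartAt (EuclideanSpace ℝ (Fin n)) (V t).1).open_source.mem_nhds (hsrc t))
  have hd1 : ∀ t : ℝ, ∀ᶠ s in 𝓝 t, deriv (inChart (n := n) (fun t => (V t).1) t) s =
      (co (V t).1 (V s)).2 1 := by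
    intro t
    filter_upwards [hev t] with s hs
    rw [hin]
    exact (hd_fst ((hV s (mem_univ _)).hasCo _ hs)).deriv
  refine ⟨fun t => (V t).1, ⟨?_, ?_⟩, by simp [hV0], ?_⟩
  · intro t
    set a := (V t).1 with ha
    have hsm : ContDiffAt ℝ ∞ (fun s => chartAt (EuclideanSpace ℝ (Fin n)) a (V s).1) t := by
      obtain ⟨δ, hδ, hball⟩ := Metric.nhds_basis_closedBall.mem_iff.1 (hev t)
      rw [Real.closedBall_eq_Icc] at hball
      have h1 : ContDiffOn ℝ ∞ (fun s => (co a (V s), (1:ℝ))) (Icc (t - δ) (t + δ)) := by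
        refine ODE.contDiffOn_enat_Icc_of_hasDerivWithinAt (n := ⊤) (f := fun _ => vf (toLC g) a)
          (u := {z : ((EuclideanSpace ℝ (Fin n)) × (ℝ →L[ℝ] (EuclideanSpace ℝ (Fin n)))) × ℝ | z.1.1 ∈ (chartAt (EuclideanSpace ℝ (Fin n)) a).target}) ?_ ?_ ?_
        · exact (vf_contDiffOn (toLC g) a).comp contDiff_snd.contDiffOn fun z hz => hz.2
        · intro s hs
          exact ((hV s (mem_univ _)).hasVf _ (hball hs)).hasDerivWithinAt
        · intro s hs
          exact (chartAt (EuclideanSpace ℝ (Fin n)) a).map_source (hball hs)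
      have h2 : ContDiffAt ℝ ∞ (fun s => (co a (V s), (1:ℝ))) t :=
        h1.contDiffAt (Icc_mem_nhds (by linarith) (by linarith))
      exact contDiffAt_fst.comp t (contDiffAt_fst.comp t h2)
    rw [contMDiffAt_iff]
    refine ⟨hcont.continuousAt, ?_⟩
    simp only [mfld_simps]
    exact hsm.contDiffWithinAt
  · intro t
    have hz := (hV t (mem_univ _)).hasCo _ (hsrc t)
    have h1 : deriv (deriv (inChart (n := n) (fun t => (V t).1) t)) t =
        -(PΓ g (V t).1 (co (V t).1 (V t)).1 ((co (V t).1 (V t)).2 1)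
          ((co (V t).1 (V t)).2 1)) := by
      have hde : deriv (inChart (n := n) (fun t => (V t).1) t) =ᶠ[𝓝 t]
        fun s => (co (V t).1 (V s)).2 1 := hd1 t
      rw [hde.deriv_eq]
      have h2 := (hd_snd hz).clm_apply (hasDerivAt_const t (1:ℝ))
      rw [h2.deriv]
      simp [vel]
      rfl
    have hy : (co (V t).1 (V t)).1 ∈ (chartAt (EuclideanSpace ℝ (Fin n)) (V t).1).target :=
      (chartAt (EuclideanSpace ℝ (Fin n)) (V t).1).map_source (hsrc t)
    show deriv (deriv (inChart (n := n) (fun t => (V t).1) t)) t +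
      chr (coordForm g.val (V t).1) (co (V t).1 (V t)).1
        (deriv (inChart (n := n) (fun t => (V t).1) t) t)
        (deriv (inChart (n := n) (fun t => (V t).1) t) t) = 0
    rw [(hd1 t).self_of_nhds, h1, chr_eq g hy]
    simp
  · rw [(hd1 0).self_of_nhds, hV0]
    simp only [co, ContinuousLinearMap.comp_apply, ContinuousLinearMap.toSpanSingleton_apply,
      one_smul]
    rw [Jc_self (mem_chart_source (EuclideanSpace ℝ (Fin n)) p)]
    rfl

theorem complete_of_gc (h : ∀ (p : M) (v : (EuclideanSpace ℝ (Fin n))), GC (toLC g) p v) (P : ℝ → Prop) :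
    CompleteFor g P := fun p v _ _ => geodesic_of_gc g (h p v)

/-- **Main theorem.** -/
theorem main [T2Space M] (hind : g.Indefinite) {r : ℕ} (hr : 1 ≤ r) (hs : IsSymmetricOrder g r) :
    (TimelikeComplete g → GeodesicallyComplete g) ∧
    (LightlikeComplete g → GeodesicallyComplete g) ∧
    (SpacelikeComplete g → GeodesicallyComplete g) := by
  obtain ⟨𝒯⟩ := toTower g hs
  refine ⟨fun h => complete_of_gc g ?_ _, fun h => complete_of_gc g ?_ _,
    fun h => complete_of_gc g ?_ _⟩
  · refine full_of_sign 𝒯 hr (σ := -1) (fun x v hv => ?_) fun x => ?_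
    · rw [toLC_g] at hv
      have hv' : g.val x v v < 0 := by linarith
      have hne : v ≠ 0 := by
        rintro rfl
        have := ((g.symBil x).1 0).map_zero
        rw [this] at hv'; exact lt_irrefl _ hv'
      obtain ⟨γ, h1, h2, h3⟩ := h x v hne hv'
      exact gc_of_geodesic g h1 h2 h3
    · obtain ⟨v, hv⟩ := (hind x).1
      exact ⟨v, by rw [toLC_g]; linarith⟩
  · refine full_of_null 𝒯 hr (fun x v w => ?_) (fun x v hne hv => ?_) (fun x => ?_) fun x => ?_
    · rw [toLC_g, toLC_g]; exact (g.symBil x).2 v w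
    · rw [toLC_g] at hv
      obtain ⟨γ, h1, h2, h3⟩ := h x v hne hv
      exact gc_of_geodesic g h1 h2 h3
    · obtain ⟨v, hv⟩ := (hind x).1
      exact ⟨v, by rw [toLC_g]; exact hv⟩
    · obtain ⟨v, hv⟩ := (hind x).2
      exact ⟨v, by rw [toLC_g]; exact hv⟩
  · refine full_of_sign 𝒯 hr (σ := 1) (fun x v hv => ?_) fun x => ?_
    · rw [toLC_g, one_mul] at hv
      have hne : v ≠ 0 := by
        rintro rfl
        have := ((g.symBil x).1 0).map_zero
        rw [this] at hv; exact lt_irrefl _ hv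
      obtain ⟨γ, h1, h2, h3⟩ := h x v hne hv
      exact gc_of_geodesic g h1 h2 h3
    · obtain ⟨v, hv⟩ := (hind x).2
      exact ⟨v, by rw [toLC_g, one_mul]; exact hv⟩

end Pool.Agent.H660R4
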