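import Pool.Agent.H660R4.Curve
set_option autoImplicit false
set_option linter.unusedSectionVars false
set_option linter.deprecated false
open Set Filter Topology Metric
open scoped ContDiff NNReal Manifold

namespace Pool.Agent.H660R4

variable {E : Type*} [NormedAddCommGroup E] [NormedSpace ℝ E] [FiniteDimensional ℝ E]
  {M : Type*} [TopologicalSpace M] [ChartedSpace E M] [IsManifold 𝓘(ℝ, E) ∞ M]
  {W : Type*} [NormedAddCommGroup W] [NormedSpace ℝ W] [FiniteDimensional ℝ W]
  {W' : Type*} [NormedAddCommGroup W'] [NormedSpace ℝ W'] [FiniteDimensional ℝ W']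
  (c : LC E M)

theorem FG.right {y : W} {U : ℝ → M × (W →L[ℝ] E)} {I : Set ℝ} (h : FG c y U I)
    (j : W' →L[ℝ] W) {y' : W'} (hy : y = j y') :
    FG c y' (fun s => ((U s).1, (U s).2.comp j)) I := fun t ht =>
  (h t ht).right c (j := fun _ => j) (j' := 0) (hasDerivAt_const t j) hy (by simp)

theorem co_right (a : M) (u : M × (W →L[ℝ] E)) (j : W' →L[ℝ] W) :
    co a (u.1, u.2.comp j) = ((co a u).1, (co a u).2.comp j) := by
  simp [co, ContinuousLinearMap.comp_assoc]

theorem rext_frame [T2Space M] {y : W} {V : ℝ → M × (W →L[ℝ] E)} (hV : FG c y V univ)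
    (F₀ : W' →L[ℝ] E) : RExt c ((y, 0) : W × W') ((V 0).1, (V 0).2.coprod F₀) := by
  intro T hT U hU0 hU
  have hUV : ∀ t ∈ Ioo (-T) T, ((U t).1, (U t).2.comp (ContinuousLinearMap.inl ℝ W W')) = V t := by
    intro t ht
    refine FG.unique c isOpen_Ioo isPreconnected_Ioo
      (hU.right c (ContinuousLinearMap.inl ℝ W W') (y' := y) (by simp))
      (hV.mono c (subset_univ _)) (t₀ := 0) ⟨by linarith, hT⟩ ht ?_
    simp [hU0]
  set a := (V T).1 with ha
  have haT : (V T).1 ∈ (chartAt E a).source := mem_chart_source E _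
  set u : M × (W × W' →L[ℝ] E) := ((V T).1, (V T).2.coprod 0) with hu
  obtain ⟨B⟩ := flowBox_at c a (u := u) haT ((y, 0) : W × W')
  set ext0 : E × (W →L[ℝ] E) → (E × (W × W' →L[ℝ] E)) := fun p => (p.1, p.2.coprod 0) with hext0
  have hext0' : ext0 = fun p => (p.1, p.2.comp (ContinuousLinearMap.fst ℝ W W')) := by
    funext p; refine Prod.ext rfl ?_; ext w <;> simp [hext0]
  have hcont : Continuous ext0 := by
    rw [hext0']
    exact continuous_fst.prodMk (continuous_snd.clm_comp continuous_const)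
  have hcou : co a u = ext0 (co a (V T)) := by
    rw [hext0']
    have : u = ((V T).1, (V T).2.comp (ContinuousLinearMap.fst ℝ W W')) := by
      refine Prod.ext rfl ?_; ext w <;> simp [hu]
    rw [this, co_right]
  have h1 : Tendsto (fun s => ext0 (co a (V s))) (𝓝 T) (𝓝 (co a u)) := by
    rw [hcou]
    exact (hcont.tendsto _).comp ((hV T (mem_univ _)).contCo c haT)
  have h2 := h1.eventually (ball_mem_nhds (co a u) (half_pos B.hr))
  have h3 := eventually_source (hV T (mem_univ _)).1 haT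
  have h4 : ∀ᶠ s in 𝓝[<] T, s ∈ Ioo (max 0 (T - B.ε)) T :=
    Ioo_mem_nhdsLT (max_lt hT (by linarith [B.hε]))
  obtain ⟨s, ⟨hs2, hs3⟩, hs4⟩ := (((h2.and h3).filter_mono nhdsWithin_le_nhds).and h4).exists
  have hs0 : 0 < s := (le_max_left _ _).trans_lt hs4.1
  have hsε : T - B.ε < s := (le_max_right _ _).trans_lt hs4.1
  have hUs := hUV s ⟨by linarith, hs4.2⟩
  have hUs1 : (U s).1 = (V s).1 := congrArg Prod.fst hUs
  -- scaling
  set jj : ℝ → (W × W' →L[ℝ] W × W') := fun θ =>
    (ContinuousLinearMap.id ℝ W).prodMap (θ • ContinuousLinearMap.id ℝ W') with hjj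
  have hjc : Continuous jj := by
    have : jj = fun θ => (ContinuousLinearMap.fst ℝ W W').prod
        (θ • ContinuousLinearMap.snd ℝ W W') := by
      funext θ; ext w <;> simp [hjj]
    rw [this]
    have h5 : (fun θ : ℝ => (ContinuousLinearMap.fst ℝ W W').prod
        (θ • ContinuousLinearMap.snd ℝ W W')) =
        fun θ : ℝ => (ContinuousLinearMap.inl ℝ W W').comp (ContinuousLinearMap.fst ℝ W W') +
          θ • (ContinuousLinearMap.inr ℝ W W').comp (ContinuousLinearMap.snd ℝ W W') := by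
      funext θ; ext w <;> simp
    rw [h5]
    exact continuous_const.add (continuous_id.smul continuous_const)
  set zz : ℝ → E × (W × W' →L[ℝ] E) := fun θ => ((co a (U s)).1, (co a (U s)).2.comp (jj θ)) with hzz
  have hzc : Tendsto zz (𝓝 0) (𝓝 (zz 0)) :=
    (continuous_const.prodMk (continuous_const.clm_comp hjc)).tendsto 0
  have hz0 : zz 0 = ext0 (co a (V s)) := by
    rw [hext0']
    simp only [hzz]
    rw [← hUs, co_right]
    refine Prod.ext rfl ?_
    simp only [ContinuousLinearMap.comp_assoc]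
    congr 1
    ext w <;> simp [hjj]
  have h6 := hzc.eventually (ball_mem_nhds (zz 0) (half_pos B.hr))
  have h7 : ∀ᶠ θ in 𝓝[>] (0:ℝ), θ ∈ Ioi (0:ℝ) := eventually_mem_nhdsWithin
  obtain ⟨θ, hθ, hθ0⟩ := ((h6.filter_mono nhdsWithin_le_nhds).and h7).exists
  simp only [mem_Ioi] at hθ0
  have hzr : (zz θ, ((y, 0) : W × W')) ∈ closedBall (co a u, ((y, 0) : W × W')) B.r := by
    rw [mem_closedBall, Prod.dist_eq, dist_self, max_le_iff]
    refine ⟨?_, B.hr.le⟩
    have e1 : dist (zz θ) (zz 0) < B.r / 2 := hθ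
    have e2 : dist (zz 0) (co a u) < B.r / 2 := by rw [hz0]; exact hs2
    have := dist_triangle (zz θ) (zz 0) (co a u)
    linarith
  obtain ⟨V1, hV1, hV1', -⟩ := B.fg c s hzr
  refine ⟨s, B.ε, hs0, hs4.2, by linarith, fun t => ((V1 t).1, (V1 t).2.comp (jj θ⁻¹)), ?_,
    hV1'.right c (jj θ⁻¹) (by simp [hjj])⟩
  have hli : li a (zz θ) = ((U s).1, (U s).2.comp (jj θ)) := by
    have : zz θ = co a ((U s).1, (U s).2.comp (jj θ)) := (co_right a (U s) (jj θ)).symm
    rw [this, li_co (by simpa [hUs1] using hs3)]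
  have hjj1 : (jj θ).comp (jj θ⁻¹) = ContinuousLinearMap.id ℝ _ := by
    ext w <;> simp [hjj, hθ0.ne']
  show ((V1 s).1, (V1 s).2.comp (jj θ⁻¹)) = U s
  rw [hV1, hli]
  simp only [ContinuousLinearMap.comp_assoc, hjj1]
  rfl

theorem exists_frame [T2Space M] {y : W} {V : ℝ → M × (W →L[ℝ] E)} (hV : FG c y V univ)
    (F₀ : W' →L[ℝ] E) : ∃ U : ℝ → M × (W × W' →L[ℝ] E), U 0 = ((V 0).1, (V 0).2.coprod F₀) ∧
      FG c ((y, 0) : W × W') U univ := by
  refine exists_global c (rext_frame c hV F₀) ?_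
  have h := (hV.neg c).mono c (I' := univ) (fun t _ => mem_univ _)
  have := rext_frame c h F₀
  simpa using this

/-- geodesic completeness in one direction, with `W = ℝ` -/
def GC (x : M) (v : E) : Prop :=
  ∃ V : ℝ → M × (ℝ →L[ℝ] E), V 0 = (x, ContinuousLinearMap.toSpanSingleton ℝ v) ∧
    FG c (1 : ℝ) V univ

theorem GC.frame [T2Space M] {x : M} {F : W →L[ℝ] E} {y : W} (h : GC c x (F y)) :
    ∃ U : ℝ → M × (W →L[ℝ] E), U 0 = (x, F) ∧ FG c y U univ := by
  by_cases hy : y = 0
  · refine ⟨fun _ => (x, F), rfl, fun t _ => ⟨continuousAt_const, ?_⟩⟩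
    have : vel (c.Γ x (co x (x, F)).1) (co x (x, F)).2 y 0 = 0 := by
      subst hy
      ext <;> simp [vel]
    rw [this]
    exact hasDerivAt_const t _
  · obtain ⟨V, hV0, hV⟩ := h
    obtain ⟨θ, hθ⟩ := SeparatingDual.exists_eq_one (R := ℝ) hy
    obtain ⟨U, hU0, hU⟩ := exists_frame c hV F
    refine ⟨_, ?_, hU.right c (θ.prod (ContinuousLinearMap.id ℝ W - θ.smulRight y)) (y' := y)
      (by simp [hθ])⟩
    simp only [hU0, hV0]
    refine Prod.ext rfl ?_
    ext w
    simp

/-! ### the metric along framed geodesics -/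

/-- `u` is a frame in which the metric is `η` -/
def Ad (η : W →L[ℝ] W →L[ℝ] ℝ) (u : M × (W →L[ℝ] E)) : Prop :=
  ∀ v w, c.g u.1 (u.2 v) (u.2 w) = η v w

theorem g_co {a : M} {u : M × (W →L[ℝ] E)} (ha : u.1 ∈ (chartAt E a).source) (v w : W) :
    c.G a (co a u).1 ((co a u).2 v) ((co a u).2 w) = c.g u.1 (u.2 v) (u.2 w) := by
  rw [c.hg, c.hG u.1 a u.1 (mem_chart_source E _) ha]
  simp [co]

theorem FG.ad {η : W →L[ℝ] W →L[ℝ] ℝ} {y : W} {U : ℝ → M × (W →L[ℝ] E)} {I : Set ℝ}
    (hI : IsOpen I) (hI' : IsPreconnected I) (hU : FG c y U I) {t₀ t : ℝ} (h0 : t₀ ∈ I)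
    (ht : t ∈ I) (h : Ad c η (U t₀)) : Ad c η (U t) := by
  intro v w
  have hd : ∀ s ∈ I, HasDerivAt (fun s => c.g (U s).1 ((U s).2 v) ((U s).2 w)) 0 s := by
    intro s hs
    set a := (U s).1 with ha
    have has : (U s).1 ∈ (chartAt E a).source := mem_chart_source E _
    have hev : (fun s => c.g (U s).1 ((U s).2 v) ((U s).2 w)) =ᶠ[𝓝 s]
        fun s => c.G a (co a (U s)).1 ((co a (U s)).2 v) ((co a (U s)).2 w) := by
      filter_upwards [eventually_source (hU s hs).1 has] with x hx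
      exact (g_co c hx v w).symm
    refine HasDerivAt.congr_of_eventuallyEq ?_ hev
    have hz := (hU s hs).hasCo c has
    have h1 := hd_fst hz
    have h2 := hd_snd hz
    have htar : (co a (U s)).1 ∈ (chartAt E a).target := (chartAt E a).map_source has
    have h3 : HasDerivAt (fun s => c.G a (co a (U s)).1)
        (fderiv ℝ (c.G a) (co a (U s)).1 (vel (c.Γ a (co a (U s)).1) (co a (U s)).2 y 0).1) s :=
      HasFDerivAt.comp_hasDerivAt (l := c.G a) (l' := fderiv ℝ (c.G a) (co a (U s)).1) s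
        (c.dG a _ htar).hasFDerivAt h1
    have h4 := h2.clm_apply (hasDerivAt_const s v)
    have h5 := h2.clm_apply (hasDerivAt_const s w)
    refine ((h3.clm_apply h4).clm_apply h5).congr_deriv ?_
    simp only [vel, map_zero, add_zero, ContinuousLinearMap.comp_zero, zero_sub,
      ContinuousLinearMap.neg_apply, ContinuousLinearMap.comp_apply, ContinuousLinearMap.add_apply,
      map_neg]
    rw [c.compat a _ htar]
    ring
  rw [← h v w]
  exact hI.is_const_of_deriv_eq_zero hI'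
    (fun s hs => (hd s hs).differentiableAt.differentiableWithinAt)
    (fun s hs => (hd s hs).deriv) ht h0

theorem Ad.inj {η : W →L[ℝ] W →L[ℝ] ℝ} (hη : ∀ v, (∀ w, η v w = 0) → v = 0)
    {u : M × (W →L[ℝ] E)} (h : Ad c η u) : Function.Injective u.2 := by
  rw [injective_iff_map_eq_zero]
  intro v hv
  refine hη v fun w => ?_
  rw [← h v w, hv]; simp

end Pool.Agent.H660R4
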