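import Pool.Agent.H660R4.Ana
set_option autoImplicit false
set_option linter.unusedSectionVars false
set_option linter.deprecated false
set_option synthInstance.maxHeartbeats 400000
set_option maxHeartbeats 4000000
open Set Filter Topology Metric
open scoped ContDiff NNReal

namespace Pool.Agent.H660R4

theorem norm_emb {X Y : Type*} [NormedAddCommGroup X] [NormedAddCommGroup Y] (x y : X) :
    ‖((x, (0:Y)) - (y, (0:Y)) : X × Y)‖ = ‖x - y‖ := by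
  have e : ((x, (0:Y)) - (y, (0:Y)) : X × Y) = (x - y, 0) := Prod.ext rfl (sub_zero _)
  rw [e, Prod.norm_mk, norm_zero, max_eq_left (norm_nonneg _)]

section S
variable {D : Type*} [NormedAddCommGroup D] [NormedSpace ℝ D] [FiniteDimensional ℝ D]
  {W : Type*} [NormedAddCommGroup W] [NormedSpace ℝ W] [FiniteDimensional ℝ W]

/-- rank one operator -/
noncomputable def Pr (n1 : W) (l : W →L[ℝ] ℝ) : W →L[ℝ] W := l.smulRight n1

/-- the vector field of the Jacobi equation, constant part -/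
noncomputable def g0 (b : W →L[ℝ] D →L[ℝ] D) (K : D → W → W →L[ℝ] W →L[ℝ] W) (n1 : W)
    (ℓ : W → W →L[ℝ] ℝ) (z : (D × W) × ((W →L[ℝ] W) × (W →L[ℝ] W →L[ℝ] W))) :
    (D × W) × ((W →L[ℝ] W) × (W →L[ℝ] W →L[ℝ] W)) :=
  ((b z.1.2 z.1.1, 0), (z.2.2.flip z.1.2, (K z.1.1 z.1.2).comp (Pr n1 (ℓ z.1.2) + z.2.1)))

/-- the vector field of the Jacobi equation, part linear in `t` -/
noncomputable def g1 (K : D → W → W →L[ℝ] W →L[ℝ] W) (n1 : W)
    (ℓ : W → W →L[ℝ] ℝ) (z : (D × W) × ((W →L[ℝ] W) × (W →L[ℝ] W →L[ℝ] W))) :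
    (D × W) × ((W →L[ℝ] W) × (W →L[ℝ] W →L[ℝ] W)) :=
  ((0, 0), (0, (K z.1.1 z.1.2).comp (ContinuousLinearMap.id ℝ W - Pr n1 (ℓ z.1.2))))

theorem Pr_contDiffAt {X : Type*} [NormedAddCommGroup X] [NormedSpace ℝ X] (n1 : W)
    {l : X → W →L[ℝ] ℝ} {x : X} (hl : ContDiffAt ℝ 1 l x) :
    ContDiffAt ℝ 1 (fun z => Pr n1 (l z)) x :=
  hl.smulRight contDiffAt_const

theorem g0_contDiffAt (b : W →L[ℝ] D →L[ℝ] D) (K : D → W → W →L[ℝ] W →L[ℝ] W) (n1 : W)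
    {ℓ : W → W →L[ℝ] ℝ} {z : (D × W) × ((W →L[ℝ] W) × (W →L[ℝ] W →L[ℝ] W))}
    (hK0 : ContDiff ℝ 1 (fun z : D × W => K z.1 z.2))
    (hℓ : ContDiffAt ℝ 1 ℓ z.1.2) : ContDiffAt ℝ 1 (g0 b K n1 ℓ) z := by
  have hκ : ContDiff ℝ 1 (fun z : (D × W) × ((W →L[ℝ] W) × (W →L[ℝ] W →L[ℝ] W)) => z.1.1) :=
    contDiff_fst.comp contDiff_fst
  have hy : ContDiff ℝ 1 (fun z : (D × W) × ((W →L[ℝ] W) × (W →L[ℝ] W →L[ℝ] W)) => z.1.2) :=
    contDiff_snd.comp contDiff_fst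
  have hA : ContDiff ℝ 1 (fun z : (D × W) × ((W →L[ℝ] W) × (W →L[ℝ] W →L[ℝ] W)) => z.2.1) :=
    contDiff_fst.comp contDiff_snd
  have hB : ContDiff ℝ 1 (fun z : (D × W) × ((W →L[ℝ] W) × (W →L[ℝ] W →L[ℝ] W)) => z.2.2) :=
    contDiff_snd.comp contDiff_snd
  have hl : ContDiffAt ℝ 1 (fun z : (D × W) × ((W →L[ℝ] W) × (W →L[ℝ] W →L[ℝ] W)) => ℓ z.1.2) z :=
    ContDiffAt.comp z (g := ℓ) hℓ hy.contDiffAt
  have hBf : ContDiff ℝ 1 (fun z : (D × W) × ((W →L[ℝ] W) × (W →L[ℝ] W →L[ℝ] W)) =>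
      z.2.2.flip z.1.2) := by
    have h := (ContinuousLinearMap.flipₗᵢ ℝ W W W).contDiff (n := 1)
    have h2 := (h.comp hB).clm_apply hy
    exact h2
  have hK : ContDiff ℝ 1 (fun z : (D × W) × ((W →L[ℝ] W) × (W →L[ℝ] W →L[ℝ] W)) =>
      K z.1.1 z.1.2) := hK0.comp (hκ.prodMk hy)
  have hb : ContDiff ℝ 1 (fun z : (D × W) × ((W →L[ℝ] W) × (W →L[ℝ] W →L[ℝ] W)) =>
      b z.1.2 z.1.1) := (b.contDiff.comp hy).clm_apply hκ
  exact (hb.contDiffAt.prodMk contDiffAt_const).prodMk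
    (hBf.contDiffAt.prodMk (hK.contDiffAt.clm_comp ((Pr_contDiffAt n1 hl).add hA.contDiffAt)))

theorem g1_contDiffAt (K : D → W → W →L[ℝ] W →L[ℝ] W) (n1 : W)
    {ℓ : W → W →L[ℝ] ℝ} {z : (D × W) × ((W →L[ℝ] W) × (W →L[ℝ] W →L[ℝ] W))}
    (hK0 : ContDiff ℝ 1 (fun z : D × W => K z.1 z.2))
    (hℓ : ContDiffAt ℝ 1 ℓ z.1.2) : ContDiffAt ℝ 1 (g1 K n1 ℓ) z := by
  have hκ : ContDiff ℝ 1 (fun z : (D × W) × ((W →L[ℝ] W) × (W →L[ℝ] W →L[ℝ] W)) => z.1.1) :=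
    contDiff_fst.comp contDiff_fst
  have hy : ContDiff ℝ 1 (fun z : (D × W) × ((W →L[ℝ] W) × (W →L[ℝ] W →L[ℝ] W)) => z.1.2) :=
    contDiff_snd.comp contDiff_fst
  have hl : ContDiffAt ℝ 1 (fun z : (D × W) × ((W →L[ℝ] W) × (W →L[ℝ] W →L[ℝ] W)) => ℓ z.1.2) z :=
    ContDiffAt.comp z (g := ℓ) hℓ hy.contDiffAt
  have hK : ContDiff ℝ 1 (fun z : (D × W) × ((W →L[ℝ] W) × (W →L[ℝ] W →L[ℝ] W)) =>
      K z.1.1 z.1.2) := hK0.comp (hκ.prodMk hy)
  exact contDiffAt_const.prodMk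
    (contDiffAt_const.prodMk (hK.contDiffAt.clm_comp (contDiffAt_const.sub (Pr_contDiffAt n1 hl))))

/-- Solutions of the Jacobi equation in a small direction, depending in a Lipschitz way on the data. -/
theorem jacobi (b : W →L[ℝ] D →L[ℝ] D) (K : D → W → W →L[ℝ] W →L[ℝ] W) (n1 y0 : W)
    {ℓ : W → W →L[ℝ] ℝ} (hK0 : ContDiff ℝ 1 (fun z : D × W => K z.1 z.2))
    (hK1 : ∀ (κ : D) (τ : ℝ) (y : W), K κ (τ • y) = τ • K κ y) (hℓ : ContDiffAt ℝ 1 ℓ y0)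
    (κs : D) :
    ∃ τ0 : ℝ, 0 < τ0 ∧ ∃ r : ℝ, 0 < r ∧ ∀ τ : ℝ, 0 < τ → τ < τ0 →
      ∃ (A : D × W → ℝ → W →L[ℝ] W) (B : D × W → ℝ → W →L[ℝ] W →L[ℝ] W),
        (∃ L : ℝ≥0, ∀ x ∈ closedBall (κs, y0) r, ∀ x' ∈ closedBall (κs, y0) r,
          ‖(A x 1, B x 1) - (A x' 1, B x' 1)‖ ≤ L * ‖x - x'‖) ∧
        ∀ x ∈ closedBall (κs, y0) r, A x 0 = Pr n1 (ℓ x.2) ∧ B x 0 = 0 ∧
          ‖A x 1 - ContinuousLinearMap.id ℝ W‖ ≤ 1 / 2 ∧
          ∀ t ∈ Icc (0:ℝ) 1,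
            HasDerivWithinAt (A x) ((B x t).flip (τ • x.2) +
              (ContinuousLinearMap.id ℝ W - Pr n1 (ℓ x.2))) (Icc 0 1) t ∧
            HasDerivWithinAt (B x) ((K (ex (t • b (τ • x.2)) x.1) (τ • x.2)).comp (A x t))
              (Icc 0 1) t := by
  set zs : (D × W) × ((W →L[ℝ] W) × (W →L[ℝ] W →L[ℝ] W)) := ((κs, y0), (0, 0)) with hzs
  obtain ⟨a0, ha0, K0, G0, hG0, hl0, hb0⟩ := c1_ball (g0_contDiffAt b K n1 (z := zs) hK0 hℓ)
  obtain ⟨a1, ha1, K1, G1, hG1, hl1, hb1⟩ := c1_ball (g1_contDiffAt K n1 (z := zs) hK0 hℓ)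
  obtain ⟨al, hal, Kl, Gl, hGl, hll, -⟩ := c1_ball hℓ
  set a : ℝ := min (min a0 a1) (min (1 / 2) al) with ha
  have ha' : 0 < a := lt_min (lt_min ha0 ha1) (lt_min (by norm_num) hal)
  have hle0 : a ≤ a0 := (min_le_left _ _).trans (min_le_left _ _)
  have hle1 : a ≤ a1 := (min_le_left _ _).trans (min_le_right _ _)
  have hleh : a ≤ 1 / 2 := (min_le_right _ _).trans (min_le_left _ _)
  have hlel : a ≤ al := (min_le_right _ _).trans (min_le_right _ _)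
  refine ⟨a / 2 / (G0 + G1 + 1), by positivity, a / 2, by positivity, fun τ hτ hτ' => ?_⟩
  have hτ1 : τ * (G0 + G1) ≤ a / 2 := by
    have h1 : τ * (G0 + G1 + 1) ≤ a / 2 := by
      rw [← le_div_iff₀ (by positivity)]; exact hτ'.le
    nlinarith
  obtain ⟨α, hα, L, hL⟩ := jac_flow (g0 := g0 b K n1 ℓ) (g1 := g1 K n1 ℓ) (zs := zs) ha' hG0 hG1
    (fun x hx y hy => hl0 x (closedBall_subset_closedBall hle0 hx) y
      (closedBall_subset_closedBall hle0 hy))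
    (fun x hx => hb0 x (closedBall_subset_closedBall hle0 hx))
    (fun x hx y hy => hl1 x (closedBall_subset_closedBall hle1 hx) y
      (closedBall_subset_closedBall hle1 hy))
    (fun x hx => hb1 x (closedBall_subset_closedBall hle1 hx)) hτ hτ1
  have hemb : ∀ x ∈ closedBall (κs, y0) (a / 2),
      ((x, (0, 0)) : (D × W) × ((W →L[ℝ] W) × (W →L[ℝ] W →L[ℝ] W))) ∈ closedBall zs (a / 2) := by
    intro x hx
    rw [mem_closedBall, Prod.dist_eq, max_le_iff]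
    exact ⟨hx, by rw [hzs]; simp only [dist_self]; positivity⟩
  have hyc : ∀ x ∈ closedBall (κs, y0) (a / 2), ∀ t ∈ Icc (0:ℝ) 1,
      (α (x, (0, 0)) t).1.2 = x.2 := by
    intro x hx t ht
    obtain ⟨h1, -, h2⟩ := hα _ (hemb x hx)
    have h3 : ∀ t ∈ Icc (0:ℝ) 1, HasDerivWithinAt (fun t => (α (x, (0, 0)) t).1.2) 0 (Icc 0 1) t := by
      intro t ht
      have h4 := hdw_snd (hdw_fst (h2 t ht))
      simpa [g0, g1] using h4
    have := (convex_Icc (0:ℝ) 1).norm_image_sub_le_of_norm_hasDerivWithin_le h3 (C := 0)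
      (fun x _ => by simp) (left_mem_Icc.2 zero_le_one) ht
    rw [zero_mul] at this
    have h5 := sub_eq_zero.1 (norm_le_zero_iff.1 this)
    rw [h5]
    have h6 : α (x, (0, 0)) 0 = (x, (0, 0)) := h1
    rw [h6]
  have hκc : ∀ x ∈ closedBall (κs, y0) (a / 2), ∀ t ∈ Icc (0:ℝ) 1,
      (α (x, (0, 0)) t).1.1 = ex (t • b (τ • x.2)) x.1 := by
    intro x hx t ht
    obtain ⟨h1, -, h2⟩ := hα _ (hemb x hx)
    have h3 : ∀ t ∈ Icc (0:ℝ) 1, HasDerivWithinAt (fun t => (α (x, (0, 0)) t).1.1)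
        ((1:ℝ) • b (τ • x.2) (α (x, (0, 0)) t).1.1) (Icc 0 1) t := by
      intro t ht
      have h4 := hdw_fst (hdw_fst (h2 t ht))
      have h5 := hyc x hx t ht
      simp only [g0, g1] at h4
      simp only [Prod.smul_mk, Prod.mk_add_mk, smul_zero, add_zero, h5] at h4
      simpa using h4
    have := ex_sol (convex_Icc (0:ℝ) 1) (B := b (τ • x.2)) (μ := fun t => t) (μ' := fun _ => 1)
      (fun t _ => hasDerivWithinAt_id t _) h3 (left_mem_Icc.2 zero_le_one) ht rfl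
    rw [this]
    have h6 : α (x, (0, 0)) 0 = (x, (0, 0)) := h1
    rw [h6]
  refine ⟨fun x t => Pr n1 (ℓ x.2) + t • (ContinuousLinearMap.id ℝ W - Pr n1 (ℓ x.2)) +
    (α (x, (0, 0)) t).2.1, fun x t => (α (x, (0, 0)) t).2.2, ?_, ?_⟩
  · have hxl : ∀ x ∈ closedBall (κs, y0) (a / 2), x.2 ∈ closedBall y0 al := by
      intro x hx
      rw [mem_closedBall, dist_eq_norm] at hx ⊢
      have := (norm_snd_le (x - (κs, y0))).trans hx
      exact this.trans (by linarith)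
    refine ⟨L, fun x hx y hy => ?_⟩
    have h2 := hL _ (hemb x hx) _ (hemb y hy)
    have h3 : ‖((x, (0, 0)) : (D × W) × ((W →L[ℝ] W) × (W →L[ℝ] W →L[ℝ] W))) - (y, (0, 0))‖ =
        ‖x - y‖ := by
      exact norm_emb (Y := (W →L[ℝ] W) × (W →L[ℝ] W →L[ℝ] W)) x y
    rw [h3] at h2
    have h4 := (norm_snd_le (α (x, (0, 0)) 1 - α (y, (0, 0)) 1)).trans h2
    refine le_trans (le_of_eq ?_) h4
    congr 1
    refine Prod.ext ?_ rfl
    simp only [one_smul, Prod.mk_sub_mk, Prod.fst_sub, Prod.snd_sub]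
    abel
  · intro x hx
    obtain ⟨h1, hmem, h2⟩ := hα _ (hemb x hx)
    have h10 : α (x, (0, 0)) 0 = (x, (0, 0)) := h1
    refine ⟨by simp [h10], by simp [h10], ?_, ?_⟩
    · have h3 := hmem 1
      have h4 : ‖(α (x, (0, 0)) 1).2.1‖ ≤ a := by
        have e1 := (norm_fst_le _).trans ((norm_snd_le _).trans h3)
        have e2 : (α (x, (0, 0)) 1 - zs).2.1 = (α (x, (0, 0)) 1).2.1 := by simp [hzs]
        rw [e2] at e1; exact e1
      simp only [one_smul]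
      have e : Pr n1 (ℓ x.2) + (ContinuousLinearMap.id ℝ W - Pr n1 (ℓ x.2)) +
        (α (x, (0, 0)) 1).2.1 - ContinuousLinearMap.id ℝ W = (α (x, (0, 0)) 1).2.1 := by abel
      rw [e]; exact h4.trans hleh
    · intro t ht
      have hz := h2 t ht
      have hy := hyc x hx t ht
      have hk := hκc x hx t ht
      have hA := hdw_fst (hdw_snd hz)
      have hB := hdw_snd (hdw_snd hz)
      simp only [g0, g1, Prod.smul_mk, Prod.mk_add_mk, smul_zero, add_zero, hy, hk] at hA hB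
      constructor
      · have h3 : HasDerivWithinAt
            (fun t : ℝ => Pr n1 (ℓ x.2) + t • (ContinuousLinearMap.id ℝ W - Pr n1 (ℓ x.2)))
            (ContinuousLinearMap.id ℝ W - Pr n1 (ℓ x.2)) (Icc 0 1) t := by
          have := ((hasDerivWithinAt_id t (Icc (0:ℝ) 1)).smul_const
            (ContinuousLinearMap.id ℝ W - Pr n1 (ℓ x.2))).const_add (Pr n1 (ℓ x.2))
          simpa using this
        refine (h3.add hA).congr_deriv ?_
        ext w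
        simp
        abel
      · refine HasDerivWithinAt.congr_deriv (f' := _) hB ?_
        rw [hK1]
        ext w v
        simp only [ContinuousLinearMap.add_apply, ContinuousLinearMap.smul_apply,
          ContinuousLinearMap.comp_apply, map_add, map_smul, ContinuousLinearMap.sub_apply,
          ContinuousLinearMap.id_apply, map_sub, smul_add, smul_sub]
        rw [smul_comm τ t, smul_comm τ t]
        abel

end S

end Pool.Agent.H660R4
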