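import Mathlib
set_option autoImplicit false
open Set Filter Topology Metric
open scoped ContDiff NNReal

namespace Pool.Agent.H660R4

section Ode
variable {X : Type*} [NormedAddCommGroup X] [NormedSpace ℝ X] [CompleteSpace X]

/-- Picard–Lindelöf, with the information that the solution stays in the ball. -/
theorem pl_mem {f : ℝ → X → X} {tmin tmax : ℝ} {t₀ : Icc tmin tmax} {x₀ x : X} {a r L K : ℝ≥0}
    (hf : IsPicardLindelof f t₀ x₀ a r L K) (hx : x ∈ closedBall x₀ r) :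
    ∃ α : ℝ → X, α t₀ = x ∧ (∀ t, α t ∈ closedBall x₀ a) ∧
      ∀ t ∈ Icc tmin tmax, HasDerivWithinAt α (f t (α t)) (Icc tmin tmax) t := by
  obtain ⟨α, hα⟩ := ODE.FunSpace.exists_isFixedPt_next hf hx
  refine ⟨α.compProj, by rw [ODE.FunSpace.compProj_val, ← hα, ODE.FunSpace.next_apply₀],
    fun t => α.compProj_mem_closedBall hf.mul_max_le, fun t ht ↦ ?_⟩
  apply ODE.hasDerivWithinAt_picard_Icc t₀.2 hf.continuousOn_uncurry
    α.continuous_compProj.continuousOn (fun _ ht' ↦ α.compProj_mem_closedBall hf.mul_max_le)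
    x ht |>.congr_of_mem _ ht
  intro t' ht'
  nth_rw 1 [← hα]
  rw [ODE.FunSpace.compProj_of_mem ht', ODE.FunSpace.next_apply]

/-- The flow box of a `C²` vector field. -/
structure FlowBox (f : X → X) (x₀ : X) (Ω : Set X) where
  a : ℝ
  K : ℝ≥0
  L : ℝ
  r : ℝ
  ε : ℝ
  ha : 0 < a
  hL : 0 ≤ L
  hr : 0 < r
  hε : 0 < ε
  sub : closedBall x₀ a ⊆ Ω
  lip : LipschitzOnWith K f (closedBall x₀ a)
  quad : ∀ u ∈ closedBall x₀ a, ∀ v ∈ closedBall x₀ a,
    ‖f v - f u - fderiv ℝ f u (v - u)‖ ≤ L * ‖v - u‖ * ‖v - u‖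
  bd : ∀ u ∈ closedBall x₀ a, ‖fderiv ℝ f u‖ ≤ K
  ex : ∀ t₀ : ℝ, ∀ x ∈ closedBall x₀ r, ∃ z : ℝ → X, z t₀ = x ∧
    ∀ t ∈ Ioo (t₀ - ε) (t₀ + ε), z t ∈ closedBall x₀ a ∧ HasDerivAt z (f (z t)) t

theorem exists_flowBox {f : X → X} {x₀ : X} {Ω : Set X} (hΩ : IsOpen Ω) (hx : x₀ ∈ Ω)
    (hf : ContDiffOn ℝ 2 f Ω) : Nonempty (FlowBox f x₀ Ω) := by
  have hf0 : ContDiffAt ℝ 2 f x₀ := hf.contDiffAt (hΩ.mem_nhds hx)
  have hf1 : ContDiffAt ℝ 1 f x₀ := hf0.of_le (by norm_num)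
  have hf2 : ContDiffAt ℝ 1 (fderiv ℝ f) x₀ := hf0.fderiv_right (by norm_num)
  obtain ⟨K, s, hs, hl⟩ := hf1.exists_lipschitzOnWith
  obtain ⟨L, s', hs', hl'⟩ := hf2.exists_lipschitzOnWith
  obtain ⟨a, ha, has⟩ := Metric.nhds_basis_closedBall.mem_iff.1
    (inter_mem (inter_mem hs hs') (hΩ.mem_nhds hx))
  have hdf : ∀ u ∈ closedBall x₀ a, HasFDerivAt f (fderiv ℝ f u) u := by
    intro u hu
    have hu' := (has hu).2
    exact ((hf.contDiffAt (hΩ.mem_nhds hu')).differentiableAt (by norm_num)).hasFDerivAt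
  have hlip : LipschitzOnWith K f (closedBall x₀ a) := hl.mono fun u hu => (has hu).1.1
  set K' : ℝ≥0 := K + (L * ⟨a, ha.le⟩ + ‖fderiv ℝ f x₀‖₊) with hK'
  have hbd : ∀ u ∈ closedBall x₀ a, ‖fderiv ℝ f u‖ ≤ K' := by
    intro u hu
    have h1 := hl'.norm_sub_le (has hu).1.2 (has (mem_closedBall_self ha.le)).1.2
    have h2 : ‖u - x₀‖ ≤ a := by simpa [dist_eq_norm] using hu
    have h3 : ‖fderiv ℝ f u‖ ≤ ‖fderiv ℝ f u - fderiv ℝ f x₀‖ + ‖fderiv ℝ f x₀‖ :=
      norm_le_norm_sub_add _ _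
    have h4 : (L : ℝ) * ‖u - x₀‖ ≤ L * a := by gcongr
    have h5 : (K' : ℝ) = K + (L * a + ‖fderiv ℝ f x₀‖) := by
      rw [hK']; push_cast; rfl
    rw [h5]
    have : (0:ℝ) ≤ K := K.2
    linarith
  have hlip' : LipschitzOnWith K' f (closedBall x₀ a) := hlip.weaken (by rw [hK']; exact le_self_add)
  -- existence
  set Lb : ℝ≥0 := K' * ⟨a, ha.le⟩ + ‖f x₀‖₊ + 1 with hLb
  have hLb0 : 0 < Lb := by positivity
  have hLbr : (Lb : ℝ) = K' * a + ‖f x₀‖ + 1 := by rw [hLb]; push_cast; rfl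
  have hb : ∀ x ∈ closedBall x₀ a, ‖f x‖ ≤ Lb := by
    intro x hx
    have h1 := hlip'.norm_sub_le hx (mem_closedBall_self ha.le)
    have h2 : ‖x - x₀‖ ≤ a := by simpa [dist_eq_norm] using hx
    have h3 : ‖f x‖ ≤ ‖f x - f x₀‖ + ‖f x₀‖ := norm_le_norm_sub_add _ _
    have h4 : (K' : ℝ) * ‖x - x₀‖ ≤ K' * a := by gcongr
    rw [hLbr]; linarith
  set ε : ℝ := a / 2 / Lb with hε
  have hε0 : 0 < ε := by positivity
  refine ⟨⟨a, K', L, a / 2, ε, ha, L.2, by positivity, hε0, fun u hu => (has hu).2, hlip', ?_,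
    hbd, ?_⟩⟩
  · intro u hu v hv
    have hseg : segment ℝ u v ⊆ closedBall x₀ a := (convex_closedBall x₀ a).segment_subset hu hv
    refine (convex_segment u v).norm_image_sub_le_of_norm_hasFDerivWithin_le' (C := L * ‖v - u‖)
      (fun x hx => (hdf x (hseg hx)).hasFDerivWithinAt) ?_ (left_mem_segment ℝ u v)
      (right_mem_segment ℝ u v)
    intro x hx
    have h1 := hl'.norm_sub_le (has (hseg hx)).1.2 (has hu).1.2
    have h2 : ‖x - u‖ ≤ ‖v - u‖ := by
      obtain ⟨θ, ⟨h0, h7⟩, rfl⟩ := (segment_eq_image' ℝ u v) ▸ hx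
      simp only [add_sub_cancel_left, norm_smul, Real.norm_eq_abs, abs_of_nonneg h0]
      exact mul_le_of_le_one_left (norm_nonneg _) h7
    calc ‖fderiv ℝ f x - fderiv ℝ f u‖ ≤ L * ‖x - u‖ := h1
      _ ≤ L * ‖v - u‖ := by gcongr
  · intro t₀ x hx
    have hpl : IsPicardLindelof (fun _ => f) (tmin := t₀ - ε) (tmax := t₀ + ε)
        ⟨t₀, by simp [hε0.le]⟩ x₀ ⟨a, ha.le⟩ ⟨a / 2, by positivity⟩ Lb K' := by
      apply IsPicardLindelof.of_time_independent hb hlip'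
      simp only [add_sub_cancel_left, sub_sub_cancel, max_self]
      rw [hε]
      have : (Lb : ℝ) * (a / 2 / Lb) = a / 2 := by field_simp
      rw [this]
      show a / 2 ≤ a - a / 2
      linarith
    obtain ⟨z, hz0, hz1, hz2⟩ := pl_mem hpl hx
    exact ⟨z, hz0, fun t ht => ⟨hz1 t, (hz2 t (Ioo_subset_Icc_self ht)).hasDerivAt
      (Icc_mem_nhds ht.1 ht.2)⟩⟩

omit [CompleteSpace X] in
/-- Differentiability of solutions with respect to a parameter, by Grönwall. -/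
theorem gron_diff {f : X → X} {f' : X → X →L[ℝ] X} {B : Set X} {K : ℝ≥0} {L : ℝ} (hL : 0 ≤ L)
    (hK : LipschitzOnWith K f B)
    (hq : ∀ u ∈ B, ∀ v ∈ B, ‖f v - f u - f' u (v - u)‖ ≤ L * ‖v - u‖ * ‖v - u‖)
    (hb : ∀ u ∈ B, ‖f' u‖ ≤ K) {t1 t2 s0 : ℝ} (z : ℝ → ℝ → X) (ζ : ℝ → X)
    (hz : ∀ᶠ s in 𝓝 s0, ∀ t ∈ Icc t1 t2, z s t ∈ B ∧ HasDerivAt (z s) (f (z s t)) t)
    (hζ : ∀ t ∈ Icc t1 t2, HasDerivWithinAt ζ (f' (z s0 t) (ζ t)) (Icc t1 t2) t)
    (h1 : HasDerivAt (fun s => z s t1) (ζ t1) s0) :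
    ∀ t ∈ Icc t1 t2, HasDerivAt (fun s => z s t) (ζ t) s0 := by
  intro t ht
  have hz0 := hz.self_of_nhds
  rw [hasDerivAt_iff_isLittleO]
  have hlo := (hasDerivAt_iff_isLittleO.1 h1)
  set C0 : ℝ := ‖ζ t1‖ + 1 with hC0
  have hC00 : 0 < C0 := by positivity
  have hlin : ∀ᶠ s in 𝓝 s0, ‖z s t1 - z s0 t1‖ ≤ C0 * |s - s0| := by
    have := hlo.bound (show (0:ℝ) < 1 by norm_num)
    filter_upwards [this] with s hs
    have h2 : z s t1 - z s0 t1 = (z s t1 - z s0 t1 - (s - s0) • ζ t1) + (s - s0) • ζ t1 := by abel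
    rw [h2]
    refine (norm_add_le _ _).trans ?_
    rw [norm_smul]
    simp only [Real.norm_eq_abs] at hs ⊢
    rw [hC0]; nlinarith
  set Kp : ℝ := K + 1 with hKp
  have hKp0 : 0 < Kp := by positivity
  set C1 : ℝ := C0 * Real.exp (K * (t2 - t1)) with hC1
  have hC10 : 0 < C1 := by positivity
  have ht12 : t1 ≤ t2 := ht.1.trans ht.2
  have key : ∀ᶠ s in 𝓝 s0, ‖z s t - z s0 t - (s - s0) • ζ t‖ ≤
      ‖z s t1 - z s0 t1 - (s - s0) • ζ t1‖ * Real.exp (Kp * (t - t1)) +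
      (L * C1 ^ 2 * |s - s0| ^ 2) / Kp * (Real.exp (Kp * (t - t1)) - 1) := by
    filter_upwards [hz, hlin] with s hs hs1
    have hdist : ∀ t ∈ Icc t1 t2, ‖z s t - z s0 t‖ ≤ C1 * |s - s0| := by
      intro t ht
      have h := dist_le_of_trajectories_ODE_of_mem (v := fun _ => f) (s := fun _ => B) (K := K)
        (a := t1) (b := t2) (f := z s) (g := z s0) (fun _ _ => hK)
        (fun t ht => (hs t ht).2.continuousAt.continuousWithinAt)
        (fun t ht => (hs t (Ico_subset_Icc_self ht)).2.hasDerivWithinAt)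
        (fun t ht => (hs t (Ico_subset_Icc_self ht)).1)
        (fun t ht => (hz0 t ht).2.continuousAt.continuousWithinAt)
        (fun t ht => (hz0 t (Ico_subset_Icc_self ht)).2.hasDerivWithinAt)
        (fun t ht => (hz0 t (Ico_subset_Icc_self ht)).1) (δ := C0 * |s - s0|)
        (by rw [dist_eq_norm]; exact hs1) t ht
      rw [dist_eq_norm] at h
      refine h.trans ?_
      rw [hC1]
      have : Real.exp (K * (t - t1)) ≤ Real.exp (K * (t2 - t1)) := by
        apply Real.exp_le_exp.2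
        have := ht.2
        have hK0 : (0:ℝ) ≤ K := K.2
        nlinarith
      have h0 : 0 ≤ C0 * |s - s0| := by positivity
      nlinarith
    have hD : ∀ t ∈ Icc t1 t2, HasDerivWithinAt (fun t => z s t - z s0 t - (s - s0) • ζ t)
        (f (z s t) - f (z s0 t) - (s - s0) • f' (z s0 t) (ζ t)) (Icc t1 t2) t := by
      intro t ht
      exact (((hs t ht).2.hasDerivWithinAt.sub (hz0 t ht).2.hasDerivWithinAt)).sub
        ((hζ t ht).const_smul (s - s0))
    have hg := norm_le_gronwallBound_of_norm_deriv_right_le (K := Kp)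
      (ε := L * C1 ^ 2 * |s - s0| ^ 2) (δ := ‖z s t1 - z s0 t1 - (s - s0) • ζ t1‖)
      (fun t ht => (hD t ht).continuousWithinAt)
      (fun x hx => (hD x (Ico_subset_Icc_self hx)).mono_of_mem_nhdsWithin
        (Icc_mem_nhdsGE_of_mem hx)) le_rfl ?_ t ht
    · rw [gronwallBound_of_K_ne_0 hKp0.ne'] at hg
      exact hg
    · intro x hx
      have hx' := Ico_subset_Icc_self hx
      have e : f (z s x) - f (z s0 x) - (s - s0) • f' (z s0 x) (ζ x) =
          (f (z s x) - f (z s0 x) - f' (z s0 x) (z s x - z s0 x)) +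
            f' (z s0 x) (z s x - z s0 x - (s - s0) • ζ x) := by
        simp only [map_sub, map_smul]; abel
      rw [e]
      refine (norm_add_le _ _).trans ?_
      have h3 := hq _ (hz0 x hx').1 _ (hs x hx').1
      have h4 := hdist x hx'
      have h5 : ‖f' (z s0 x) (z s x - z s0 x - (s - s0) • ζ x)‖ ≤
          K * ‖z s x - z s0 x - (s - s0) • ζ x‖ :=
        ((f' (z s0 x)).le_opNorm _).trans (by gcongr; exact hb _ (hz0 x hx').1)
      have h6 : L * ‖z s x - z s0 x‖ * ‖z s x - z s0 x‖ ≤ L * C1 ^ 2 * |s - s0| ^ 2 := by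
        have : ‖z s x - z s0 x‖ * ‖z s x - z s0 x‖ ≤ (C1 * |s - s0|) * (C1 * |s - s0|) := by
          gcongr
        nlinarith
      have h7 : (K : ℝ) * ‖z s x - z s0 x - (s - s0) • ζ x‖ ≤
          Kp * ‖z s x - z s0 x - (s - s0) • ζ x‖ := by
        rw [hKp]; gcongr; linarith
      linarith
  have h2 : (fun s => |s - s0| ^ 2) =o[𝓝 s0] fun s => s - s0 := by
    have h3 : (fun s : ℝ => (s - s0) ^ 2) =o[𝓝 s0] fun s => s - s0 := by
      have h := (Asymptotics.isLittleO_pow_id (𝕜 := ℝ) (n := 2) (by norm_num)).comp_tendsto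
        (show Tendsto (fun s : ℝ => s - s0) (𝓝 s0) (𝓝 0) from by
          have : Tendsto (fun s : ℝ => s - s0) (𝓝 s0) (𝓝 (s0 - s0)) :=
            (continuous_id.sub continuous_const).tendsto s0
          simpa using this)
      simpa [Function.comp_def] using h
    simpa using h3
  refine Asymptotics.IsBigO.trans_isLittleO
    (g := fun s => ‖z s t1 - z s0 t1 - (s - s0) • ζ t1‖ * Real.exp (Kp * (t - t1)) +
      (L * C1 ^ 2 * |s - s0| ^ 2) / Kp * (Real.exp (Kp * (t - t1)) - 1)) ?_ ?_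
  · apply Asymptotics.IsBigO.of_bound 1
    filter_upwards [key] with s hs
    rw [one_mul]
    exact hs.trans (le_abs_self _)
  · apply Asymptotics.IsLittleO.add
    · have := hlo.norm_left.const_mul_left (Real.exp (Kp * (t - t1)))
      simpa [mul_comm] using this
    · have := h2.const_mul_left (L * C1 ^ 2 / Kp * (Real.exp (Kp * (t - t1)) - 1))
      refine this.congr_left fun s => ?_
      ring

end Ode

end Pool.Agent.H660R4
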