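import Pool.Agent.H660R4.Dev
import Pool.Agent.H660R4.Ana
set_option autoImplicit false
set_option linter.unusedSectionVars false
set_option linter.deprecated false
set_option synthInstance.maxHeartbeats 400000
set_option maxHeartbeats 4000000
open Set Filter Topology Metric
open scoped ContDiff NNReal Manifold

namespace Pool.Agent.H660R4

variable {E : Type*} [NormedAddCommGroup E] [NormedSpace ℝ E] [FiniteDimensional ℝ E]
  {M : Type*} [TopologicalSpace M] [ChartedSpace E M] [IsManifold 𝓘(ℝ, E) ∞ M]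
  {W : Type*} [NormedAddCommGroup W] [NormedSpace ℝ W] [FiniteDimensional ℝ W]

theorem cd_smul {X Y : Type*} [NormedAddCommGroup X] [NormedSpace ℝ X] [NormedAddCommGroup Y]
    [NormedSpace ℝ Y] {f : X → ℝ} (hf : ContDiff ℝ 1 f) (v : Y) :
    ContDiff ℝ 1 (fun x => f x • v) := hf.smul contDiff_const

/-- coordinate expression of a tensor field -/
noncomputable def cT {m : ℕ} (T : M → ContinuousMultilinearMap ℝ (fun _ : Fin m => E) ℝ) (a : M)
    (y : E) : ContinuousMultilinearMap ℝ (fun _ : Fin m => E) ℝ :=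
  (T ((chartAt E a).symm y)).compContinuousLinearMap (fun _ => Jc a ((chartAt E a).symm y) y)

/-- the tower of covariant derivatives of the curvature tensor -/
structure Tower (c : LC E M) (r : ℕ) where
  T : (k : ℕ) → M → ContinuousMultilinearMap ℝ (fun _ : Fin (4 + k) => E) ℝ
  diff : ∀ k, k < r → ∀ a, ∀ y ∈ (chartAt E a).target, DifferentiableAt ℝ (cT (T k) a) y
  zero : ∀ a, ∀ y ∈ (chartAt E a).target, ∀ u v w z : E,
    cT (T 0) a y ![u, v, w, z] = c.G a y (curv (c.Γ a) y u v w) z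
  succ : ∀ k, k < r → ∀ a, ∀ y ∈ (chartAt E a).target, ∀ (u : E) (v : Fin (4 + k) → E),
    cT (T (k + 1)) a y (Fin.cons u v) = fderiv ℝ (cT (T k) a) y u v -
      ∑ l, cT (T k) a y (Function.update v l (c.Γ a y u (v l)))
  vanish : ∀ p, T r p = 0

theorem cT_co {m : ℕ} (T : M → ContinuousMultilinearMap ℝ (fun _ : Fin m => E) ℝ) {a : M}
    {u : M × (W →L[ℝ] E)} (ha : u.1 ∈ (chartAt E a).source) (w : Fin m → W) :
    cT T a (co a u).1 (fun i => (co a u).2 (w i)) = T u.1 (fun i => u.2 (w i)) := by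
  have h := (chartAt E a).left_inv ha
  have hJ := Jc_inv (E := E) (mem_chart_source E u.1) ha
  simp only [cT, co, h, ContinuousMultilinearMap.compContinuousLinearMap_apply]
  congr 1
  funext i
  have := congrArg (fun L : E →L[ℝ] E => L (u.2 (w i))) hJ
  simpa using this

theorem hd_mlin {m : ℕ} {f : ℝ → ContinuousMultilinearMap ℝ (fun _ : Fin m => E) ℝ}
    {f' : ContinuousMultilinearMap ℝ (fun _ : Fin m => E) ℝ} {v : Fin m → ℝ → E} {v' : Fin m → E}
    {t : ℝ} (hf : HasDerivAt f f' t) (hv : ∀ i, HasDerivAt (v i) (v' i) t) :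
    HasDerivAt (fun s => f s (fun i => v i s))
      (f' (fun i => v i t) + ∑ i, f t (Function.update (fun i => v i t) i (v' i))) t := by
  have h := HasFDerivAt.continuousMultilinearMap_apply (𝕜 := ℝ) hf.hasFDerivAt
    (fun i => (hv i).hasFDerivAt)
  have h2 := h.hasDerivAt
  refine h2.congr_deriv ?_
  simp

variable {c : LC E M} {r : ℕ} (𝒯 : Tower c r)

theorem Tower.deriv {k : ℕ} (hk : k < r) {U : ℝ → M × (W →L[ℝ] E)} {α : W} {t : ℝ}
    (h : HasVel c U α 0 t) (w : Fin (4 + k) → W) :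
    HasDerivAt (fun s => 𝒯.T k (U s).1 (fun i => (U s).2 (w i)))
      (𝒯.T (k + 1) (U t).1 (fun i => (U t).2 ((Fin.cons α w : Fin (4 + k + 1) → W) i))) t := by
  set a := (U t).1 with ha
  have has : (U t).1 ∈ (chartAt E a).source := mem_chart_source E _
  have hy : (co a (U t)).1 ∈ (chartAt E a).target := (chartAt E a).map_source has
  have hev : (fun s => 𝒯.T k (U s).1 (fun i => (U s).2 (w i))) =ᶠ[𝓝 t]
      fun s => cT (𝒯.T k) a (co a (U s)).1 (fun i => (co a (U s)).2 (w i)) := by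
    filter_upwards [eventually_source h.1 has] with s hs
    exact (cT_co _ hs w).symm
  refine HasDerivAt.congr_of_eventuallyEq ?_ hev
  have hz := h.hasCo c has
  have h1 := hd_fst hz
  have h2 := hd_snd hz
  have h3 := comp_fd (l := cT (𝒯.T k) a) (x := fun s => (co a (U s)).1) (𝒯.diff k hk a _ hy) h1
  have h4 : ∀ i : Fin (4 + k), HasDerivAt (fun s => (co a (U s)).2 (w i))
      (-(c.Γ a (co a (U t)).1 ((co a (U t)).2 α) ((co a (U t)).2 (w i)))) t := by
    intro i
    refine (h2.clm_apply (hasDerivAt_const t (w i))).congr_deriv ?_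
    simp [vel]
  refine (hd_mlin h3 h4).congr_deriv ?_
  have h5 := cT_co (𝒯.T (k + 1)) has (Fin.cons α w : Fin (4 + k + 1) → W)
  have h6 : (fun i => (co a (U t)).2 ((Fin.cons α w : Fin (4 + k + 1) → W) i)) =
      (Fin.cons ((co a (U t)).2 α) (fun i => (co a (U t)).2 (w i)) : Fin (4 + k + 1) → E) := by
    funext i
    refine Fin.cases ?_ (fun j => ?_) i <;> simp
  rw [← h5]
  have h7 := 𝒯.succ k hk a _ hy ((co a (U t)).2 α) (fun i => (co a (U t)).2 (w i))
  rw [← h6] at h7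
  refine Eq.trans ?_ h7.symm
  rw [sub_eq_add_neg, ← Finset.sum_neg_distrib]
  congr 1
  refine Finset.sum_congr rfl fun l _ => ?_
  rw [← neg_one_smul ℝ (c.Γ a (co a (U t)).1 ((co a (U t)).2 α) ((co a (U t)).2 (w l))),
    ContinuousMultilinearMap.map_update_smul, neg_one_smul]

section Comp
variable {n : ℕ}

/-- the space of components of the curvature tensor and its derivatives -/
abbrev DD (r n : ℕ) : Type := ((k : Fin r) × (Fin (4 + (k : ℕ)) → Fin n)) → ℝ

noncomputable def bas (j : Fin n) : EuclideanSpace ℝ (Fin n) := EuclideanSpace.single j 1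

theorem sum_bas (w : (EuclideanSpace ℝ (Fin n))) : ∑ j, w j • bas j = w := by
  ext i
  simp [bas, Pi.single_apply]

/-- components -/
noncomputable def kap (u : M × ((EuclideanSpace ℝ (Fin n)) →L[ℝ] E)) : DD r n :=
  fun s => 𝒯.T s.1 u.1 (fun l => u.2 (bas (s.2 l)))

/-- the shift -/
noncomputable def shift (r : ℕ) {n : ℕ} (j : Fin n) : DD r n →L[ℝ] DD r n :=
  ContinuousLinearMap.pi fun s => if h : (s.1 : ℕ) + 1 < r then
    ContinuousLinearMap.proj (R := ℝ)
      (φ := fun _ : ((k : Fin r) × (Fin (4 + (k : ℕ)) → Fin n)) => ℝ)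
      ⟨⟨s.1 + 1, h⟩, (Fin.cons j s.2 : Fin (4 + (s.1 : ℕ) + 1) → Fin n)⟩ else 0

/-- the linear vector fields -/
noncomputable def bb (r n : ℕ) : EuclideanSpace ℝ (Fin n) →L[ℝ] DD r n →L[ℝ] DD r n :=
  ∑ j, (EuclideanSpace.proj j : EuclideanSpace ℝ (Fin n) →L[ℝ] ℝ).smulRight (shift r j)

theorem cons_expand {k : ℕ} (T : ContinuousMultilinearMap ℝ (fun _ : Fin (4 + k + 1) => E) ℝ)
    (F : (EuclideanSpace ℝ (Fin n)) →L[ℝ] E) (α : (EuclideanSpace ℝ (Fin n))) (w : Fin (4 + k) → (EuclideanSpace ℝ (Fin n))) :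
    T (fun i => F ((Fin.cons α w : Fin (4 + k + 1) → (EuclideanSpace ℝ (Fin n))) i)) =
      ∑ j, α j * T (fun i => F ((Fin.cons (bas j) w : Fin (4 + k + 1) → (EuclideanSpace ℝ (Fin n))) i)) := by
  have h6 : ∀ β : (EuclideanSpace ℝ (Fin n)), T (fun i => F ((Fin.cons β w : Fin (4 + k + 1) → (EuclideanSpace ℝ (Fin n))) i)) =
      T.curryLeft (F β) (fun i => F (w i)) := by
    intro β
    rw [ContinuousMultilinearMap.curryLeft_apply]
    congr 1
    funext i
    refine Fin.cases ?_ (fun j => ?_) i <;> simp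
  rw [h6]
  simp only [h6]
  conv_lhs => rw [← sum_bas α]
  simp [map_sum, ContinuousMultilinearMap.sum_apply]

theorem kap_deriv {U : ℝ → M × ((EuclideanSpace ℝ (Fin n)) →L[ℝ] E)} {α : (EuclideanSpace ℝ (Fin n))} {t : ℝ} (h : HasVel c U α 0 t) :
    HasDerivAt (fun s => kap 𝒯 (U s)) (bb r n α (kap 𝒯 (U t))) t := by
  rw [hasDerivAt_pi]
  rintro ⟨k, i⟩
  have h1 := 𝒯.deriv k.2 h (fun l => bas (i l))
  refine h1.congr_deriv ?_
  refine (cons_expand (𝒯.T (k + 1) (U t).1) (U t).2 α (fun l => bas (i l))).trans ?_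
  simp only [bb, ContinuousLinearMap.sum_apply, ContinuousLinearMap.smulRight_apply,
    Finset.sum_apply, ContinuousLinearMap.smul_apply, Pi.smul_apply, smul_eq_mul,
    PiLp.proj_apply]
  refine Finset.sum_congr rfl fun j _ => ?_
  congr 1
  simp only [shift, ContinuousLinearMap.pi_apply]
  by_cases hk : (k : ℕ) + 1 < r
  · rw [dif_pos hk]
    simp only [ContinuousLinearMap.proj_apply, kap]
    congr 1
    funext l
    congr 1
    refine Fin.cases ?_ (fun j => ?_) l <;> simp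
  · rw [dif_neg hk]
    have hr : (k : ℕ) + 1 = r := by omega
    have h3 : ∀ m : ℕ, m = r → 𝒯.T m (U t).1 = 0 := by
      intro m hm
      subst hm
      exact 𝒯.vanish (U t).1
    rw [h3 _ hr]; simp

theorem kap_flow {y : (EuclideanSpace ℝ (Fin n))} {U : ℝ → M × ((EuclideanSpace ℝ (Fin n)) →L[ℝ] E)} {a b : ℝ} (hU : FG c y U (Ioo a b))
    {t₀ t : ℝ} (h0 : t₀ ∈ Ioo a b) (ht : t ∈ Ioo a b) :
    kap 𝒯 (U t) = ex ((t - t₀) • bb r n y) (kap 𝒯 (U t₀)) :=
  ex_sol (convex_Ioo a b) (B := bb r n y) (μ := fun t => t - t₀) (μ' := fun _ => 1)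
    (fun t _ => ((hasDerivAt_id t).sub_const t₀).hasDerivWithinAt)
    (fun t ht => by
      rw [one_smul]; exact (kap_deriv 𝒯 (hU t ht)).hasDerivWithinAt) h0 ht (sub_self _)

/-- the curvature operator, from its components -/
noncomputable def Kf (r : ℕ) {n : ℕ} (hr : 0 < r) (f : Fin n → EuclideanSpace ℝ (Fin n))
    (κ : DD r n) (y : EuclideanSpace ℝ (Fin n)) :
    EuclideanSpace ℝ (Fin n) →L[ℝ] EuclideanSpace ℝ (Fin n) →L[ℝ] EuclideanSpace ℝ (Fin n) :=
  ∑ i : Fin 4 → Fin n, (κ ⟨⟨0, hr⟩, i⟩ * y (i 0)) •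
    (EuclideanSpace.proj (i 1) : EuclideanSpace ℝ (Fin n) →L[ℝ] ℝ).smulRight
      ((EuclideanSpace.proj (i 2) : EuclideanSpace ℝ (Fin n) →L[ℝ] ℝ).smulRight (f (i 3)))

theorem Kf_contDiff (hr : 0 < r) (f : Fin n → (EuclideanSpace ℝ (Fin n))) :
    ContDiff ℝ 1 (fun z : DD r n × (EuclideanSpace ℝ (Fin n)) => Kf r hr f z.1 z.2) := by
  unfold Kf
  refine ContDiff.sum fun i _ => cd_smul (ContDiff.mul ?_ ?_) _
  · exact (contDiff_apply ℝ ℝ _).comp contDiff_fst
  · exact (EuclideanSpace.proj (i 0) : (EuclideanSpace ℝ (Fin n)) →L[ℝ] ℝ).contDiff.comp contDiff_snd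

theorem Kf_smul (hr : 0 < r) (f : Fin n → (EuclideanSpace ℝ (Fin n))) (κ : DD r n) (τ : ℝ) (y : (EuclideanSpace ℝ (Fin n))) :
    Kf r hr f κ (τ • y) = τ • Kf r hr f κ y := by
  unfold Kf
  rw [Finset.smul_sum]
  refine Finset.sum_congr rfl fun i _ => ?_
  rw [smul_smul]
  congr 1
  simp only [PiLp.smul_apply, smul_eq_mul]
  ring

theorem T_expand (T : ContinuousMultilinearMap ℝ (fun _ : Fin 4 => E) ℝ) (F : (EuclideanSpace ℝ (Fin n)) →L[ℝ] E)
    (v : Fin 4 → (EuclideanSpace ℝ (Fin n))) :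
    T (fun l => F (v l)) = ∑ i : Fin 4 → Fin n, (∏ l, v l (i l)) * T (fun l => F (bas (i l))) := by
  have h1 : (fun l => F (v l)) = fun l => ∑ j, v l j • F (bas j) := by
    funext l
    conv_lhs => rw [← sum_bas (v l)]
    simp [map_sum]
  rw [h1]
  have h2 := T.toMultilinearMap.map_sum (fun l (j : Fin n) => v l j • F (bas j))
  simp only [ContinuousMultilinearMap.coe_coe] at h2
  rw [h2]
  refine Finset.sum_congr rfl fun i _ => ?_
  have h3 := T.map_smul_univ (fun l => v l (i l)) (fun l => F (bas (i l)))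
  rw [h3, smul_eq_mul]

/-- the curvature operator in the frame -/
theorem Kf_curv (hr : 0 < r) {η : (EuclideanSpace ℝ (Fin n)) →L[ℝ] (EuclideanSpace ℝ (Fin n)) →L[ℝ] ℝ} (hη : ∀ v, (∀ w, η v w = 0) → v = 0)
    {f : Fin n → (EuclideanSpace ℝ (Fin n))} (hf : ∀ d z, η (f d) z = z d) {u : M × ((EuclideanSpace ℝ (Fin n)) →L[ℝ] E)} (hu : Ad c η u)
    (hsurj : Function.Surjective u.2) {a : M} (ha : u.1 ∈ (chartAt E a).source) (p q w : (EuclideanSpace ℝ (Fin n))) :
    curv (c.Γ a) (co a u).1 ((co a u).2 p) ((co a u).2 q) ((co a u).2 w) =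
      (co a u).2 (Kf r hr f (kap 𝒯 u) p q w) := by
  have hy : (co a u).1 ∈ (chartAt E a).target := (chartAt E a).map_source ha
  -- both sides pair in the same way with every vector
  have key : ∀ z : (EuclideanSpace ℝ (Fin n)), c.G a (co a u).1 (curv (c.Γ a) (co a u).1 ((co a u).2 p) ((co a u).2 q)
      ((co a u).2 w)) ((co a u).2 z) =
      c.G a (co a u).1 ((co a u).2 (Kf r hr f (kap 𝒯 u) p q w)) ((co a u).2 z) := by
    intro z
    rw [g_co c ha, hu, ← 𝒯.zero a _ hy]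
    have h1 : (![(co a u).2 p, (co a u).2 q, (co a u).2 w, (co a u).2 z] : Fin 4 → E) =
        fun l => (co a u).2 ((![p, q, w, z] : Fin 4 → (EuclideanSpace ℝ (Fin n))) l) := by
      funext l; fin_cases l <;> rfl
    rw [h1, cT_co _ ha, T_expand]
    unfold Kf
    simp only [ContinuousLinearMap.sum_apply, ContinuousLinearMap.smul_apply,
      ContinuousLinearMap.smulRight_apply, map_sum, map_smul, smul_eq_mul, hf,
      PiLp.proj_apply]
    refine Finset.sum_congr rfl fun i _ => ?_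
    have h2 : kap 𝒯 u ⟨⟨0, hr⟩, i⟩ = 𝒯.T 0 u.1 (fun l => u.2 (bas (i l))) := rfl
    rw [h2, Fin.prod_univ_four]
    simp only [Matrix.cons_val_zero, Matrix.cons_val_one, Matrix.cons_val]
    ring
  -- nondegeneracy
  have hJ : Function.Surjective (co a u).2 := by
    intro x
    have hi := Jc_inv (E := E) ha (mem_chart_source E u.1)
    obtain ⟨w, hw⟩ := hsurj (Jc a u.1 (chartAt E a u.1) x)
    refine ⟨w, ?_⟩
    simp only [co, ContinuousLinearMap.comp_apply, hw]
    have := congrArg (fun L : E →L[ℝ] E => L x) hi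
    simpa using this
  obtain ⟨d, hd⟩ := hJ (curv (c.Γ a) (co a u).1 ((co a u).2 p) ((co a u).2 q) ((co a u).2 w))
  rw [← hd]
  congr 1
  rw [← sub_eq_zero]
  refine hη _ fun z => ?_
  rw [← hu, ← g_co c ha, map_sub, map_sub]
  have := key z
  rw [← hd] at this
  simp only [ContinuousLinearMap.sub_apply]
  rw [this, sub_self]

end Comp

end Pool.Agent.H660R4
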