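import Pool.Agent.H660R4.Ext
set_option autoImplicit false
set_option linter.unusedSectionVars false
set_option linter.deprecated false
set_option synthInstance.maxHeartbeats 400000
set_option maxHeartbeats 4000000
open Set Filter Topology Metric
open scoped ContDiff NNReal Manifold

namespace Pool.Agent.H660R4

variable {n : ℕ} {M : Type*} [TopologicalSpace M] [ChartedSpace (EuclideanSpace ℝ (Fin n)) M]
  [IsManifold 𝓘(ℝ, EuclideanSpace ℝ (Fin n)) ∞ M]
  {c : LC (EuclideanSpace ℝ (Fin n)) M} {r : ℕ} (𝒯 : Tower c r)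

theorem fg_zero (u : M × ((EuclideanSpace ℝ (Fin n)) →L[ℝ] (EuclideanSpace ℝ (Fin n)))) : FG c (0 : (EuclideanSpace ℝ (Fin n))) (fun _ => u) univ := by
  intro t _
  refine ⟨continuousAt_const, ?_⟩
  have : vel (c.Γ u.1 (co u.1 u).1) (co u.1 u).2 (0 : (EuclideanSpace ℝ (Fin n))) 0 = 0 := by
    ext <;> simp [vel]
  show HasDerivAt (fun _ => co u.1 u) (vel (c.Γ u.1 (co u.1 u).1) (co u.1 u).2 (0 : (EuclideanSpace ℝ (Fin n))) 0) t
  rw [this]
  exact hasDerivAt_const t _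

theorem exists_dual {η : (EuclideanSpace ℝ (Fin n)) →L[ℝ] (EuclideanSpace ℝ (Fin n)) →L[ℝ] ℝ} (hη : ∀ v, (∀ w, η v w = 0) → v = 0) :
    ∃ f : Fin n → (EuclideanSpace ℝ (Fin n)), ∀ d z, η (f d) z = z d := by
  have hinj : Function.Injective (η : (EuclideanSpace ℝ (Fin n)) →ₗ[ℝ] ((EuclideanSpace ℝ (Fin n)) →L[ℝ] ℝ)) := by
    rw [injective_iff_map_eq_zero]
    intro v hv
    refine hη v fun w => ?_
    have : η v = 0 := hv
    rw [this]; simp
  have hfr : Module.finrank ℝ (EuclideanSpace ℝ (Fin n)) = Module.finrank ℝ ((EuclideanSpace ℝ (Fin n)) →L[ℝ] ℝ) := by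
    rw [← (LinearMap.toContinuousLinearMap : ((EuclideanSpace ℝ (Fin n)) →ₗ[ℝ] ℝ) ≃ₗ[ℝ] ((EuclideanSpace ℝ (Fin n)) →L[ℝ] ℝ)).finrank_eq]
    exact (Subspace.dual_finrank_eq (K := ℝ) (V := (EuclideanSpace ℝ (Fin n)))).symm
  have hsur := (LinearMap.injective_iff_surjective_of_finrank_eq_finrank hfr).1 hinj
  choose f hf using fun d : Fin n => hsur (EuclideanSpace.proj d : (EuclideanSpace ℝ (Fin n)) →L[ℝ] ℝ)
  refine ⟨f, fun d z => ?_⟩
  have h1 : η (f d) = (EuclideanSpace.proj d : (EuclideanSpace ℝ (Fin n)) →L[ℝ] ℝ) := hf d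
  rw [h1]; simp

theorem ad_surj {η : (EuclideanSpace ℝ (Fin n)) →L[ℝ] (EuclideanSpace ℝ (Fin n)) →L[ℝ] ℝ} (hη : ∀ v, (∀ w, η v w = 0) → v = 0)
    (u : M × ((EuclideanSpace ℝ (Fin n)) →L[ℝ] (EuclideanSpace ℝ (Fin n)))) (hu : Ad c η u) : Function.Surjective u.2 :=
  (LinearMap.injective_iff_surjective (f := (u.2 : (EuclideanSpace ℝ (Fin n)) →ₗ[ℝ] (EuclideanSpace ℝ (Fin n))))).1 (hu.inj c hη)

theorem gc_of_frame {x : M} {v : (EuclideanSpace ℝ (Fin n))} (h : ∃ U : ℝ → M × ((EuclideanSpace ℝ (Fin n)) →L[ℝ] (EuclideanSpace ℝ (Fin n))),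
    U 0 = (x, ContinuousLinearMap.id ℝ (EuclideanSpace ℝ (Fin n))) ∧ FG c v U univ) : GC c x v := by
  obtain ⟨U, hU0, hU⟩ := h
  refine ⟨_, ?_, hU.right c (ContinuousLinearMap.toSpanSingleton ℝ v) (y' := (1:ℝ)) (by simp)⟩
  rw [hU0]; rfl

include 𝒯 in
theorem full_of_sign [T2Space M] (hr : 0 < r) {σ : ℝ}
    (hcomp : ∀ (x : M) (v : (EuclideanSpace ℝ (Fin n))), 0 < σ * c.g x v v → GC c x v)
    (hex : ∀ x, ∃ v, 0 < σ * c.g x v v) (x : M) (v : (EuclideanSpace ℝ (Fin n))) : GC c x v := by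
  set η := c.g x with hηdef
  have hη := c.nondeg x
  obtain ⟨f, hf⟩ := exists_dual (η := η) hη
  obtain ⟨y0, hy0⟩ := hex x
  have hcont : Continuous fun y : (EuclideanSpace ℝ (Fin n)) => σ * η y y :=
    continuous_const.mul (η.continuous.clm_apply continuous_id)
  have hev : ∀ᶠ y in 𝓝 y0, 0 < σ * η y y := (hcont.tendsto y0).eventually_const_lt hy0
  obtain ⟨δ, hδ, hball⟩ := Metric.nhds_basis_closedBall.mem_iff.1 hev
  refine gc_of_frame (complete_main 𝒯 hr hη hf (ad_surj hη) (n1 := 0) (y0 := y0)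
    (ℓ := fun _ => 0) contDiffAt_const hδ (Cc := fun y => 0 < σ * η y y) ?_ ?_ ?_ ?_ v
    (x, ContinuousLinearMap.id ℝ (EuclideanSpace ℝ (Fin n))) fun v w => rfl)
  · intro u hu y hy
    have h1 : GC c u.1 (u.2 y) := hcomp _ _ (by rw [hu y y]; exact hy)
    obtain ⟨U, hU0, hU⟩ := h1.frame c
    exact ⟨U, hU0, hU⟩
  · exact fun u _ => ⟨fun _ => u, rfl, fg_zero u⟩
  · intro τ hτ ε hε y y' ct lam' h0 h s hs
    obtain ⟨-, h2, -⟩ := h s hs
    have h3 : 0 < σ * η (τ⁻¹ • y s) (τ⁻¹ • y s) := hball (by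
      rw [mem_closedBall, dist_eq_norm]; exact h2)
    have e : η (τ⁻¹ • y s) (τ⁻¹ • y s) = τ⁻¹ * τ⁻¹ * η (y s) (y s) := by
      simp only [map_smul, ContinuousLinearMap.smul_apply, smul_eq_mul]; ring
    rw [e] at h3
    have h4 : 0 < τ⁻¹ * τ⁻¹ := by positivity
    have h5 : σ * (τ⁻¹ * τ⁻¹ * η (y s) (y s)) = τ⁻¹ * τ⁻¹ * (σ * η (y s) (y s)) := by ring
    rw [h5] at h3
    exact (pos_iff_pos_of_mul_pos h3).1 h4
  · intro τ hτ
    have e : σ * η (τ • y0) (τ • y0) = τ * τ * (σ * η y0 y0) := by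
      simp only [map_smul, ContinuousLinearMap.smul_apply, smul_eq_mul]; ring
    rw [e]
    have : 0 < σ * η y0 y0 := hy0
    positivity

theorem exists_null {η : (EuclideanSpace ℝ (Fin n)) →L[ℝ] (EuclideanSpace ℝ (Fin n)) →L[ℝ] ℝ} (hs : ∀ v w, η v w = η w v)
    (h1 : ∃ v, η v v < 0) (h2 : ∃ v, 0 < η v v) :
    ∃ n1 y0 : (EuclideanSpace ℝ (Fin n)), η n1 n1 = 0 ∧ η y0 y0 = 0 ∧ η n1 y0 ≠ 0 := by
  obtain ⟨p, hp⟩ := h2
  obtain ⟨q, hq⟩ := h1
  set A := η p p with hA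
  set B := η p q with hB
  set C := η q q with hC
  have hD : 0 < B ^ 2 - A * C := by nlinarith
  set D := Real.sqrt (B ^ 2 - A * C) with hDd
  have hD0 : 0 < D := Real.sqrt_pos.2 hD
  have hDD : D * D = B ^ 2 - A * C := Real.mul_self_sqrt hD.le
  have hval : ∀ θ θ' : ℝ, η (p + θ • q) (p + θ' • q) = A + (θ + θ') * B + θ * θ' * C := by
    intro θ θ'
    simp only [map_add, map_smul, ContinuousLinearMap.add_apply, ContinuousLinearMap.smul_apply,
      smul_eq_mul, hs q p]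
    ring
  have hC0 : C ≠ 0 := hq.ne
  refine ⟨p + ((-B + D) / C) • q, p + ((-B - D) / C) • q, ?_, ?_, ?_⟩
  · rw [hval]; field_simp; nlinarith
  · rw [hval]; field_simp; nlinarith
  · rw [hval]
    have : A + ((-B + D) / C + (-B - D) / C) * B + (-B + D) / C * ((-B - D) / C) * C =
        2 * (A * C - B ^ 2) / C := by
      field_simp
      nlinarith
    rw [this]
    exact div_ne_zero (by nlinarith) hC0

include 𝒯 in
theorem full_of_null [T2Space M] (hr : 0 < r) (hsym : ∀ (x : M) (v w : (EuclideanSpace ℝ (Fin n))), c.g x v w = c.g x w v)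
    (hcomp : ∀ (x : M) (v : (EuclideanSpace ℝ (Fin n))), v ≠ 0 → c.g x v v = 0 → GC c x v)
    (hex1 : ∀ x, ∃ v, c.g x v v < 0) (hex2 : ∀ x, ∃ v, 0 < c.g x v v) (x : M) (v : (EuclideanSpace ℝ (Fin n))) :
    GC c x v := by
  set η := c.g x with hηdef
  have hη := c.nondeg x
  obtain ⟨f, hf⟩ := exists_dual (η := η) hη
  obtain ⟨n1, y0, hn1, hy0, hny⟩ := exists_null (η := η) (hsym x) (hex1 x) (hex2 x)
  have hcont : Continuous fun y : (EuclideanSpace ℝ (Fin n)) => η n1 y := (η n1).continuous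
  have hev : ∀ᶠ y in 𝓝 y0, η n1 y ≠ 0 := hcont.continuousAt.eventually_ne hny
  obtain ⟨δ, hδ, hball⟩ := Metric.nhds_basis_closedBall.mem_iff.1 hev
  have hℓ : ContDiffAt ℝ 1 (fun y : (EuclideanSpace ℝ (Fin n)) => (η n1 y)⁻¹ • η y) y0 := by
    have h1 : ContDiffAt ℝ 1 (fun y : (EuclideanSpace ℝ (Fin n)) => (η n1 y)⁻¹) y0 :=
      ((η n1).contDiff.contDiffAt).inv hny
    have h2 : ContDiffAt ℝ 1 (fun y : (EuclideanSpace ℝ (Fin n)) => η y) y0 := η.contDiff.contDiffAt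
    exact h1.smul h2
  have hC : ∀ u : M × ((EuclideanSpace ℝ (Fin n)) →L[ℝ] (EuclideanSpace ℝ (Fin n))), Ad c η u → ∀ y, η y y = 0 →
      ∃ U : ℝ → M × ((EuclideanSpace ℝ (Fin n)) →L[ℝ] (EuclideanSpace ℝ (Fin n))), U 0 = u ∧ FG c y U univ := by
    intro u hu y hy
    by_cases hy0 : y = 0
    · subst hy0
      exact ⟨fun _ => u, rfl, fg_zero u⟩
    · have hne : u.2 y ≠ 0 := fun h => hy0 ((hu.inj c hη) (by rw [h, map_zero]))
      have h1 : GC c u.1 (u.2 y) := hcomp _ _ hne (by rw [hu y y]; exact hy)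
      obtain ⟨U, hU0, hU⟩ := h1.frame c
      exact ⟨U, hU0, hU⟩
  refine gc_of_frame (complete_main 𝒯 hr hη hf (ad_surj hη) (n1 := n1) (y0 := y0)
    (ℓ := fun y => (η n1 y)⁻¹ • η y) hℓ hδ (Cc := fun y => η y y = 0) hC
    (fun u hu => hC u hu n1 hn1) ?_ ?_ v (x, ContinuousLinearMap.id ℝ (EuclideanSpace ℝ (Fin n))) fun v w => rfl)
  · intro τ hτ ε hε y y' ct lam' h0 h s hs
    have h0I : (0:ℝ) ∈ Ioo (-ε) ε := ⟨by linarith, hε⟩
    have hd : ∀ s ∈ Ioo (-ε) ε, HasDerivAt (fun s => η (y s) (y s)) 0 s := by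
      intro s hs
      obtain ⟨h1, h2, h3, h4⟩ := h s hs
      have h5 : HasDerivAt (fun s => η (y s)) (η (y' s)) s :=
        (η.hasFDerivAt).comp_hasDerivAt s h1
      refine (h5.clm_apply h1).congr_deriv ?_
      have h6 : η n1 (τ⁻¹ • y s) ≠ 0 := hball (by
        rw [mem_closedBall, dist_eq_norm]; exact h2)
      have h7 : η (y s) n1 ≠ 0 := by
        intro h8
        apply h6
        rw [map_smul, hsym x n1 (y s)]
        show τ⁻¹ • (η (y s) n1) = 0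
        rw [h8, smul_zero]
      have e1 : η n1 (τ⁻¹ • y s) = τ⁻¹ * η (y s) n1 := by
        rw [map_smul, smul_eq_mul, hηdef, hsym x n1 (y s)]
      have h9 : lam' s * η (y s) n1 = η (y s) (ct s) := by
        rw [h3]
        simp only [ContinuousLinearMap.smul_apply, smul_eq_mul, e1, map_smul]
        field_simp
      have e2 : η (y' s) (y s) = η (y s) (y' s) := hsym x _ _
      rw [e2, h4]
      simp only [map_sub, map_smul, smul_eq_mul]
      rw [h9]; ring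
    have h1 : η (y s) (y s) = η (y 0) (y 0) :=
      isOpen_Ioo.is_const_of_deriv_eq_zero isPreconnected_Ioo
        (fun s hs => (hd s hs).differentiableAt.differentiableWithinAt)
        (fun s hs => (hd s hs).deriv) hs h0I
    show η (y s) (y s) = 0
    rw [h1, h0]
    simp [hy0]
  · intro τ hτ
    simp [hy0]

end Pool.Agent.H660R4
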